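import Pool.Agent.UNL.Bas
import Pool.Agent.UQO.Box
import Pool.Agent.EllSch.Zeta
import Pool.Agent.EllSch.Add

/-!
# UNL: generic points, the functions of the element do not vanish there, periodicity
-/

open MeasureTheory

namespace UNL.Gen

open Pool.Agent.EllSch (wp wq Off lat Ind)

noncomputable section

theorem ind (a : Par) : Ind 1 (tau a) := by
  have h := tau_im_pos a
  simp [Ind, h.ne']

lemma lat_xx (a : Par) (n : ℤ × ℤ) : lat 1 (tau a) n = xx a n := by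
  simp only [lat, xx]; ring

lemma xx_add (a : Par) (m n : ℤ × ℤ) : xx a (m + n) = xx a m + xx a n := by
  simp only [xx, Prod.fst_add, Prod.snd_add]; push_cast; ring

lemma xx_neg (a : Par) (m : ℤ × ℤ) : xx a (-m) = -xx a m := by
  simp only [xx, Prod.fst_neg, Prod.snd_neg]; push_cast; ring

lemma xx_sub (a : Par) (m n : ℤ × ℤ) : xx a (m - n) = xx a m - xx a n := by
  simp only [xx, Prod.fst_sub, Prod.snd_sub]; push_cast; ring

lemma xx_zero (a : Par) : xx a 0 = 0 := by simp [xx]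

lemma xx_smul (a : Par) (c : ℤ) (m : ℤ × ℤ) : xx a (c • m) = c * xx a m := by
  simp only [xx, Prod.smul_fst, Prod.smul_snd, smul_eq_mul]; push_cast; ring

lemma xx_inj (a : Par) : Function.Injective (xx a) := by
  intro m n h
  apply Pool.Agent.EllSch.lat_injective (ind a)
  rw [lat_xx, lat_xx, h]

lemma ofl_iff (a : Par) (u : ℂ) : Ofl a u ↔ ∀ n, u ≠ xx a n := by
  simp only [Ofl, Off, lat_xx]

lemma not_ofl_iff (a : Par) (u : ℂ) : ¬ Ofl a u ↔ ∃ n, u = xx a n := by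
  rw [ofl_iff]; push Not; rfl

lemma ofl_add_xx (a : Par) (u : ℂ) (n : ℤ × ℤ) : Ofl a (u + xx a n) ↔ Ofl a u := by
  rw [← lat_xx]
  exact Pool.Agent.EllSch.off_add_lat n

lemma ofl_neg (a : Par) (u : ℂ) : Ofl a (-u) ↔ Ofl a u := Pool.Agent.EllSch.off_neg

lemma ofl_of_mul (a : Par) (N : ℕ) {z : ℂ} (h : Ofl a (N * z)) : Ofl a z := by
  rw [ofl_iff] at h ⊢
  rintro n rfl
  apply h ((N : ℤ) • n)
  rw [xx_smul]
  push_cast
  rfl

lemma mul_tp (a : Par) {N : ℕ} [NeZero N] (k : G N) :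
    (N : ℂ) * tp a k = xx a ((k.1.val : ℤ), (k.2.val : ℤ)) := by
  have hN : (N : ℂ) ≠ 0 := by exact_mod_cast NeZero.ne N
  simp only [tp, xx]
  push_cast
  field_simp

lemma tp_zero (a : Par) {N : ℕ} [NeZero N] : tp a (0 : G N) = 0 := by
  simp [tp]

lemma tp_off (a : Par) {N : ℕ} [NeZero N] {k : G N} (hk : k ≠ 0) : Ofl a (tp a k) := by
  rw [ofl_iff]
  intro n hn
  have h1 := mul_tp a k
  rw [hn] at h1
  have h2 : (N : ℂ) * xx a n = xx a ((N : ℤ) • n) := by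
    rw [xx_smul]; push_cast; rfl
  rw [h2] at h1
  have h3 := xx_inj a h1
  have h4 := (Prod.ext_iff.1 h3).1
  have h5 := (Prod.ext_iff.1 h3).2
  simp only [Prod.smul_fst, Prod.smul_snd, smul_eq_mul] at h4 h5
  apply hk
  have e1 : k.1 = 0 := by
    have : (N : ℤ) ∣ (k.1.val : ℤ) := ⟨n.1, h4.symm⟩
    have h6 : N ∣ k.1.val := by exact_mod_cast this
    have h7 := Nat.eq_zero_of_dvd_of_lt h6 (ZMod.val_lt k.1)
    exact (ZMod.val_eq_zero k.1).1 h7
  have e2 : k.2 = 0 := by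
    have : (N : ℤ) ∣ (k.2.val : ℤ) := ⟨n.2, h5.symm⟩
    have h6 : N ∣ k.2.val := by exact_mod_cast this
    have h7 := Nat.eq_zero_of_dvd_of_lt h6 (ZMod.val_lt k.2)
    exact (ZMod.val_eq_zero k.2).1 h7
  exact Prod.ext e1 e2

lemma val_add {N : ℕ} [NeZero N] (x y : ZMod N) :
    ∃ m : ℤ, ((x.val : ℤ) + (y.val : ℤ)) = ((x + y).val : ℤ) + N * m := by
  refine ⟨((x.val + y.val) / N : ℕ), ?_⟩
  rw [ZMod.val_add]
  have := Nat.mod_add_div (x.val + y.val) N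
  exact_mod_cast this.symm

lemma tp_add (a : Par) {N : ℕ} [NeZero N] (k l : G N) :
    ∃ n : ℤ × ℤ, tp a k + tp a l = tp a (k + l) + xx a n := by
  obtain ⟨m1, h1⟩ := val_add k.1 l.1
  obtain ⟨m2, h2⟩ := val_add k.2 l.2
  refine ⟨(m1, m2), ?_⟩
  have hN : (N : ℂ) ≠ 0 := by exact_mod_cast NeZero.ne N
  have h1' : ((k.1.val : ℂ) + (l.1.val : ℂ)) = ((k.1 + l.1).val : ℂ) + N * m1 := by
    exact_mod_cast h1
  have h2' : ((k.2.val : ℂ) + (l.2.val : ℂ)) = ((k.2 + l.2).val : ℂ) + N * m2 := by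
    exact_mod_cast h2
  simp only [tp, xx, Prod.fst_add, Prod.snd_add]
  field_simp
  linear_combination h1' + tau a * h2'

lemma tp_neg (a : Par) {N : ℕ} [NeZero N] (k : G N) :
    ∃ n : ℤ × ℤ, tp a (-k) = -tp a k + xx a n := by
  obtain ⟨n, hn⟩ := tp_add a k (-k)
  refine ⟨n, ?_⟩
  rw [add_neg_cancel, tp_zero] at hn
  linear_combination hn

theorem P_eq_iff (a : Par) {u v : ℂ} (hu : Ofl a u) (hv : Ofl a v) :
    P a u = P a v ↔ ¬ Ofl a (u + v) ∨ ¬ Ofl a (u - v) := by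
  constructor
  · intro h
    have o1 := Pool.Agent.EllSch.ode (ind a) hu
    have o2 := Pool.Agent.EllSch.ode (ind a) hv
    have h' : wp 1 (tau a) u = wp 1 (tau a) v := h
    rw [h', ← o2] at o1
    rcases sq_eq_sq_iff_eq_or_eq_neg.1 o1 with h1 | h1
    · right
      obtain ⟨x, hx⟩ := Pool.Agent.EllSch.exists_lat_of_eq (ind a) hu hv h' h1
      rw [not_ofl_iff]
      refine ⟨x, ?_⟩
      rw [← lat_xx]
      linear_combination hx
    · left
      obtain ⟨x, hx⟩ := Pool.Agent.EllSch.exists_lat_of_eq (ind a) hu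
        (Pool.Agent.EllSch.off_neg.2 hv) (by rw [Pool.Agent.EllSch.wp_neg (ind a)]; exact h')
        (by rw [Pool.Agent.EllSch.wq_neg (ind a)]; exact h1)
      rw [not_ofl_iff]
      refine ⟨x, ?_⟩
      rw [← lat_xx]
      linear_combination hx
  · rintro (h | h)
    · obtain ⟨n, hn⟩ := (not_ofl_iff _ _).1 h
      have e : u = -v + lat 1 (tau a) n := by rw [lat_xx]; linear_combination hn
      show wp 1 (tau a) u = wp 1 (tau a) v
      rw [e, Pool.Agent.EllSch.wp_add_lat (ind a), Pool.Agent.EllSch.wp_neg (ind a)]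
    · obtain ⟨n, hn⟩ := (not_ofl_iff _ _).1 h
      have e : u = v + lat 1 (tau a) n := by rw [lat_xx]; linear_combination hn
      show wp 1 (tau a) u = wp 1 (tau a) v
      rw [e, Pool.Agent.EllSch.wp_add_lat (ind a)]

/-- generic points as a predicate -/
def Gp (a : Par) (N : ℕ) (u v : ℂ) : Prop :=
  Ofl a (N * u) ∧ Ofl a (N * v) ∧ Ofl a (N * (u + v)) ∧ Ofl a (N * (u - v))

lemma ofl_add_tp (a : Par) {N : ℕ} [NeZero N] {z : ℂ} (h : Ofl a (N * z)) (s : G N) :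
    Ofl a (N * (z + tp a s)) := by
  rw [mul_add, mul_tp, ofl_add_xx]
  exact h

lemma ofl_sub_tp (a : Par) {N : ℕ} [NeZero N] {z : ℂ} (h : Ofl a (N * z)) (s : G N) :
    Ofl a (N * (z - tp a s)) := by
  rw [mul_sub, mul_tp, sub_eq_add_neg, ← xx_neg, ofl_add_xx]
  exact h

lemma Gp_add (a : Par) {N : ℕ} [NeZero N] {u v : ℂ} (h : Gp a N u v) (s t : G N) :
    Gp a N (u + tp a s) (v + tp a t) := by
  refine ⟨ofl_add_tp a h.1 s, ofl_add_tp a h.2.1 t, ?_, ?_⟩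
  · rw [show (N : ℂ) * (u + tp a s + (v + tp a t)) = (N * (u + v) + N * tp a s) + N * tp a t by
      ring, mul_tp, mul_tp, ofl_add_xx, ofl_add_xx]
    exact h.2.2.1
  · rw [show (N : ℂ) * (u + tp a s - (v + tp a t)) = (N * (u - v) + N * tp a s) + -(N * tp a t) by
      ring, mul_tp, mul_tp, ← xx_neg, ofl_add_xx, ofl_add_xx]
    exact h.2.2.2

/-- `℘(z) ≠ ℘(k)` -/
lemma P_ne_tp (a : Par) {N : ℕ} [NeZero N] {z : ℂ} (h : Ofl a (N * z)) {k : G N} (hk : k ≠ 0) :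
    P a z - P a (tp a k) ≠ 0 := by
  rw [sub_ne_zero, Ne, P_eq_iff a (ofl_of_mul a N h) (tp_off a hk)]
  push Not
  exact ⟨ofl_of_mul a N (ofl_add_tp a h k), ofl_of_mul a N (ofl_sub_tp a h k)⟩

lemma P_ne_P (a : Par) {N : ℕ} [NeZero N] {z w : ℂ} (h1 : Ofl a (N * z)) (h2 : Ofl a (N * w))
    (h3 : Ofl a (N * (z + w))) (h4 : Ofl a (N * (z - w))) : P a z - P a w ≠ 0 := by
  rw [sub_ne_zero, Ne, P_eq_iff a (ofl_of_mul a N h1) (ofl_of_mul a N h2)]
  push Not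
  exact ⟨ofl_of_mul a N h3, ofl_of_mul a N h4⟩

lemma tp_ne_tp (a : Par) {N : ℕ} [NeZero N] {k j : G N} (hk : k ≠ 0) (hj : j ≠ 0) (h1 : j ≠ k)
    (h2 : j ≠ -k) : P a (tp a k) - P a (tp a j) ≠ 0 := by
  rw [sub_ne_zero, Ne, P_eq_iff a (tp_off a hk) (tp_off a hj)]
  push Not
  constructor
  · obtain ⟨n, hn⟩ := tp_add a k j
    rw [hn, ofl_add_xx]
    apply tp_off
    intro h
    exact h2 (eq_neg_of_add_eq_zero_right h)
  · obtain ⟨n, hn⟩ := tp_neg a j
    obtain ⟨m, hm⟩ := tp_add a k (-j)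
    have e : tp a k - tp a j = tp a (k + -j) + xx a (m - n) := by
      rw [xx_sub]
      linear_combination hm - hn
    rw [e, ofl_add_xx]
    apply tp_off
    intro h
    exact h1 (eq_of_sub_eq_zero (by rw [sub_eq_add_neg]; exact h)).symm

theorem F_ne (a : Par) {N : ℕ} [NeZero N] {u v : ℂ} (h : Gp a N u v) {k : G N} (hk : k ≠ 0) :
    Ff a (tp a k) u v ≠ 0 :=
  div_ne_zero (P_ne_tp a (ofl_add_tp a h.1 k) hk) (P_ne_tp a (ofl_add_tp a h.2.1 k) hk)

theorem F_ne_one (a : Par) {N : ℕ} [NeZero N] {u v : ℂ} (h : Gp a N u v) {k : G N} (hk : k ≠ 0) :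
    Ff a (tp a k) u v ≠ 1 := by
  have h1 := P_ne_tp a (ofl_add_tp a h.2.1 k) hk
  rw [Ff, Ne, div_eq_one_iff_eq h1, sub_left_inj, ← sub_eq_zero]
  refine P_ne_P a (N := N) (ofl_add_tp a h.1 k) (ofl_add_tp a h.2.1 k) ?_ ?_
  · have e : (N : ℂ) * (u + tp a k + (v + tp a k)) = (N * (u + v) + N * tp a k) + N * tp a k := by
      ring
    rw [e, mul_tp, ofl_add_xx, ofl_add_xx]
    exact h.2.2.1
  · have e : (N : ℂ) * (u + tp a k - (v + tp a k)) = N * (u - v) := by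
      ring
    rw [e]
    exact h.2.2.2

theorem Y_ne (a : Par) {N : ℕ} [NeZero N] {z : ℂ} (h : Ofl a (N * z)) {k j : G N} (hk : k ≠ 0)
    (hj : j ≠ 0) (h1 : j ≠ k) (h2 : j ≠ -k) : Yf a (tp a k) (tp a j) z ≠ 0 :=
  div_ne_zero (P_ne_tp a h hj) (tp_ne_tp a hk hj h1 h2)

theorem Y_ne_one (a : Par) {N : ℕ} [NeZero N] {z : ℂ} (h : Ofl a (N * z)) {k j : G N} (hk : k ≠ 0)
    (hj : j ≠ 0) (h1 : j ≠ k) (h2 : j ≠ -k) : Yf a (tp a k) (tp a j) z ≠ 1 := by
  rw [Yf, Ne, div_eq_one_iff_eq (tp_ne_tp a hk hj h1 h2), sub_left_inj, ← sub_eq_zero]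
  exact P_ne_tp a h hk

theorem A_ne0 (a : Par) {N : ℕ} [NeZero N] {z : ℂ} (h : Ofl a (N * z)) {k : G N} (hk : k ≠ 0) :
    Af a k z ≠ 0 :=
  div_ne_zero (pow_ne_zero _ (P_ne_tp a h hk))
    (Finset.prod_ne_zero_iff.2 fun s _ => P_ne_tp a (ofl_add_tp a h s) hk)

theorem C_ne0 (a : Par) {N : ℕ} [NeZero N] {z : ℂ} (h : Ofl a (N * z)) : Cf a N z ≠ 0 :=
  Finset.prod_ne_zero_iff.2 fun _ he => P_ne_tp a h (Finset.ne_of_mem_erase he)

/-! ### periodicity -/

lemma P_per (a : Par) : Per a (P a) := by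
  intro u n
  rw [← lat_xx]
  exact Pool.Agent.EllSch.wp_add_lat (ind a) u n

lemma P_neg (a : Par) (u : ℂ) : P a (-u) = P a u := Pool.Agent.EllSch.wp_neg (ind a) u

/-- `f(u + x, v + y) = f(u, v)` for lattice points `x`, `y` -/
def Per2 (a : Par) {A : Type*} (f : ℂ → ℂ → A) : Prop :=
  ∀ (u v : ℂ) (m n : ℤ × ℤ), f (u + xx a m) (v + xx a n) = f u v

lemma F_per2 (a : Par) (h : ℂ) : Per2 a (fun u v => Ff a h u v) := by
  intro u v m n
  have e1 : u + xx a m + h = u + h + xx a m := by ring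
  have e2 : v + xx a n + h = v + h + xx a n := by ring
  simp only [Ff]
  rw [e1, e2, P_per a, P_per a]

lemma Y_per (a : Par) (x y : ℂ) : Per a (fun z => Yf a x y z) := by
  intro z n
  simp only [Yf]
  rw [P_per a]

lemma Af_per (a : Par) {N : ℕ} [NeZero N] (k : G N) : Per a (fun z => Af a k z) := by
  intro z n
  simp only [Af]
  rw [P_per a]
  congr 1
  refine Finset.prod_congr rfl fun s _ => ?_
  have e1 : z + xx a n + tp a s = z + tp a s + xx a n := by ring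
  rw [e1, P_per a]

lemma Cf_per (a : Par) (N : ℕ) [NeZero N] : Per a (fun z => Cf a N z) := by
  intro z n
  simp only [Cf]
  refine Finset.prod_congr rfl fun s _ => ?_
  rw [P_per a]

lemma per2_fst {a : Par} {A : Type*} {f : ℂ → A} (h : Per a f) : Per2 a (fun u _ => f u) :=
  fun u _ m _ => h u m

lemma per2_snd {a : Par} {A : Type*} {f : ℂ → A} (h : Per a f) : Per2 a (fun _ v => f v) :=
  fun _ v _ n => h v n

lemma per2_sub {a : Par} {A : Type*} {f : ℂ → A} (h : Per a f) : Per2 a (fun u v => f (u - v)) := by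
  intro u v m n
  have e : u + xx a m - (v + xx a n) = u - v + xx a (m - n) := by
    rw [xx_sub]; ring
  show f (u + xx a m - (v + xx a n)) = f (u - v)
  rw [e, h]

lemma wedge_per2 {a : Par} {f g : ℂ → ℂ → ℂ} (hf : Per2 a f) (hg : Per2 a g) :
    Per2 a (fun u v => wedge f g u v) := by
  have d1 : ∀ {f : ℂ → ℂ → ℂ}, Per2 a f → ∀ (u v : ℂ) (m n : ℤ × ℤ),
      deriv (fun w => f w (v + xx a n)) (u + xx a m) = deriv (fun w => f w v) u := by
    intro f hf u v m n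
    rw [← deriv_comp_add_const]
    congr 1
    funext w
    exact hf w v m n
  have d2 : ∀ {f : ℂ → ℂ → ℂ}, Per2 a f → ∀ (u v : ℂ) (m n : ℤ × ℤ),
      deriv (fun w => f (u + xx a m) w) (v + xx a n) = deriv (fun w => f u w) v := by
    intro f hf u v m n
    rw [← deriv_comp_add_const]
    congr 1
    funext w
    exact hf u w m n
  intro u v m n
  simp only [wedge]
  rw [d1 hf, d1 hg, d2 hf, d2 hg, hf, hg]

lemma term_per2 {a : Par} {F g h : ℂ → ℂ → ℂ} (hF : Per2 a F) (hg : Per2 a g) (hh : Per2 a h) :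
    Per2 a (fun u v => (EE7.BW (F u v) : ℂ) * wedge g h u v) := by
  intro u v m n
  have h1 := wedge_per2 hg hh u v m n
  simp only at h1 ⊢
  rw [h1, hF]

/-- the regulator form is doubly periodic -/
theorem Reg_per2 (a : Par) {N : ℕ} [NeZero N] (W : G N → G N → ℤ) :
    Per2 a (fun u v => Reg a W u v) := by
  intro u v m n
  simp only [Reg, xi]
  refine Finset.sum_congr rfl fun k _ => Finset.sum_congr rfl fun l _ => ?_
  congr 1
  congr 1
  · congr 1
    · congr 1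
      refine Finset.sum_congr rfl fun h _ => ?_
      exact term_per2 (F_per2 a (tp a h)) (per2_fst (Af_per a k)) (per2_snd (Af_per a l)) u v m n
    · refine Finset.sum_congr rfl fun j _ => ?_
      exact term_per2 (per2_fst (Y_per a (tp a k) (tp a j))) (per2_sub (Cf_per a N))
        (per2_snd (Af_per a l)) u v m n
  · refine Finset.sum_congr rfl fun j _ => ?_
    exact term_per2 (per2_snd (Y_per a (tp a l) (tp a j))) (per2_sub (Cf_per a N))
      (per2_fst (Af_per a k)) u v m n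

/-- the integral over `E × E` is the integral over the unit box in `ℝ⁴` -/
theorem int_cell (a : Par) {R : ℂ → ℂ → ℂ} (hR : Per2 a R)
    (hi : Integrable (fun q : E × E => R (cu a q.1) (cu a q.2))) :
    IntegrableOn (fun p : (ℝ × ℝ) × (ℝ × ℝ) =>
      R ((p.1.1 : ℂ) + (p.1.2 : ℂ) * tau a) ((p.2.1 : ℂ) + (p.2.2 : ℂ) * tau a))
      ((Set.Ioc (0:ℝ) 1 ×ˢ Set.Ioc (0:ℝ) 1) ×ˢ (Set.Ioc (0:ℝ) 1 ×ˢ Set.Ioc (0:ℝ) 1)) ∧
    ∫ q : E × E, R (cu a q.1) (cu a q.2) =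
      ∫ p in ((Set.Ioc (0:ℝ) 1 ×ˢ Set.Ioc (0:ℝ) 1) ×ˢ (Set.Ioc (0:ℝ) 1 ×ˢ Set.Ioc (0:ℝ) 1)),
        R ((p.1.1 : ℂ) + (p.1.2 : ℂ) * tau a) ((p.2.1 : ℂ) + (p.2.2 : ℂ) * tau a) := by
  let _ : UQO.Lt := ⟨tau a, tau_im_pos a⟩
  have h1 : ∀ v, UQO.Per (fun u => R u v) := by
    intro v u n
    have := hR u v n 0
    rw [xx_zero, add_zero] at this
    exact this
  have h2 : ∀ u, UQO.Per (R u) := by
    intro u v n
    have := hR u v 0 n
    rw [xx_zero, add_zero] at this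
    exact this
  exact UQO.int_box h1 h2 hi

end

end UNL.Gen
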