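import Pool.Agent.UNL.ACl0
import Pool.Agent.UNI.AForm

/-!
# UNL.ACls : the classes of the functions of the element

All from `P_sub_kl`, `P_sub_kl'`, `P_sub_kl''`, `P_sub_kl0` (AKl) and `co_kl`; the factors `Ex`
cancel: `Ex s x` depends only on the line and the translation, the Klein functions of each line
have total degree `0`, and for `1 - F`:
`Ex (s+t) (u+v) * Ex (s-t) (u-v) = Ex s u ^ 2 * Ex t v ^ 2` (additivity of `et`).
-/

open Complex

namespace UNL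

open UNI (fa fc0 fA fC fF fF1 fY fY1 sh)

/-! ### preliminaries -/

/-- equality at the generic points -/
private def Qe (a : Par) (N : ℕ) (f g : ℂ → ℂ → ℂ) : Prop :=
  ∀ q : Gn a N, f q.1.1 q.1.2 = g q.1.1 q.1.2

private theorem co_congr {a : Par} {N : ℕ} {R : Type*} [AddCommGroup R]
    (hat : Additive (Gn a N → ℂˣ) →+ R) {f g : ℂ → ℂ → ℂ}
    (h : Qe a N f g) : co hat f = co hat g := by
  have h1 : cl a N f = cl a N g := by
    unfold cl
    congr 1
    funext q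
    have := h q
    by_cases hf : f q.1.1 q.1.2 ≠ 0
    · have hg : g q.1.1 q.1.2 ≠ 0 := by rwa [← this]
      rw [dif_pos hf, dif_pos hg]
      exact Units.ext this
    · have hg : ¬ g q.1.1 q.1.2 ≠ 0 := by rwa [← this]
      rw [dif_neg hf, dif_neg hg]
  unfold co
  rw [h1]

private theorem xx_add (a : Par) (x y : ℤ × ℤ) : xx a (x + y) = xx a x + xx a y := by
  simp only [xx, Prod.fst_add, Prod.snd_add]
  push_cast
  ring

private theorem xx_neg (a : Par) (x : ℤ × ℤ) : xx a (-x) = -xx a x := by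
  simp only [xx, Prod.fst_neg, Prod.snd_neg]
  push_cast
  ring

private theorem xx_zero (a : Par) : xx a 0 = 0 := by
  simp [xx]

private theorem P_add_xx (a : Par) (z : ℂ) (x : ℤ × ℤ) : P a (z + xx a x) = P a z := by
  unfold P
  rw [← lat_xx]
  exact Pool.Agent.EllSch.wp_add_lat (indL a) z x

private theorem tn_add {a : Par} {z w : ℂ} {N : ℕ} (hz : Tn a N z) (hw : Tn a N w) :
    Tn a N (z + w) := by
  obtain ⟨x, hx⟩ := hz
  obtain ⟨y, hy⟩ := hw
  exact ⟨x + y, by rw [mul_add, hx, hy, xx_add]⟩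

private theorem tn_neg {a : Par} {z : ℂ} {N : ℕ} (hz : Tn a N z) : Tn a N (-z) := by
  obtain ⟨x, hx⟩ := hz
  exact ⟨-x, by rw [mul_neg, hx, xx_neg]⟩

private theorem tn_sub {a : Par} {z w : ℂ} {N : ℕ} (hz : Tn a N z) (hw : Tn a N w) :
    Tn a N (z - w) := by
  rw [sub_eq_add_neg]
  exact tn_add hz (tn_neg hw)

private theorem tn_zero {a : Par} {N : ℕ} : Tn a N 0 := ⟨0, by rw [mul_zero, xx_zero]⟩

private theorem Npos (N : ℕ) [NeZero N] : 0 < N := Nat.pos_of_ne_zero (NeZero.ne N)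

/-- congruence modulo `O` -/
private def Cg (a : Par) (z w : ℂ) : Prop := ∃ x, z = w + xx a x

section

variable {a : Par}

private theorem cg_refl (z : ℂ) : Cg a z z := ⟨0, by rw [xx_zero, add_zero]⟩

private theorem cg_add {z w z' w' : ℂ} (h : Cg a z w) (h' : Cg a z' w') :
    Cg a (z + z') (w + w') := by
  obtain ⟨x, hx⟩ := h
  obtain ⟨y, hy⟩ := h'
  exact ⟨x + y, by rw [hx, hy, xx_add]; ring⟩

private theorem cg_neg {z w : ℂ} (h : Cg a z w) : Cg a (-z) (-w) := by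
  obtain ⟨x, hx⟩ := h
  exact ⟨-x, by rw [hx, xx_neg]; ring⟩

private theorem cg_sub {z w z' w' : ℂ} (h : Cg a z w) (h' : Cg a z' w') :
    Cg a (z - z') (w - w') := by
  rw [sub_eq_add_neg, sub_eq_add_neg]
  exact cg_add h (cg_neg h')

private theorem cg_symm {z w : ℂ} (h : Cg a z w) : Cg a w z := by
  obtain ⟨x, hx⟩ := h
  exact ⟨-x, by rw [hx, xx_neg]; ring⟩

private theorem cg_trans {z w y : ℂ} (h : Cg a z w) (h' : Cg a w y) : Cg a z y := by
  obtain ⟨x, hx⟩ := h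
  obtain ⟨y, hy⟩ := h'
  exact ⟨x + y, by rw [hx, hy, xx_add]; ring⟩

private theorem cg_P {z w : ℂ} (h : Cg a z w) : P a z = P a w := by
  obtain ⟨x, hx⟩ := h
  rw [hx, P_add_xx]

private theorem ofl_cg {z w : ℂ} (h : Cg a z w) (hw : Ofl a w) : Ofl a z := by
  obtain ⟨x, hx⟩ := h
  rw [hx, ← lat_xx]
  exact Pool.Agent.EllSch.off_add_lat x |>.2 hw

private theorem ac_ofl_neg' {z : ℂ} (h : Ofl a z) : Ofl a (-z) :=
  (Pool.Agent.EllSch.off_neg).2 h

variable {N : ℕ}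

private theorem nz_congr {f g : ℂ → ℂ → ℂ}
    (h : Qe a N f g) (hg : Nz a N g) : Nz a N f := by
  intro q
  rw [h q]
  exact hg q

/-- the Klein factor is nowhere zero -/
private theorem nz_kl {φ : ℂ → ℂ → ℂ} (hφ : Ln a N φ) {k s : ℂ} (hk : Tn a N k) (hs : Tn a N s) :
    Nz a N (fun u v => kl a k (φ u v + s)) := by
  intro q
  apply kl_ne
  have := hφ q (k - s) (tn_sub hk hs)
  have e : φ q.1.1 q.1.2 + s - k = φ q.1.1 q.1.2 - (k - s) := by ring
  rw [e]
  exact this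

private theorem ac_nz_Ex (s : ℂ) (φ : ℂ → ℂ → ℂ) : Nz a N (fun u v => Ex a s (φ u v)) := by
  intro q
  exact exp_ne_zero _

private theorem nz_kl0 {k : ℂ} (hk : Ofl a k) : Nz a N (fun _ _ => kl a k 0) := by
  intro q
  apply kl_ne
  rw [zero_sub]
  exact ac_ofl_neg' hk

private theorem ac_nz_mul {f g : ℂ → ℂ → ℂ} (hf : Nz a N f) (hg : Nz a N g) :
    Nz a N (fun u v => f u v * g u v) := fun q => mul_ne_zero (hf q) (hg q)

private theorem nz_div {f g : ℂ → ℂ → ℂ} (hf : Nz a N f) (hg : Nz a N g) :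
    Nz a N (fun u v => f u v / g u v) := fun q => div_ne_zero (hf q) (hg q)

private theorem ac_nz_pow {f : ℂ → ℂ → ℂ} (hf : Nz a N f) (n : ℕ) :
    Nz a N (fun u v => f u v ^ n) := fun q => pow_ne_zero n (hf q)

private theorem ac_nz_prod {ι : Type*} (S : Finset ι) {f : ι → ℂ → ℂ → ℂ}
    (hf : ∀ i ∈ S, Nz a N (f i)) : Nz a N (fun u v => ∏ i ∈ S, f i u v) :=
  fun q => Finset.prod_ne_zero_iff.2 fun i hi => hf i hi q

/-- a line avoids the torsion points -/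
private theorem ofl_line {φ : ℂ → ℂ → ℂ} (hφ : Ln a N φ) {s : ℂ} (hs : Tn a N s) (q : Gn a N) :
    Ofl a (φ q.1.1 q.1.2 + s) := by
  have := hφ q (-s) (tn_neg hs)
  rwa [sub_neg_eq_add] at this

end

section

variable {a : Par} {N : ℕ} [NeZero N]

private theorem cg_tp_add (k l : G N) : Cg a (tp a k + tp a l) (tp a (k + l)) :=
  cg_symm (tp_add a (Npos N) k l)

private theorem cg_tp_neg (k : G N) : Cg a (-tp a k) (tp a (-k)) :=
  cg_symm (tp_neg a (Npos N) k)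

private theorem cg_tp_sub (k l : G N) : Cg a (tp a k - tp a l) (tp a (k - l)) := by
  rw [sub_eq_add_neg, sub_eq_add_neg]
  exact cg_trans (cg_add (cg_refl _) (cg_tp_neg l)) (cg_tp_add k (-l))

omit [NeZero N] in
private theorem tp_zero : tp a (0 : G N) = 0 := by simp [tp]

private theorem cg_neg2 (h : G N) : Cg a (-(2 * tp a h)) (tp a (-(h + h))) := by
  rw [two_mul]
  exact cg_trans (cg_neg (cg_tp_add h h)) (cg_tp_neg _)

private theorem tnt (k : G N) : Tn a N (tp a k) := tn_tp a (Npos N) k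

private theorem tn2 (h : G N) : Tn a N (-(2 * tp a h)) := by
  rw [two_mul]
  exact tn_neg (tn_add (tnt h) (tnt h))

end

section

variable {a : Par} {N : ℕ} [NeZero N] {R : Type*} [Ring R] [Algebra ℚ R]

omit [NeZero N] [Algebra ℚ R] in
private theorem co_sq (hat : Additive (Gn a N → ℂˣ) →+ R) {f : ℂ → ℂ → ℂ} (hf : Nz a N f) :
    co hat (fun u v => f u v ^ 2) = 2 * co hat f := by
  rw [co_pow hat hf 2, nsmul_eq_mul]
  norm_num

/-- `℘(φ + s + h) - ℘(h)` as a product -/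
private theorem P1_eq {φ : ℂ → ℂ → ℂ} (hφ : Ln a N φ) (s : G N) {h : G N} (hh : h ≠ 0) :
    Qe a N (fun u v => P a (φ u v + tp a s + tp a h) - P a (tp a h))
      (fun u v => kl a (-(2 * tp a h)) (φ u v + tp a s) * kl a 0 (φ u v + tp a s) /
        (kl a (-tp a h) (φ u v + tp a s) ^ 2 * (kl a (tp a h) 0 * kl a (-tp a h) 0))) := by
  intro q
  refine P_sub_kl' a (ofl_tp a (Npos N) hh) ?_
  rw [add_assoc]
  exact ofl_line hφ (tn_add (tnt s) (tnt h)) q

private theorem P1_nz {φ : ℂ → ℂ → ℂ} (hφ : Ln a N φ) (s : G N) {h : G N} (hh : h ≠ 0) :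
    Nz a N (fun u v => P a (φ u v + tp a s + tp a h) - P a (tp a h)) := by
  have ho := ofl_tp a (Npos N) hh
  refine nz_congr (P1_eq hφ s hh) ?_
  exact nz_div (ac_nz_mul (nz_kl hφ (tn2 h) (tnt s)) (nz_kl hφ tn_zero (tnt s)))
    (ac_nz_mul (ac_nz_pow (nz_kl hφ (tn_neg (tnt h)) (tnt s)) 2)
      (ac_nz_mul (nz_kl0 ho) (nz_kl0 (ac_ofl_neg' ho))))

private theorem P1_co (hat : Additive (Gn a N → ℂˣ) →+ R) {φ : ℂ → ℂ → ℂ} (hφ : Ln a N φ)
    (s : G N) {h : G N} (hh : h ≠ 0) :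
    co hat (fun u v => P a (φ u v + tp a s + tp a h) - P a (tp a h)) =
      Lx hat φ (-(h + h) - s) + Lx hat φ (0 - s) - 2 * Lx hat φ (-h - s) - 2 * gc hat h := by
  have ho := ofl_tp a (Npos N) hh
  rw [co_congr hat (P1_eq hφ s hh)]
  have n1 := nz_kl hφ (tn2 h) (tnt s)
  have n2 := nz_kl hφ (tn_zero (a := a) (N := N)) (tnt s)
  have n3 := nz_kl hφ (tn_neg (tnt h)) (tnt s)
  have n4 : Nz a N (fun _ _ => kl a (tp a h) 0) := nz_kl0 ho
  have n5 : Nz a N (fun _ _ => kl a (-tp a h) 0) := nz_kl0 (ac_ofl_neg' ho)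
  rw [co_div hat (ac_nz_mul n1 n2) (ac_nz_mul (ac_nz_pow n3 2) (ac_nz_mul n4 n5)), co_mul hat n1 n2,
    co_mul hat (ac_nz_pow n3 2) (ac_nz_mul n4 n5), co_mul hat n4 n5, co_sq hat n3,
    co_kl hat (Npos N) hφ (tnt s) (j := -(h + h) - s)
      (cg_trans (cg_sub (cg_neg2 h) (cg_refl _)) (cg_tp_sub _ _)),
    co_kl hat (Npos N) hφ (tnt s) (j := 0 - s)
      (cg_trans (cg_sub (by rw [tp_zero]; exact cg_refl _) (cg_refl _)) (cg_tp_sub _ _)),
    co_kl hat (Npos N) hφ (tnt s) (j := -h - s)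
      (cg_trans (cg_sub (cg_tp_neg h) (cg_refl _)) (cg_tp_sub _ _)),
    co_kl0 hat (Npos N) hh (cg_refl _), co_kl0 hat (Npos N) (neg_ne_zero.2 hh) (cg_tp_neg h),
    gc_neg hat (Npos N)]
  simp only [two_mul]
  abel

/-- `℘(φ + s) - ℘(k)` as a product -/
private theorem P2_eq {φ : ℂ → ℂ → ℂ} (hφ : Ln a N φ) (s : G N) {k : G N} (hk : k ≠ 0) :
    Qe a N (fun u v => P a (φ u v + tp a s) - P a (tp a k))
      (fun u v => kl a (tp a k) (φ u v + tp a s) * kl a (-tp a k) (φ u v + tp a s) /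
        (kl a 0 (φ u v + tp a s) ^ 2 * (kl a (tp a k) 0 * kl a (-tp a k) 0))) :=
  fun q => P_sub_kl'' a (ofl_tp a (Npos N) hk) (ofl_line hφ (tnt s) q)

private theorem P2_nz {φ : ℂ → ℂ → ℂ} (hφ : Ln a N φ) (s : G N) {k : G N} (hk : k ≠ 0) :
    Nz a N (fun u v => P a (φ u v + tp a s) - P a (tp a k)) := by
  have ho := ofl_tp a (Npos N) hk
  refine nz_congr (P2_eq hφ s hk) ?_
  exact nz_div (ac_nz_mul (nz_kl hφ (tnt k) (tnt s)) (nz_kl hφ (tn_neg (tnt k)) (tnt s)))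
    (ac_nz_mul (ac_nz_pow (nz_kl hφ tn_zero (tnt s)) 2)
      (ac_nz_mul (nz_kl0 ho) (nz_kl0 (ac_ofl_neg' ho))))

private theorem P2_co (hat : Additive (Gn a N → ℂˣ) →+ R) {φ : ℂ → ℂ → ℂ} (hφ : Ln a N φ)
    (s : G N) {k : G N} (hk : k ≠ 0) :
    co hat (fun u v => P a (φ u v + tp a s) - P a (tp a k)) =
      fa (sh (Lx hat φ) s) (gc hat) k := by
  have ho := ofl_tp a (Npos N) hk
  rw [co_congr hat (P2_eq hφ s hk)]
  have n1 := nz_kl hφ (tnt k) (tnt s)
  have n2 := nz_kl hφ (tn_zero (a := a) (N := N)) (tnt s)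
  have n3 := nz_kl hφ (tn_neg (tnt k)) (tnt s)
  have n4 : Nz a N (fun _ _ => kl a (tp a k) 0) := nz_kl0 ho
  have n5 : Nz a N (fun _ _ => kl a (-tp a k) 0) := nz_kl0 (ac_ofl_neg' ho)
  rw [co_div hat (ac_nz_mul n1 n3) (ac_nz_mul (ac_nz_pow n2 2) (ac_nz_mul n4 n5)), co_mul hat n1 n3,
    co_mul hat (ac_nz_pow n2 2) (ac_nz_mul n4 n5), co_mul hat n4 n5, co_sq hat n2,
    co_kl hat (Npos N) hφ (tnt s) (j := k - s) (cg_tp_sub _ _),
    co_kl hat (Npos N) hφ (tnt s) (k := 0) (j := 0 - s)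
      (cg_trans (cg_sub (by rw [tp_zero]; exact cg_refl _) (cg_refl _)) (cg_tp_sub _ _)),
    co_kl hat (Npos N) hφ (tnt s) (j := -k - s)
      (cg_trans (cg_sub (cg_tp_neg k) (cg_refl _)) (cg_tp_sub _ _)),
    co_kl0 hat (Npos N) hk (cg_refl _), co_kl0 hat (Npos N) (neg_ne_zero.2 hk) (cg_tp_neg k),
    gc_neg hat (Npos N)]
  simp only [two_mul, fa, sh]
  abel

/-- `℘(k) - ℘(j)` as a product -/
private theorem P3_nz {k j : G N} (hk : k ≠ 0) (hj : j ≠ 0) (h1 : j ≠ k) (h2 : j ≠ -k) :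
    P a (tp a k) - P a (tp a j) ≠ 0 := by
  have ok := ofl_tp a (Npos N) hk
  have oj := ofl_tp a (Npos N) hj
  have e1 : k - j ≠ 0 := fun h => h1 (sub_eq_zero.1 h).symm
  have e2 : k + j ≠ 0 := fun h => h2 (eq_neg_of_add_eq_zero_right h)
  have o1 : Ofl a (tp a k - tp a j) := ofl_cg (cg_tp_sub k j) (ofl_tp a (Npos N) e1)
  have o2 : Ofl a (-(tp a k + tp a j)) :=
    ac_ofl_neg' (ofl_cg (cg_tp_add k j) (ofl_tp a (Npos N) e2))
  have nz : ∀ z : ℂ, Ofl a z → kl a z 0 ≠ 0 := fun z hz =>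
    kl_ne a (by rw [zero_sub]; exact ac_ofl_neg' hz)
  rw [P_sub_kl0 a ok oj]
  exact div_ne_zero (mul_ne_zero (nz _ o1) (nz _ o2))
    (mul_ne_zero (mul_ne_zero (nz _ ok) (nz _ (ac_ofl_neg' ok)))
      (mul_ne_zero (nz _ oj) (nz _ (ac_ofl_neg' oj))))

private theorem P3_co (hat : Additive (Gn a N → ℂˣ) →+ R) {k j : G N} (hk : k ≠ 0) (hj : j ≠ 0)
    (h1 : j ≠ k) (h2 : j ≠ -k) :
    co hat (fun _ _ => P a (tp a k) - P a (tp a j)) = fc0 (gc hat) k j := by
  have ok := ofl_tp a (Npos N) hk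
  have oj := ofl_tp a (Npos N) hj
  have e1 : k - j ≠ 0 := fun h => h1 (sub_eq_zero.1 h).symm
  have e2 : k + j ≠ 0 := fun h => h2 (eq_neg_of_add_eq_zero_right h)
  have o1 : Ofl a (tp a k - tp a j) := ofl_cg (cg_tp_sub k j) (ofl_tp a (Npos N) e1)
  have o2 : Ofl a (-(tp a k + tp a j)) :=
    ac_ofl_neg' (ofl_cg (cg_tp_add k j) (ofl_tp a (Npos N) e2))
  have m1 : Nz a N (fun _ _ => kl a (tp a k - tp a j) 0) := nz_kl0 o1
  have m2 : Nz a N (fun _ _ => kl a (-(tp a k + tp a j)) 0) := nz_kl0 o2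
  have m3 : Nz a N (fun _ _ => kl a (tp a k) 0) := nz_kl0 ok
  have m4 : Nz a N (fun _ _ => kl a (-tp a k) 0) := nz_kl0 (ac_ofl_neg' ok)
  have m5 : Nz a N (fun _ _ => kl a (tp a j) 0) := nz_kl0 oj
  have m6 : Nz a N (fun _ _ => kl a (-tp a j) 0) := nz_kl0 (ac_ofl_neg' oj)
  rw [co_congr hat (f := fun _ _ => P a (tp a k) - P a (tp a j))
      (g := fun _ _ => kl a (tp a k - tp a j) 0 * kl a (-(tp a k + tp a j)) 0 /
        (kl a (tp a k) 0 * kl a (-tp a k) 0 * (kl a (tp a j) 0 * kl a (-tp a j) 0)))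
      (fun _ => P_sub_kl0 a ok oj),
    co_div hat (ac_nz_mul m1 m2) (ac_nz_mul (ac_nz_mul m3 m4) (ac_nz_mul m5 m6)), co_mul hat m1 m2,
    co_mul hat (ac_nz_mul m3 m4) (ac_nz_mul m5 m6), co_mul hat m3 m4, co_mul hat m5 m6,
    co_kl0 hat (Npos N) e1 (cg_tp_sub k j),
    co_kl0 hat (Npos N) (neg_ne_zero.2 e2)
      (cg_trans (cg_neg (cg_tp_add k j)) (cg_tp_neg (k + j))),
    co_kl0 hat (Npos N) hk (cg_refl _), co_kl0 hat (Npos N) (neg_ne_zero.2 hk) (cg_tp_neg k),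
    co_kl0 hat (Npos N) hj (cg_refl _), co_kl0 hat (Npos N) (neg_ne_zero.2 hj) (cg_tp_neg j),
    gc_neg hat (Npos N), gc_neg hat (Npos N), gc_neg hat (Npos N)]
  simp only [two_mul, fc0]
  abel

omit [NeZero N] in
private theorem co_neg (hat : Additive (Gn a N → ℂˣ) →+ R) {f : ℂ → ℂ → ℂ} (hf : Nz a N f) :
    co hat (fun u v => -f u v) = co hat f := by
  have h1 : Nz a N (fun _ _ => (-1 : ℂ)) := fun _ => neg_ne_zero.2 one_ne_zero
  rw [co_congr hat (f := fun u v => -f u v) (g := fun u v => -1 * f u v)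
      (fun q => (neg_one_mul _).symm), co_mul hat h1 hf,
    co_ru hat (e := -1) ⟨2, two_pos, by norm_num⟩, zero_add]

/-! ### the general form on one line -/

private theorem A_co (hat : Additive (Gn a N → ℂˣ) →+ R) {φ : ℂ → ℂ → ℂ} (hφ : Ln a N φ)
    (s : G N) {k : G N} (hk : k ≠ 0) :
    co hat (fun u v => Af a k (φ u v + tp a s)) = fA (sh (Lx hat φ) s) k := by
  have e1 : Qe a N (fun u v => Af a k (φ u v + tp a s))
      (fun u v => (P a (φ u v + tp a s) - P a (tp a k)) ^ (N ^ 2) /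
        ∏ s' : G N, (P a (φ u v + tp a (s + s')) - P a (tp a k))) := by
    intro q
    show Af a k (φ q.1.1 q.1.2 + tp a s) =
      (P a (φ q.1.1 q.1.2 + tp a s) - P a (tp a k)) ^ (N ^ 2) /
        ∏ s' : G N, (P a (φ q.1.1 q.1.2 + tp a (s + s')) - P a (tp a k))
    unfold Af
    congr 1
    refine Finset.prod_congr rfl fun s' _ => ?_
    congr 1
    refine cg_P ?_
    rw [add_assoc]
    exact cg_add (cg_refl _) (cg_tp_add s s')
  rw [co_congr hat e1, co_div hat (ac_nz_pow (P2_nz hφ s hk) (N ^ 2))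
      (ac_nz_prod _ fun s' _ => P2_nz hφ (s + s') hk), co_pow hat (P2_nz hφ s hk) (N ^ 2),
    co_prod hat _ (f := fun (s' : G N) (u v : ℂ) => P a (φ u v + tp a (s + s')) - P a (tp a k))
      (fun s' _ => P2_nz hφ (s + s') hk)]
  simp only [P2_co hat hφ _ hk, fa, fA, sh]
  have T : ∀ c : G N, ∑ s' : G N, Lx hat φ (c - (s + s')) = ∑ j : G N, Lx hat φ j := by
    intro c
    rw [← Equiv.sum_comp (Equiv.subLeft (c - s)) (Lx hat φ)]
    refine Finset.sum_congr rfl fun s' _ => ?_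
    rw [Equiv.subLeft_apply, sub_sub]
  have hc : Fintype.card (G N) = N ^ 2 := by
    rw [Fintype.card_prod, ZMod.card, sq]
  simp only [Finset.sum_sub_distrib, Finset.sum_add_distrib, ← Finset.mul_sum, T,
    Finset.sum_const, Finset.card_univ, hc, nsmul_eq_mul]
  push_cast
  noncomm_ring

private theorem Y_co (hat : Additive (Gn a N → ℂˣ) →+ R) {φ : ℂ → ℂ → ℂ} (hφ : Ln a N φ)
    (s : G N) {k j : G N} (hk : k ≠ 0) (hj : j ≠ 0) (h1 : j ≠ k) (h2 : j ≠ -k) :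
    co hat (fun u v => Yf a (tp a k) (tp a j) (φ u v + tp a s)) =
      fY (sh (Lx hat φ) s) (gc hat) k j := by
  have n1 : Nz a N (fun _ _ => P a (tp a k) - P a (tp a j)) := fun _ => P3_nz hk hj h1 h2
  unfold Yf fY
  rw [co_div hat (P2_nz hφ s hj) n1, P2_co hat hφ s hj, P3_co hat hk hj h1 h2]

private theorem Y1_co (hat : Additive (Gn a N → ℂˣ) →+ R) {φ : ℂ → ℂ → ℂ} (hφ : Ln a N φ)
    (s : G N) {k j : G N} (hk : k ≠ 0) (hj : j ≠ 0) (h1 : j ≠ k) (h2 : j ≠ -k) :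
    co hat (fun u v => 1 - Yf a (tp a k) (tp a j) (φ u v + tp a s)) =
      fY1 (sh (Lx hat φ) s) (gc hat) k j := by
  have n0 := P3_nz (a := a) hk hj h1 h2
  have n1 : Nz a N (fun _ _ => P a (tp a k) - P a (tp a j)) := fun _ => n0
  have e : Qe a N (fun u v => 1 - Yf a (tp a k) (tp a j) (φ u v + tp a s))
      (fun u v => -((P a (φ u v + tp a s) - P a (tp a k)) /
        (P a (tp a k) - P a (tp a j)))) := by
    intro q
    unfold Yf
    field_simp
    ring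
  unfold fY1
  rw [co_congr hat e, co_neg hat (nz_div (P2_nz hφ s hk) n1), co_div hat (P2_nz hφ s hk) n1,
    P2_co hat hφ s hk, P3_co hat hk hj h1 h2]

end

variable {a : Par} {N : ℕ} [NeZero N] {R : Type*} [Ring R] [Algebra ℚ R]

theorem cls_F (hat : Additive (Gn a N → ℂˣ) →+ R) (s t : G N) {h : G N} (hh : h ≠ 0) :
    co hat (tr a s t (fun u v => Ff a (tp a h) u v)) =
      fF (sh (Lx hat (fun u _ => u)) s) (sh (Lx hat (fun _ v => v)) t) h := by
  have hu := ln_u a (Npos N)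
  have hv := ln_v a (Npos N)
  have e : co hat (tr a s t (fun u v => Ff a (tp a h) u v)) =
      co hat (fun u v => (P a (u + tp a s + tp a h) - P a (tp a h)) /
        (P a (v + tp a t + tp a h) - P a (tp a h))) := rfl
  rw [e, co_div hat (P1_nz hu s hh) (P1_nz hv t hh), P1_co hat hu s hh, P1_co hat hv t hh]
  simp only [two_mul, fF, sh]
  abel

theorem cls_F1 (hat : Additive (Gn a N → ℂˣ) →+ R) (s t : G N) {h : G N} (hh : h ≠ 0) :
    co hat (tr a s t (fun u v => 1 - Ff a (tp a h) u v)) =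
      fF1 (sh (Lx hat (fun u _ => u)) s) (sh (Lx hat (fun _ v => v)) t)
        (sh (Lx hat (fun u v => u - v)) (s - t)) (sh (Lx hat (fun u v => u + v)) (s + t))
        (gc hat) h := by
  have hu := ln_u a (Npos N)
  have hv := ln_v a (Npos N)
  have hw := ln_w a (Npos N)
  have hz := ln_z a (Npos N)
  have nv : Nz a N (fun _ v => P a (v + tp a t + tp a h) - P a (tp a h)) := P1_nz hv t hh
  have tst : Tn a N (tp a s + tp a t) := tn_add (tnt s) (tnt t)
  have tsd : Tn a N (tp a s - tp a t) := tn_sub (tnt s) (tnt t)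
  have e : Qe a N (tr a s t (fun u v => 1 - Ff a (tp a h) u v))
      (fun u v => (kl a (-(2 * tp a h)) (u + v + (tp a s + tp a t)) *
        kl a 0 (u - v + (tp a s - tp a t)) /
        (kl a (-tp a h) (u + tp a s) ^ 2 * kl a (-tp a h) (v + tp a t) ^ 2)) /
        (P a (v + tp a t + tp a h) - P a (tp a h))) := by
    intro q
    have o1 : Ofl a (q.1.1 + tp a s + tp a h) := by
      rw [add_assoc]
      exact ofl_line hu (tn_add (tnt s) (tnt h)) q
    have o2 : Ofl a (q.1.2 + tp a t + tp a h) := by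
      rw [add_assoc]
      exact ofl_line hv (tn_add (tnt t) (tnt h)) q
    have n := nv q
    have k1 := P_sub_kl a o1 o2
    have k2 : q.1.1 + tp a s + (q.1.2 + tp a t) = q.1.1 + q.1.2 + (tp a s + tp a t) := by ring
    have k3 : q.1.1 + tp a s - (q.1.2 + tp a t) = q.1.1 - q.1.2 + (tp a s - tp a t) := by ring
    rw [k2, k3] at k1
    show 1 - Ff a (tp a h) (q.1.1 + tp a s) (q.1.2 + tp a t) = _
    simp only []
    rw [← k1]
    unfold Ff
    rw [eq_div_iff n, sub_mul, one_mul, div_mul_cancel₀ _ n]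
    ring
  have n1 : Nz a N (fun u v => kl a (-(2 * tp a h)) (u + v + (tp a s + tp a t))) :=
    nz_kl hz (tn2 h) tst
  have n2 : Nz a N (fun u v => kl a 0 (u - v + (tp a s - tp a t))) :=
    nz_kl hw tn_zero tsd
  have n3 : Nz a N (fun u _ => kl a (-tp a h) (u + tp a s)) := nz_kl hu (tn_neg (tnt h)) (tnt s)
  have n4 : Nz a N (fun _ v => kl a (-tp a h) (v + tp a t)) := nz_kl hv (tn_neg (tnt h)) (tnt t)
  have x1 : Nz a N (fun u v => Ex a (tp a s + tp a t) (u + v)) := ac_nz_Ex _ _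
  have x2 : Nz a N (fun u v => Ex a (tp a s - tp a t) (u - v)) := ac_nz_Ex _ _
  have x3 : Nz a N (fun u _ => Ex a (tp a s) u) := ac_nz_Ex _ _
  have x4 : Nz a N (fun _ v => Ex a (tp a t) v) := ac_nz_Ex _ _
  have hE : co hat (fun u v => Ex a (tp a s + tp a t) (u + v)) +
      co hat (fun u v => Ex a (tp a s - tp a t) (u - v)) =
      2 * co hat (fun u _ => Ex a (tp a s) u) + 2 * co hat (fun _ v => Ex a (tp a t) v) := by
    rw [← co_mul hat x1 x2, ← co_sq hat x3, ← co_sq hat x4, ← co_mul hat (ac_nz_pow x3 2) (ac_nz_pow x4 2)]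
    refine co_congr hat fun q => ?_
    simp only [Ex]
    rw [← exp_add, ← exp_nat_mul, ← exp_nat_mul, ← exp_add]
    congr 1
    have a1 : et a (tp a s - tp a t) = et a (tp a s) - et a (tp a t) := by
      rw [eq_sub_iff_add_eq, ← et_add, sub_add_cancel]
    rw [a1, et_add]
    push_cast
    ring
  rw [co_congr hat e, co_div hat (nz_div (ac_nz_mul n1 n2) (ac_nz_mul (ac_nz_pow n3 2) (ac_nz_pow n4 2))) nv,
    co_div hat (ac_nz_mul n1 n2) (ac_nz_mul (ac_nz_pow n3 2) (ac_nz_pow n4 2)), co_mul hat n1 n2,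
    co_mul hat (ac_nz_pow n3 2) (ac_nz_pow n4 2), co_sq hat n3, co_sq hat n4, P1_co hat hv t hh,
    co_kl hat (Npos N) hz tst (j := -(h + h) - (s + t))
      (cg_trans (cg_sub (cg_neg2 h) (cg_tp_add s t)) (cg_tp_sub _ _)),
    co_kl hat (Npos N) hw tsd (j := 0 - (s - t))
      (cg_trans (cg_sub (by rw [tp_zero]; exact cg_refl _) (cg_tp_sub s t)) (cg_tp_sub _ _)),
    co_kl hat (Npos N) hu (tnt s) (j := -h - s)
      (cg_trans (cg_sub (cg_tp_neg h) (cg_refl _)) (cg_tp_sub _ _)),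
    co_kl hat (Npos N) hv (tnt t) (j := -h - t)
      (cg_trans (cg_sub (cg_tp_neg h) (cg_refl _)) (cg_tp_sub _ _))]
  have hE' := sub_eq_zero.2 hE
  simp only [fF1, sh]
  rw [← sub_eq_zero, ← hE']
  simp only [two_mul]
  abel

theorem cls_Au (hat : Additive (Gn a N → ℂˣ) →+ R) (s t : G N) {k : G N} (hk : k ≠ 0) :
    co hat (tr a s t (fun u _ => Af a k u)) = fA (sh (Lx hat (fun u _ => u)) s) k :=
  A_co hat (ln_u a (Npos N)) s hk

theorem cls_Av (hat : Additive (Gn a N → ℂˣ) →+ R) (s t : G N) {k : G N} (hk : k ≠ 0) :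
    co hat (tr a s t (fun _ v => Af a k v)) = fA (sh (Lx hat (fun _ v => v)) t) k :=
  A_co hat (ln_v a (Npos N)) t hk

theorem cls_C (hat : Additive (Gn a N → ℂˣ) →+ R) (s t : G N) :
    co hat (tr a s t (fun u v => Cf a N (u - v))) =
      fC (sh (Lx hat (fun u v => u - v)) (s - t)) (gc hat) := by
  have hw := ln_w a (Npos N)
  have e : Qe a N (tr a s t (fun u v => Cf a N (u - v)))
      (fun u v => ∏ e ∈ (Finset.univ : Finset (G N)).erase 0,
        (P a (u - v + tp a (s - t)) - P a (tp a e))) := by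
    intro q
    show ∏ e ∈ (Finset.univ : Finset (G N)).erase 0,
        (P a (q.1.1 + tp a s - (q.1.2 + tp a t)) - P a (tp a e)) =
      ∏ e ∈ (Finset.univ : Finset (G N)).erase 0,
        (P a (q.1.1 - q.1.2 + tp a (s - t)) - P a (tp a e))
    refine Finset.prod_congr rfl fun e _ => ?_
    congr 1
    refine cg_P ?_
    have k3 : q.1.1 + tp a s - (q.1.2 + tp a t) = q.1.1 - q.1.2 + (tp a s - tp a t) := by ring
    rw [k3]
    exact cg_add (cg_refl _) (cg_tp_sub s t)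
  have ne : ∀ e ∈ (Finset.univ : Finset (G N)).erase 0, e ≠ 0 := fun e he =>
    Finset.ne_of_mem_erase he
  rw [co_congr hat e, co_prod hat _
    (f := fun (e : G N) (u v : ℂ) => P a (u - v + tp a (s - t)) - P a (tp a e))
    (fun e he => P2_nz hw (s - t) (ne e he))]
  unfold fC
  rw [← Finset.add_sum_erase Finset.univ _ (Finset.mem_univ (0 : G N))]
  have h0 : fa (sh (Lx hat (fun u v => u - v)) (s - t)) (gc hat) (0 : G N) = 0 := by
    simp only [fa, neg_zero, gc, if_true, mul_zero, two_mul]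
    abel
  rw [h0, zero_add]
  exact Finset.sum_congr rfl fun e he => P2_co hat hw (s - t) (ne e he)

theorem cls_Yu (hat : Additive (Gn a N → ℂˣ) →+ R) (s t : G N) {k j : G N} (hk : k ≠ 0)
    (hj : j ≠ 0) (h1 : j ≠ k) (h2 : j ≠ -k) :
    co hat (tr a s t (fun u _ => Yf a (tp a k) (tp a j) u)) =
      fY (sh (Lx hat (fun u _ => u)) s) (gc hat) k j :=
  Y_co hat (ln_u a (Npos N)) s hk hj h1 h2

theorem cls_Yv (hat : Additive (Gn a N → ℂˣ) →+ R) (s t : G N) {k j : G N} (hk : k ≠ 0)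
    (hj : j ≠ 0) (h1 : j ≠ k) (h2 : j ≠ -k) :
    co hat (tr a s t (fun _ v => Yf a (tp a k) (tp a j) v)) =
      fY (sh (Lx hat (fun _ v => v)) t) (gc hat) k j :=
  Y_co hat (ln_v a (Npos N)) t hk hj h1 h2

theorem cls_Y1u (hat : Additive (Gn a N → ℂˣ) →+ R) (s t : G N) {k j : G N} (hk : k ≠ 0)
    (hj : j ≠ 0) (h1 : j ≠ k) (h2 : j ≠ -k) :
    co hat (tr a s t (fun u _ => 1 - Yf a (tp a k) (tp a j) u)) =
      fY1 (sh (Lx hat (fun u _ => u)) s) (gc hat) k j :=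
  Y1_co hat (ln_u a (Npos N)) s hk hj h1 h2

theorem cls_Y1v (hat : Additive (Gn a N → ℂˣ) →+ R) (s t : G N) {k j : G N} (hk : k ≠ 0)
    (hj : j ≠ 0) (h1 : j ≠ k) (h2 : j ≠ -k) :
    co hat (tr a s t (fun _ v => 1 - Yf a (tp a k) (tp a j) v)) =
      fY1 (sh (Lx hat (fun _ v => v)) t) (gc hat) k j :=
  Y1_co hat (ln_v a (Npos N)) t hk hj h1 h2

end UNL
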