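import Pool.Agent.UNL.AKl

/-!
# UNL.ADist : the CM distribution relation for Klein values

`d = d.1 + d.2 α ∈ O`, `d d' = N`. For `Θ(z) = ∏_{k ∈ G, d k = 0} kl (tp k) z / σ(d z)`:
off the lattice points of `ker d`, `Θ'/Θ (z) = Σ (et (tp k) + ζ(z - tp k)) - d ζ(d z)` extends to an
entire function, it is odd (`k ↦ -k`, `et (tp k) + ζ (z - tp k)` depends only on `k`), and
`(Θ'/Θ)(z + λ) - (Θ'/Θ)(z) = #ker · et λ - d et(d λ)`, so its derivative is constant
(`EllSch.const_of_periodic`) and `Θ'/Θ = B z` with `B λ = #ker · et λ - d et(d λ)` for all `λ ∈ O`,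
hence (`ℝ`-linearity) for all `λ ∈ ℂ`. So `Θ(z) = C exp (B z² / 2)`. Insert `z = tp m`:
`kl (tp k) (tp m) = (root of unity) * exp (et m * m / 2) * kl (tp (k - m)) 0` (`kl_shift`, `kl_per`,
with `z = 0`) and `σ(d m) = (root of unity) * exp (et (d m) (d m) / 2) * kl (tp (-d m)) 0`;
the exponents cancel. For `m = 0` divide by `z` first (`σ(z) / σ(d z) → 1 / d`).
(One may avoid `Θ'/Θ` at poles: `Θ` extended by continuity is entire without zeros; or compare
`∏ kl (tp k) z` and `σ(d z)` through `EllSch.const_of_off`.)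
-/

open Complex

namespace UNL

open Pool.Agent.EllSch Filter Topology

/-! ### roots of unity -/

private theorem ADist_ru_mul {e f : ℂ} (he : Ru e) (hf : Ru f) : Ru (e * f) := by
  obtain ⟨m, hm, h1⟩ := he
  obtain ⟨n, hn, h2⟩ := hf
  refine ⟨m * n, Nat.mul_pos hm hn, ?_⟩
  rw [mul_pow, pow_mul, h1, one_pow, one_mul, mul_comm m n, pow_mul, h2, one_pow]

private theorem ADist_ru_inv {e : ℂ} (he : Ru e) : Ru e⁻¹ := by
  obtain ⟨m, hm, h1⟩ := he
  exact ⟨m, hm, by rw [inv_pow, h1, inv_one]⟩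

private theorem ADist_ru_ne {e : ℂ} (he : Ru e) : e ≠ 0 := by
  rintro rfl
  obtain ⟨m, hm, h1⟩ := he
  rw [zero_pow hm.ne'] at h1
  exact zero_ne_one h1

private theorem ADist_ru_prod {ι : Type*} (s : Finset ι) (f : ι → ℂ) (h : ∀ i ∈ s, Ru (f i)) :
    Ru (∏ i ∈ s, f i) := by
  classical
  induction s using Finset.induction_on with
  | empty => exact ⟨1, one_pos, by simp⟩
  | insert i s hi ih =>
    rw [Finset.prod_insert hi]
    exact ADist_ru_mul (h i (Finset.mem_insert_self _ _))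
      (ih fun j hj => h j (Finset.mem_insert_of_mem hj))

/-! ### arithmetic of `O` -/

private theorem ADist_tau_sq (a : Par) : (a.A : ℂ) * tau a ^ 2 = a.B * tau a - a.C := by
  linear_combination tau a * tau_trace a - tau_norm a

private theorem ADist_xx_add (a : Par) (x y : ℤ × ℤ) : xx a (x + y) = xx a x + xx a y := by
  simp only [xx, Prod.fst_add, Prod.snd_add]
  push_cast
  ring

private theorem ADist_xx_sub (a : Par) (x y : ℤ × ℤ) : xx a (x - y) = xx a x - xx a y := by
  simp only [xx, Prod.fst_sub, Prod.snd_sub]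
  push_cast
  ring

private theorem ADist_xx_neg (a : Par) (x : ℤ × ℤ) : xx a (-x) = -xx a x := by
  simp only [xx, Prod.fst_neg, Prod.snd_neg]
  push_cast
  ring

private theorem ADist_xx_mul (a : Par) (d m : ℤ × ℤ) : xx a (ml a d m) = de a d * xx a m := by
  simp only [xx, ml, de, alp]
  push_cast
  linear_combination (-(d.2 : ℂ) * m.2) * ADist_tau_sq a

private theorem ADist_N {N : ℕ} [NeZero N] : (N : ℂ) ≠ 0 := Nat.cast_ne_zero.2 (NeZero.ne N)

private theorem ADist_tp (a : Par) {N : ℕ} [NeZero N] (k : G N) :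
    tp a k = xx a ((k.1.val : ℤ), (k.2.val : ℤ)) / N := by
  simp only [tp, xx]
  push_cast
  ring

private theorem ADist_val {N : ℕ} [NeZero N] (m : ℤ) :
    (((m : ZMod N).val : ℕ) : ℂ) = (m : ℂ) - N * ((m / N : ℤ) : ℂ) := by
  have h := ZMod.val_intCast (n := N) m
  have h2 := Int.mul_ediv_add_emod m N
  have h3 : (((m : ZMod N).val : ℕ) : ℤ) = m - N * (m / N) := by
    rw [h]
    linarith
  have h4 := congrArg (Int.cast : ℤ → ℂ) h3
  push_cast at h4
  rw [h4]

private theorem ADist_cast (a : Par) {N : ℕ} [NeZero N] (m : ℤ × ℤ) :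
    ∃ x : ℤ × ℤ, xx a m / N = tp a (((m.1 : ZMod N), (m.2 : ZMod N)) : G N) + xx a x := by
  refine ⟨(m.1 / N, m.2 / N), ?_⟩
  have hN : (N : ℂ) ≠ 0 := ADist_N
  simp only [tp, xx, ADist_val]
  field_simp
  ring

private theorem ADist_tn (a : Par) {N : ℕ} [NeZero N] (k : G N) : Tn a N (tp a k) := by
  refine ⟨((k.1.val : ℤ), (k.2.val : ℤ)), ?_⟩
  have hN : (N : ℂ) ≠ 0 := ADist_N
  rw [ADist_tp]
  field_simp

private theorem ADist_tp_zero (a : Par) {N : ℕ} [NeZero N] : tp a (0 : G N) = 0 := by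
  simp [tp]

private theorem ADist_tp_sub (a : Par) {N : ℕ} [NeZero N] (k m : G N) :
    ∃ x : ℤ × ℤ, tp a k - tp a m = tp a (k - m) + xx a x := by
  obtain ⟨x, hx⟩ := ADist_cast a (N := N)
    (((k.1.val : ℤ), (k.2.val : ℤ)) - ((m.1.val : ℤ), (m.2.val : ℤ)))
  refine ⟨x, ?_⟩
  rw [ADist_xx_sub, sub_div, ← ADist_tp, ← ADist_tp] at hx
  rw [hx]
  congr 2
  refine Prod.ext ?_ ?_
  · simp
  · simp

private theorem ADist_tp_mul (a : Par) {N : ℕ} [NeZero N] (d : ℤ × ℤ) (k : G N) :
    ∃ x : ℤ × ℤ, de a d * tp a k = tp a (sm a d k) + xx a x := by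
  obtain ⟨x, hx⟩ := ADist_cast a (N := N) (ml a d ((k.1.val : ℤ), (k.2.val : ℤ)))
  refine ⟨x, ?_⟩
  rw [ADist_xx_mul, mul_div_assoc, ← ADist_tp] at hx
  rw [hx]
  congr 2
  refine Prod.ext ?_ ?_
  · simp [ml, sm]
  · simp [ml, sm]

private theorem ADist_sm_add (a : Par) {N : ℕ} (d : ℤ × ℤ) (k m : G N) :
    sm a d (k + m) = sm a d k + sm a d m := by
  refine Prod.ext ?_ ?_
  · simp only [sm, Prod.fst_add, Prod.snd_add]
    ring
  · simp only [sm, Prod.fst_add, Prod.snd_add]
    ring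

private theorem ADist_sm_neg (a : Par) {N : ℕ} (d : ℤ × ℤ) (k : G N) :
    sm a d (-k) = -sm a d k := by
  refine Prod.ext ?_ ?_
  · simp only [sm, Prod.fst_neg, Prod.snd_neg]
    ring
  · simp only [sm, Prod.fst_neg, Prod.snd_neg]
    ring

private theorem ADist_sm_sub (a : Par) {N : ℕ} (d : ℤ × ℤ) (k m : G N) :
    sm a d (k - m) = sm a d k - sm a d m := by
  rw [sub_eq_add_neg, ADist_sm_add, ADist_sm_neg, sub_eq_add_neg]

private theorem ADist_tp_inj (a : Par) {N : ℕ} [NeZero N] {k : G N} {x : ℤ × ℤ}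
    (h : tp a k = xx a x) : k = 0 := by
  have hN : (N : ℂ) ≠ 0 := ADist_N
  have h1 : xx a ((k.1.val : ℤ), (k.2.val : ℤ)) = xx a (N * x.1, N * x.2) := by
    rw [ADist_tp, div_eq_iff hN] at h
    rw [h]
    simp only [xx]
    push_cast
    ring
  rw [← lat_xx, ← lat_xx] at h1
  have h2 := lat_injective (indL a) h1
  rw [Prod.mk.injEq] at h2
  refine Prod.ext ?_ ?_
  · have h3 := congrArg (fun y : ℤ => (y : ZMod N)) h2.1
    simpa using h3
  · have h3 := congrArg (fun y : ℤ => (y : ZMod N)) h2.2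
    simpa using h3

/-! ### off the lattice -/

private theorem ADist_ofl_add (a : Par) {z : ℂ} (x : ℤ × ℤ) : Ofl a (z + xx a x) ↔ Ofl a z := by
  rw [← lat_xx]
  exact off_add_lat x

private theorem ADist_ofl_sub (a : Par) {z : ℂ} (x : ℤ × ℤ) : Ofl a (z - xx a x) ↔ Ofl a z := by
  have h := ADist_ofl_add a (z := z - xx a x) x
  rw [sub_add_cancel] at h
  exact h.symm

private theorem ADist_not_ofl (a : Par) (x : ℤ × ℤ) : ¬ Ofl a (xx a x) := by
  intro h
  exact h x (by rw [lat_xx])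

private theorem ADist_ofl_iff (a : Par) (z : ℂ) : ¬ Ofl a z ↔ ∃ x, z = xx a x := by
  constructor
  · intro h
    obtain ⟨x, hx⟩ := (Basic.not_off_iff 1 (tau a) z).1 h
    exact ⟨x, by rw [hx, lat_xx]⟩
  · rintro ⟨x, rfl⟩
    exact ADist_not_ofl a x

/-- a point of `d⁻¹ O` off the lattice stays off after translation by `ker d` -/
private theorem ADist_ofl_ker (a : Par) {N : ℕ} [NeZero N] {d : ℤ × ℤ} {z : ℂ}
    (hz : Ofl a (de a d * z)) {k : G N} (hk : sm a d k = 0) : Ofl a (z - tp a k) := by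
  by_contra h
  obtain ⟨x, hx⟩ := (ADist_ofl_iff a _).1 h
  obtain ⟨y, hy⟩ := ADist_tp_mul a d k
  rw [hk, ADist_tp_zero, zero_add] at hy
  have h1 : de a d * z = xx a (y + ml a d x) := by
    rw [ADist_xx_add, ADist_xx_mul, ← hy, ← hx]
    ring
  rw [h1] at hz
  exact ADist_not_ofl a _ hz

/-- the points of `d⁻¹ O` are the translates of `ker d` -/
private theorem ADist_ker_of (a : Par) {N : ℕ} [NeZero N] {d d' : ℤ × ℤ}
    (hd : de a d * de a d' = N) {s : ℂ} {x : ℤ × ℤ} (hs : de a d * s = xx a x) :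
    ∃ k : G N, sm a d k = 0 ∧ ∃ y : ℤ × ℤ, s = tp a k + xx a y := by
  have hN : (N : ℂ) ≠ 0 := ADist_N
  have h1 : de a d * de a d' = N := hd
  have h2 : s = xx a (ml a d' x) / N := by
    rw [ADist_xx_mul, ← hs, eq_div_iff hN, ← h1]
    ring
  obtain ⟨y, hy⟩ := ADist_cast a (N := N) (ml a d' x)
  rw [← h2] at hy
  refine ⟨_, ?_, y, hy⟩
  generalize ((((ml a d' x).1 : ZMod N), ((ml a d' x).2 : ZMod N)) : G N) = k at hy
  obtain ⟨y', hy'⟩ := ADist_tp_mul a d k
  refine ADist_tp_inj a (x := x - ml a d y - y') ?_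
  rw [ADist_xx_sub, ADist_xx_sub, ADist_xx_mul, ← hs, hy]
  linear_combination -hy'

/-! ### reindexing -/

private theorem ADist_sum_re (a : Par) {N : ℕ} [NeZero N] {d : ℤ × ℤ} {K : Finset (G N)}
    (hK : ∀ k, k ∈ K ↔ sm a d k = 0) {k0 : G N} (h0 : sm a d k0 = 0) (F : G N → ℂ) :
    ∑ k ∈ K, F (k - k0) = ∑ k ∈ K, F k := by
  refine Finset.sum_nbij' (fun k => k - k0) (fun k => k + k0) ?_ ?_ ?_ ?_ ?_
  · intro k hk
    rw [hK] at hk
    rw [hK, ADist_sm_sub, hk, h0, sub_zero]
  · intro k hk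
    rw [hK] at hk
    rw [hK, ADist_sm_add, hk, h0, add_zero]
  · intro k _
    exact sub_add_cancel k k0
  · intro k _
    exact add_sub_cancel_right k k0
  · intro k _
    rfl

private theorem ADist_sum_neg (a : Par) {N : ℕ} [NeZero N] {d : ℤ × ℤ} {K : Finset (G N)}
    (hK : ∀ k, k ∈ K ↔ sm a d k = 0) (F : G N → ℂ) :
    ∑ k ∈ K, F (-k) = ∑ k ∈ K, F k := by
  refine Finset.sum_nbij' (fun k => -k) (fun k => -k) ?_ ?_ ?_ ?_ ?_
  · intro k hk
    rw [hK] at hk
    rw [hK, ADist_sm_neg, hk, neg_zero]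
  · intro k hk
    rw [hK] at hk
    rw [hK, ADist_sm_neg, hk, neg_zero]
  · intro k _
    exact neg_neg k
  · intro k _
    exact neg_neg k
  · intro k _
    rfl

private theorem ADist_prod_re (a : Par) {N : ℕ} [NeZero N] {d : ℤ × ℤ} {K K' : Finset (G N)}
    (hK : ∀ k, k ∈ K ↔ sm a d k = 0) {k0 l : G N} (h0 : sm a d k0 = l)
    (hK' : ∀ k, k ∈ K' ↔ sm a d k = l) (F : G N → ℂ) :
    ∏ k ∈ K, F (k + k0) = ∏ k ∈ K', F k := by
  refine Finset.prod_nbij' (fun k => k + k0) (fun k => k - k0) ?_ ?_ ?_ ?_ ?_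
  · intro k hk
    rw [hK] at hk
    rw [hK', ADist_sm_add, hk, h0, zero_add]
  · intro k hk
    rw [hK'] at hk
    rw [hK, ADist_sm_sub, hk, h0, sub_self]
  · intro k _
    exact add_sub_cancel_right k k0
  · intro k _
    exact sub_add_cancel k k0
  · intro k _
    rfl

/-! ### the logarithmic derivative -/

private noncomputable def ADist_E (a : Par) (d : ℤ × ℤ) {N : ℕ} (K : Finset (G N)) (z : ℂ) : ℂ :=
  de a d ^ 2 * wp 1 (tau a) (de a d * z) - ∑ k ∈ K, wp 1 (tau a) (z - tp a k)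

private noncomputable def ADist_L (a : Par) (d : ℤ × ℤ) {N : ℕ} (K : Finset (G N)) (z : ℂ) : ℂ :=
  (∑ k ∈ K, (et a (tp a k) + wz 1 (tau a) (z - tp a k))) - de a d * wz 1 (tau a) (de a d * z)

private noncomputable def ADist_T (a : Par) {N : ℕ} (K : Finset (G N)) (z : ℂ) : ℂ :=
  ∏ k ∈ K, kl a (tp a k) z

private theorem ADist_D (a : Par) {N : ℕ} [NeZero N] {d d' : ℤ × ℤ}
    (hd : de a d * de a d' = N) : de a d ≠ 0 := by
  intro h
  have h1 : de a d * de a d' = N := hd
  rw [h, zero_mul] at h1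
  exact ADist_N h1.symm

private theorem ADist_off (a : Par) {d : ℤ × ℤ} (hD : de a d ≠ 0) (z : ℂ) :
    Off ((de a d)⁻¹ * 1) ((de a d)⁻¹ * tau a) z ↔ Ofl a (de a d * z) := by
  have h := off_smul (a := 1) (b := tau a) (c := (de a d)⁻¹) (inv_ne_zero hD) (de a d * z)
  rw [inv_mul_cancel_left₀ hD] at h
  exact h

private theorem ADist_E_diff (a : Par) {N : ℕ} [NeZero N] {d : ℤ × ℤ} {K : Finset (G N)}
    (hK : ∀ k, k ∈ K ↔ sm a d k = 0) {z : ℂ} (hz : Ofl a (de a d * z)) :
    DifferentiableAt ℂ (ADist_E a d K) z := by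
  have h1 : DifferentiableAt ℂ (fun z => wp 1 (tau a) (de a d * z)) z :=
    DifferentiableAt.comp z (Basic.differentiableAt_wp (indL a) hz) (by fun_prop)
  have h2 : ∀ k ∈ K, DifferentiableAt ℂ (fun z => wp 1 (tau a) (z - tp a k)) z := by
    intro k hk
    exact DifferentiableAt.comp (f := fun z : ℂ => z - tp a k) (g := wp 1 (tau a)) z
      (Basic.differentiableAt_wp (indL a) (ADist_ofl_ker a hz ((hK k).1 hk))) (by fun_prop)
  exact (h1.const_mul _).sub (DifferentiableAt.fun_sum h2)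

private theorem ADist_E_per (a : Par) {N : ℕ} [NeZero N] {d d' : ℤ × ℤ}
    (hd : de a d * de a d' = N) {K : Finset (G N)} (hK : ∀ k, k ∈ K ↔ sm a d k = 0)
    (z s : ℂ) (x : ℤ × ℤ) (hs : de a d * s = xx a x) :
    ADist_E a d K (z + s) = ADist_E a d K z := by
  obtain ⟨k0, h0, y, hy⟩ := ADist_ker_of a hd hs
  unfold ADist_E
  congr 1
  · rw [mul_add, hs, ← lat_xx a x, wp_add_lat (indL a)]
  · rw [← ADist_sum_re a hK h0 (fun k => wp 1 (tau a) (z - tp a k))]
    refine Finset.sum_congr rfl fun k _ => ?_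
    obtain ⟨y', hy'⟩ := ADist_tp_sub a k k0
    have h1 : z + s - tp a k = z - tp a (k - k0) + lat 1 (tau a) (y - y') := by
      rw [lat_xx, ADist_xx_sub, hy]
      linear_combination -hy'
    rw [h1, wp_add_lat (indL a)]

private theorem ADist_E_const (a : Par) {N : ℕ} [NeZero N] {d d' : ℤ × ℤ}
    (hd : de a d * de a d' = N) {K : Finset (G N)} (hK : ∀ k, k ∈ K ↔ sm a d k = 0) :
    ∃ c : ℂ, ∀ z, Ofl a (de a d * z) → ADist_E a d K z = c := by
  classical
  have hD := ADist_D a hd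
  have h0K : (0 : G N) ∈ K := by
    rw [hK]
    refine Prod.ext ?_ ?_ <;> simp [sm]
  have hlim : Tendsto (ADist_E a d K) (𝓝[≠] 0)
      (𝓝 (de a d ^ 2 * 0 - 0 - ∑ k ∈ K.erase 0, wp 1 (tau a) (0 - tp a k))) := by
    have h1 : Tendsto (fun z : ℂ => de a d * z) (𝓝[≠] 0) (𝓝[≠] 0) := by
      rw [tendsto_nhdsWithin_iff]
      constructor
      · have h2 : Tendsto (fun z : ℂ => de a d * z) (𝓝 0) (𝓝 (de a d * 0)) :=
          (continuous_const.mul continuous_id).tendsto 0
        rw [mul_zero] at h2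
        exact h2.mono_left nhdsWithin_le_nhds
      · filter_upwards [self_mem_nhdsWithin] with z hz
        exact mul_ne_zero hD hz
    have h2 := (Add.tendsto_wp_sub (indL a)).comp h1
    have h3 := Add.tendsto_wp_sub (indL a)
    have h4 : Tendsto (fun z : ℂ => ∑ k ∈ K.erase 0, wp 1 (tau a) (z - tp a k)) (𝓝[≠] 0)
        (𝓝 (∑ k ∈ K.erase 0, wp 1 (tau a) (0 - tp a k))) := by
      refine tendsto_finsetSum _ fun k hk => ?_
      have hoff : Off 1 (tau a) (0 - tp a k) := by
        by_contra hcon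
        obtain ⟨x, hx⟩ := (ADist_ofl_iff a _).1 hcon
        have : tp a k = xx a (-x) := by
          rw [ADist_xx_neg, ← hx]
          ring
        exact (Finset.mem_erase.1 hk).1 (ADist_tp_inj a this)
      have h5 : ContinuousAt (fun z : ℂ => wp 1 (tau a) (z - tp a k)) 0 :=
        ContinuousAt.comp (f := fun z : ℂ => z - tp a k) (g := wp 1 (tau a)) (x := 0)
          (Basic.differentiableAt_wp (indL a) hoff).continuousAt (by fun_prop)
      exact h5.tendsto.mono_left nhdsWithin_le_nhds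
    refine (((h2.const_mul (de a d ^ 2)).sub h3).sub h4).congr' ?_
    filter_upwards [self_mem_nhdsWithin] with z hz
    have hz' : z ≠ 0 := hz
    simp only [Function.comp_apply]
    unfold ADist_E
    rw [← Finset.add_sum_erase K _ h0K, ADist_tp_zero, sub_zero]
    field_simp
    ring
  refine ⟨_, fun z hz => Basic.const_of_off (ind_smul (indL a) (inv_ne_zero hD)) (f := ADist_E a d K)
    (fun w hw => ADist_E_diff a hK ((ADist_off a hD w).1 hw)) (fun w x _ => ?_) hlim z
    ((ADist_off a hD z).2 hz)⟩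
  refine ADist_E_per a hd hK w _ x ?_
  rw [lat_smul, lat_xx, mul_inv_cancel_left₀ hD]

private theorem ADist_L_deriv (a : Par) {N : ℕ} [NeZero N] {d : ℤ × ℤ} {K : Finset (G N)}
    (hK : ∀ k, k ∈ K ↔ sm a d k = 0) {z : ℂ} (hz : Ofl a (de a d * z)) :
    HasDerivAt (ADist_L a d K) (ADist_E a d K z) z := by
  have h1 : HasDerivAt (fun z => wz 1 (tau a) (de a d * z))
      (-wp 1 (tau a) (de a d * z) * de a d) z := by
    have h2 : HasDerivAt (fun z : ℂ => de a d * z) (de a d) z := by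
      simpa using (hasDerivAt_id z).const_mul (de a d)
    exact HasDerivAt.comp z (hasDerivAt_wz (indL a) hz) h2
  have h2 : ∀ k ∈ K, HasDerivAt (fun z => et a (tp a k) + wz 1 (tau a) (z - tp a k))
      (-wp 1 (tau a) (z - tp a k)) z := by
    intro k hk
    have h3 := HasDerivAt.comp_sub_const z (tp a k)
      (hasDerivAt_wz (indL a) (ADist_ofl_ker a hz ((hK k).1 hk)))
    exact h3.const_add _
  refine ((HasDerivAt.fun_sum h2).sub (h1.const_mul (de a d))).congr_deriv ?_
  unfold ADist_E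
  rw [Finset.sum_neg_distrib]
  ring

private theorem ADist_et_zero (a : Par) : et a 0 = 0 := by
  have h := et_add a 0 0
  rw [add_zero] at h
  exact left_eq_add.mp h

private theorem ADist_et_neg (a : Par) (w : ℂ) : et a (-w) = -et a w := by
  have h := et_add a w (-w)
  rw [add_neg_cancel, ADist_et_zero] at h
  exact (neg_eq_of_add_eq_zero_right h.symm).symm

private theorem ADist_L_odd (a : Par) {N : ℕ} [NeZero N] {d : ℤ × ℤ} {K : Finset (G N)}
    (hK : ∀ k, k ∈ K ↔ sm a d k = 0) {z : ℂ} (hz : Ofl a (de a d * z)) :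
    ADist_L a d K (-z) = -ADist_L a d K z := by
  unfold ADist_L
  rw [← ADist_sum_neg a hK (fun k => et a (tp a k) + wz 1 (tau a) (z - tp a k)), mul_neg, wz_neg,
    neg_sub, mul_neg, sub_neg_eq_add, add_comm, sub_eq_add_neg, ← Finset.sum_neg_distrib]
  congr 1
  refine Finset.sum_congr rfl fun k hk => ?_
  obtain ⟨x, hx⟩ := ADist_tp_sub a (0 : G N) k
  rw [zero_sub, ADist_tp_zero, zero_sub] at hx
  have hoff : Ofl a (z + tp a k) := by
    have h1 := ADist_ofl_ker a hz (k := -k) (by rw [ADist_sm_neg, (hK k).1 hk, neg_zero])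
    have h2 : z + tp a k = z - tp a (-k) - xx a x := by
      linear_combination -hx
    rw [h2, ADist_ofl_sub]
    exact h1
  have h3 : tp a (-k) = -tp a k + xx a (-x) := by
    rw [ADist_xx_neg]
    linear_combination -hx
  have h4 : z - tp a (-k) = (z + tp a k) + lat 1 (tau a) x := by
    rw [lat_xx, h3, ADist_xx_neg]
    ring
  rw [h4, wz_add_lat (indL a) hoff, h3, et_add, ADist_et_neg, et_xx]
  have h5 : -z - tp a k = -(z + tp a k) := by ring
  have h6 : Pool.Agent.EllSch.eta 1 (tau a) (-x) = -Pool.Agent.EllSch.eta 1 (tau a) x := by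
    simp only [Pool.Agent.EllSch.eta, Prod.fst_neg, Prod.snd_neg]
    push_cast
    ring
  rw [h5, wz_neg, h6]
  ring

private theorem ADist_im (a : Par) : (tau a).im ≠ 0 := by
  have h := indL a
  unfold Ind at h
  simpa using h

private theorem ADist_L_lin (a : Par) {N : ℕ} [NeZero N] {d d' : ℤ × ℤ}
    (hd : de a d * de a d' = N) {K : Finset (G N)} (hK : ∀ k, k ∈ K ↔ sm a d k = 0) :
    ∃ c : ℂ, (∀ z, Ofl a (de a d * z) → ADist_L a d K z = c * z) ∧
      ∀ w, (K.card : ℂ) * et a w - de a d * et a (de a d * w) = c * w := by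
  have hD := ADist_D a hd
  obtain ⟨c, hc⟩ := ADist_E_const a hd hK
  have hI := ind_smul (indL a) (inv_ne_zero hD)
  obtain ⟨c0, hc0⟩ := (isOpen_off hI).exists_is_const_of_deriv_eq_zero (isPreconnected_off hI)
    (f := fun z => ADist_L a d K z - c * z)
    (fun z hz => by
      have h1 := ADist_L_deriv a hK ((ADist_off a hD z).1 hz)
      exact (h1.sub ((hasDerivAt_id z).const_mul c)).differentiableAt.differentiableWithinAt)
    (fun z hz => by
      have h1 := ADist_L_deriv a hK ((ADist_off a hD z).1 hz)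
      have h2 := (h1.sub ((hasDerivAt_id z).const_mul c)).deriv
      rw [hc z ((ADist_off a hD z).1 hz), mul_one, sub_self] at h2
      exact h2)
  have hc1 : ∀ z, Ofl a (de a d * z) → ADist_L a d K z = c * z + c0 := by
    intro z hz
    have h1 := hc0 z ((ADist_off a hD z).2 hz)
    linear_combination h1
  have hz0 : Ofl a (de a d * ((de a d)⁻¹ * 1 / 2)) := (ADist_off a hD _).1 (Zeta.off_half hI)
  generalize (de a d)⁻¹ * 1 / 2 = z0 at hz0
  have hz1 : Ofl a (de a d * -z0) := by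
    rw [mul_neg]
    exact off_neg.2 hz0
  have hc00 : c0 = 0 := by
    have h1 := hc1 z0 hz0
    have h2 := hc1 (-z0) hz1
    rw [ADist_L_odd a hK hz0, h1] at h2
    linear_combination (-1 / 2 : ℂ) * h2
  have hL : ∀ z, Ofl a (de a d * z) → ADist_L a d K z = c * z := by
    intro z hz
    rw [hc1 z hz, hc00, add_zero]
  refine ⟨c, hL, ?_⟩
  have hx : ∀ x : ℤ × ℤ, (K.card : ℂ) * et a (xx a x) - de a d * et a (de a d * xx a x) =
      c * xx a x := by
    intro x
    have hz2 : Ofl a (de a d * (z0 + xx a x)) := by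
      rw [mul_add, ← ADist_xx_mul, ADist_ofl_add]
      exact hz0
    have h1 : ADist_L a d K (z0 + xx a x) - ADist_L a d K z0 =
        (K.card : ℂ) * et a (xx a x) - de a d * et a (de a d * xx a x) := by
      unfold ADist_L
      have h3 : wz 1 (tau a) (de a d * (z0 + xx a x)) =
          wz 1 (tau a) (de a d * z0) + et a (de a d * xx a x) := by
        rw [mul_add, ← ADist_xx_mul, et_xx, ← lat_xx a (ml a d x)]
        exact wz_add_lat (indL a) hz0 _
      have h4 : ∑ k ∈ K, (et a (tp a k) + wz 1 (tau a) (z0 + xx a x - tp a k)) =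
          (∑ k ∈ K, (et a (tp a k) + wz 1 (tau a) (z0 - tp a k))) +
            (K.card : ℂ) * et a (xx a x) := by
        rw [← nsmul_eq_mul, ← Finset.sum_const, ← Finset.sum_add_distrib]
        refine Finset.sum_congr rfl fun k hk => ?_
        have h5 : z0 + xx a x - tp a k = z0 - tp a k + lat 1 (tau a) x := by
          rw [lat_xx]
          ring
        rw [h5, wz_add_lat (indL a) (ADist_ofl_ker a hz0 ((hK k).1 hk)), et_xx]
        ring
      rw [h3, h4]
      ring
    rw [← h1, hL _ hz2, hL _ hz0]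
    ring
  intro w
  have hi := ADist_im a
  have hw : w = ((w.re - w.im / (tau a).im * (tau a).re : ℝ) : ℂ) * xx a (1, 0) +
      ((w.im / (tau a).im : ℝ) : ℂ) * xx a (0, 1) := by
    simp only [xx]
    push_cast
    apply Complex.ext
    · simp
    · simp [hi]
  generalize (w.re - w.im / (tau a).im * (tau a).re : ℝ) = r at hw
  generalize (w.im / (tau a).im : ℝ) = s at hw
  have h1 := hx (1, 0)
  have h2 := hx (0, 1)
  rw [hw, et_add, et_real, et_real]
  have h3 : de a d * ((r : ℂ) * xx a (1, 0) + (s : ℂ) * xx a (0, 1)) =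
      (r : ℂ) * (de a d * xx a (1, 0)) + (s : ℂ) * (de a d * xx a (0, 1)) := by ring
  rw [h3, et_add, et_real, et_real]
  linear_combination (r : ℂ) * h1 + (s : ℂ) * h2

/-! ### the theta product -/

private theorem ADist_kl_deriv (a : Par) {k z : ℂ} (hz : Ofl a (z - k)) :
    HasDerivAt (kl a k) ((et a k + wz 1 (tau a) (z - k)) * kl a k z) z := by
  have h1 : HasDerivAt (fun z : ℂ => et a k * z - et a k * k / 2) (et a k) z := by
    simpa using ((hasDerivAt_id z).const_mul (et a k)).sub_const (et a k * k / 2)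
  have h2 : HasDerivAt (fun z : ℂ => sg a (z - k)) (wz 1 (tau a) (z - k) * sg a (z - k)) z :=
    HasDerivAt.comp_sub_const z k (QCL.sig_deriv (indL a) hz)
  refine (h1.cexp.mul h2).congr_deriv ?_
  unfold kl
  ring

private theorem ADist_T_deriv (a : Par) {N : ℕ} [NeZero N] {d : ℤ × ℤ} {K : Finset (G N)}
    (hK : ∀ k, k ∈ K ↔ sm a d k = 0) {z : ℂ} (hz : Ofl a (de a d * z)) :
    HasDerivAt (ADist_T a K)
      ((ADist_L a d K z + de a d * wz 1 (tau a) (de a d * z)) * ADist_T a K z) z := by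
  classical
  have h1 := HasDerivAt.fun_finsetProd (u := K) (f := fun k z => kl a (tp a k) z)
    (fun k hk => ADist_kl_deriv a (ADist_ofl_ker a hz ((hK k).1 hk)))
  refine h1.congr_deriv ?_
  unfold ADist_L ADist_T
  rw [sub_add_cancel, Finset.sum_mul]
  refine Finset.sum_congr rfl fun k hk => ?_
  rw [← Finset.mul_prod_erase K _ hk, smul_eq_mul]
  ring

private theorem ADist_kl_diff (a : Par) (k : ℂ) : Differentiable ℂ (kl a k) := by
  have h1 : Differentiable ℂ (fun z : ℂ => exp (et a k * z - et a k * k / 2)) := by fun_prop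
  have h2 : Differentiable ℂ (fun z : ℂ => sg a (z - k)) :=
    (QCL.sig_diff (indL a)).comp (f := fun z : ℂ => z - k) (by fun_prop)
  exact h1.mul h2

private theorem ADist_sg_diff (a : Par) : Differentiable ℂ (sg a) := QCL.sig_diff (indL a)

private theorem ADist_T_eq (a : Par) {N : ℕ} [NeZero N] {d d' : ℤ × ℤ}
    (hd : de a d * de a d' = N) {K : Finset (G N)} (hK : ∀ k, k ∈ K ↔ sm a d k = 0) :
    ∃ C : ℂ, C ≠ 0 ∧ ∃ c : ℂ,
      (∀ z, ADist_T a K z = C * (exp (c * z ^ 2 / 2) * sg a (de a d * z))) ∧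
      ∀ w, (K.card : ℂ) * et a w - de a d * et a (de a d * w) = c * w := by
  have hD := ADist_D a hd
  obtain ⟨c, hL, hrel⟩ := ADist_L_lin a hd hK
  have hI := ind_smul (indL a) (inv_ne_zero hD)
  set Ψ : ℂ → ℂ := fun z => exp (c * z ^ 2 / 2) * sg a (de a d * z) with hΨ
  have hΨd : ∀ z, Ofl a (de a d * z) →
      HasDerivAt Ψ ((c * z + de a d * wz 1 (tau a) (de a d * z)) * Ψ z) z := by
    intro z hz
    have h1 : HasDerivAt (fun z : ℂ => c * z ^ 2 / 2) (c * z) z := by
      refine (((hasDerivAt_pow 2 z).const_mul c).div_const 2).congr_deriv ?_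
      simp
      ring
    have h2 : HasDerivAt (fun z : ℂ => de a d * z) (de a d) z := by
      simpa using (hasDerivAt_id z).const_mul (de a d)
    have h3 : HasDerivAt (fun z : ℂ => sg a (de a d * z))
        (wz 1 (tau a) (de a d * z) * sg a (de a d * z) * de a d) z :=
      HasDerivAt.comp z (QCL.sig_deriv (indL a) hz) h2
    refine (h1.cexp.mul h3).congr_deriv ?_
    simp only [hΨ]
    ring
  have hΨne : ∀ z, Ofl a (de a d * z) → Ψ z ≠ 0 := fun z hz =>
    mul_ne_zero (exp_ne_zero _) (QCL.sig_ne (indL a) hz)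
  have hR : ∀ z, Ofl a (de a d * z) → HasDerivAt (fun z => ADist_T a K z / Ψ z) 0 z := by
    intro z hz
    refine ((ADist_T_deriv a hK hz).div (hΨd z hz) (hΨne z hz)).congr_deriv ?_
    rw [hL z hz]
    ring
  obtain ⟨C, hC⟩ := (isOpen_off hI).exists_is_const_of_deriv_eq_zero (isPreconnected_off hI)
    (f := fun z => ADist_T a K z / Ψ z)
    (fun z hz => (hR z ((ADist_off a hD z).1 hz)).differentiableAt.differentiableWithinAt)
    (fun z hz => (hR z ((ADist_off a hD z).1 hz)).deriv)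
  have hC1 : ∀ z, Ofl a (de a d * z) → ADist_T a K z = C * Ψ z := by
    intro z hz
    have h1 := hC z ((ADist_off a hD z).2 hz)
    rwa [div_eq_iff (hΨne z hz)] at h1
  have hz0 : Ofl a (de a d * ((de a d)⁻¹ * 1 / 2)) := (ADist_off a hD _).1 (Zeta.off_half hI)
  have hC0 : C ≠ 0 := by
    rintro rfl
    have h1 := hC1 _ hz0
    rw [zero_mul] at h1
    exact Finset.prod_ne_zero_iff.2
      (fun k hk => kl_ne a (ADist_ofl_ker a hz0 ((hK k).1 hk))) h1
  refine ⟨C, hC0, c, fun z => ?_, hrel⟩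
  have hTc : Continuous (ADist_T a K) :=
    continuous_finsetProd K fun k _ => (ADist_kl_diff a (tp a k)).continuous
  have hΨc : Continuous (fun z => C * Ψ z) := by
    have h1 : Continuous (fun z : ℂ => sg a (de a d * z)) :=
      (ADist_sg_diff a).continuous.comp (by fun_prop)
    have h2 : Continuous (fun z : ℂ => exp (c * z ^ 2 / 2)) := by fun_prop
    exact continuous_const.mul (h2.mul h1)
  have h1 : Tendsto (ADist_T a K) (𝓝[≠] z) (𝓝 (ADist_T a K z)) :=
    (hTc.tendsto z).mono_left nhdsWithin_le_nhds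
  have h2 : Tendsto (fun z => C * Ψ z) (𝓝[≠] z) (𝓝 (C * Ψ z)) :=
    (hΨc.tendsto z).mono_left nhdsWithin_le_nhds
  refine tendsto_nhds_unique h1 (h2.congr' ?_)
  filter_upwards [Basic.eventually_off hI z] with u hu
  exact (hC1 u ((ADist_off a hD u).1 hu)).symm

private theorem ADist_factor (a : Par) {N : ℕ} [NeZero N] (k k0 : G N) :
    ∃ e : ℂ, Ru e ∧ kl a (tp a k) (tp a (-k0)) =
      e * exp (et a (tp a (-k0)) * tp a (-k0) / 2) * kl a (tp a (k + k0)) 0 := by
  have hN : 0 < N := Nat.pos_of_ne_zero (NeZero.ne N)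
  obtain ⟨e, he, h1⟩ := kl_shift a hN (ADist_tn a k) (ADist_tn a (-k0))
  obtain ⟨x, hx⟩ := ADist_tp_sub a k (-k0)
  rw [sub_neg_eq_add] at hx
  obtain ⟨e', he', h2⟩ := kl_per a hN (ADist_tn a (k + k0)) x
  refine ⟨e * e', ADist_ru_mul he he', ?_⟩
  have h3 := h1 0
  rw [zero_add, mul_zero, zero_add, hx, h2 0] at h3
  rw [h3]
  ring

private theorem ADist_sg (a : Par) {N : ℕ} [NeZero N] {d : ℤ × ℤ} {k0 l : G N}
    (h0 : sm a d k0 = l) : ∃ e : ℂ, Ru e ∧ sg a (de a d * tp a (-k0)) =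
      e * exp (et a (de a d * tp a (-k0)) * (de a d * tp a (-k0)) / 2) * kl a (tp a l) 0 := by
  have hN : 0 < N := Nat.pos_of_ne_zero (NeZero.ne N)
  obtain ⟨x, hx⟩ := ADist_tp_mul a d (-k0)
  rw [ADist_sm_neg, h0] at hx
  obtain ⟨y, hy⟩ := ADist_tp_sub a (0 : G N) l
  rw [zero_sub, ADist_tp_zero, zero_sub] at hy
  obtain ⟨e, he, h1⟩ := kl_per a hN (ADist_tn a l) (y - x)
  refine ⟨e, he, ?_⟩
  have h2 : tp a l + xx a (y - x) = -(de a d * tp a (-k0)) := by
    rw [hx, ADist_xx_sub]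
    linear_combination -hy
  have h3 := h1 0
  rw [h2] at h3
  generalize de a d * tp a (-k0) = W at h3
  have h4 : kl a (-W) 0 = exp (-(et a W * W / 2)) * sg a W := by
    unfold kl
    rw [ADist_et_neg]
    congr 2
    · ring
    · ring
  rw [h4] at h3
  have h5 : sg a W = exp (et a W * W / 2) * (exp (-(et a W * W / 2)) * sg a W) := by
    rw [← mul_assoc, ← exp_add, add_neg_cancel, exp_zero, one_mul]
  rw [h5, h3]
  ring

private theorem ADist_zero (a : Par) {N : ℕ} [NeZero N] [DecidableEq (G N)] {d : ℤ × ℤ}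
    {K : Finset (G N)} (h0 : (0 : G N) ∈ K) {C c : ℂ}
    (hT : ∀ z, ADist_T a K z = C * (exp (c * z ^ 2 / 2) * sg a (de a d * z))) :
    ∏ k ∈ K.erase 0, kl a (tp a k) 0 = C * de a d := by
  have hs0 : sg a 0 = 0 := by
    have h1 := QCL.sig_lat 1 (tau a) 0
    rw [lat_zero] at h1
    exact h1
  have hk0 : ∀ z, kl a (tp a (0 : G N)) z = sg a z := by
    intro z
    unfold kl
    rw [ADist_tp_zero, ADist_et_zero, sub_zero]
    simp
  have h1 : HasDerivAt (sg a) 1 0 := QCL.sig_deriv_zero (indL a)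
  have hP : DifferentiableAt ℂ (fun z => ∏ k ∈ K.erase 0, kl a (tp a k) z) 0 :=
    DifferentiableAt.fun_finsetProd fun k _ => (ADist_kl_diff a (tp a k)) 0
  have h2 := h1.mul hP.hasDerivAt
  have h3 : HasDerivAt (ADist_T a K) (∏ k ∈ K.erase 0, kl a (tp a k) 0) 0 := by
    refine (h2.congr_deriv ?_).congr_of_eventuallyEq (Eventually.of_forall fun z => ?_)
    · rw [hs0, one_mul, zero_mul, add_zero]
    · unfold ADist_T
      rw [← Finset.mul_prod_erase K _ h0, hk0]
      rfl
  have h4 : HasDerivAt (fun z : ℂ => exp (c * z ^ 2 / 2)) 0 0 := by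
    have h5 : HasDerivAt (fun z : ℂ => c * z ^ 2 / 2) 0 0 := by
      refine (((hasDerivAt_pow 2 (0 : ℂ)).const_mul c).div_const 2).congr_deriv ?_
      simp
    refine h5.cexp.congr_deriv ?_
    simp
  have h5 : HasDerivAt (fun z : ℂ => sg a (de a d * z)) (de a d) 0 := by
    have h6 : HasDerivAt (fun z : ℂ => de a d * z) (de a d) 0 := by
      simpa using (hasDerivAt_id (0 : ℂ)).const_mul (de a d)
    have h7 : HasDerivAt (sg a) 1 (de a d * 0) := by
      rw [mul_zero]
      exact h1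
    exact (HasDerivAt.comp (0 : ℂ) h7 h6).congr_deriv (one_mul _)
  have h6 : HasDerivAt (ADist_T a K) (C * de a d) 0 := by
    refine (((h4.mul h5).const_mul C).congr_deriv ?_).congr_of_eventuallyEq
      (Eventually.of_forall fun z => hT z)
    simp
  exact h3.unique h6

open Classical in
theorem dist (a : Par) (N : ℕ) [NeZero N] (d d' : ℤ × ℤ) (hd : de a d * de a d' = N) :
    ∃ C : ℂ, C ≠ 0 ∧
      (∀ l : G N, l ≠ 0 → (∃ k, sm a d k = l) → ∃ e : ℂ, Ru e ∧
        ∏ k ∈ Finset.univ.filter (fun k : G N => sm a d k = l), kl a (tp a k) 0 =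
          e * C * kl a (tp a l) 0) ∧
      (∃ e : ℂ, Ru e ∧
        ∏ k ∈ (Finset.univ.filter (fun k : G N => sm a d k = 0)).erase 0, kl a (tp a k) 0 =
          e * C * de a d) := by
  have hK : ∀ k, k ∈ Finset.univ.filter (fun k : G N => sm a d k = 0) ↔ sm a d k = 0 := by
    intro k
    simp
  obtain ⟨C, hC, c, hT, hrel⟩ := ADist_T_eq a hd hK
  refine ⟨C, hC, ?_, 1, ⟨1, one_pos, one_pow 1⟩, ?_⟩
  · rintro l - ⟨k0, hk0⟩
    choose e he hfac using fun k : G N => ADist_factor a k k0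
    obtain ⟨e', he', hsg⟩ := ADist_sg a hk0
    have h1 := hT (tp a (-k0))
    unfold ADist_T at h1
    rw [Finset.prod_congr rfl fun k _ => hfac k, Finset.prod_mul_distrib, Finset.prod_mul_distrib,
      Finset.prod_const, ADist_prod_re a hK hk0 (K' := Finset.univ.filter
        (fun k : G N => sm a d k = l)) (by intro k; simp) (fun k => kl a (tp a k) 0), hsg,
      ← exp_nat_mul] at h1
    have h2 := hrel (tp a (-k0))
    set K := Finset.univ.filter (fun k : G N => sm a d k = 0)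
    have h3 : exp ((K.card : ℂ) * (et a (tp a (-k0)) * tp a (-k0) / 2)) =
        exp (c * tp a (-k0) ^ 2 / 2) *
          exp (et a (de a d * tp a (-k0)) * (de a d * tp a (-k0)) / 2) := by
      rw [← exp_add]
      congr 1
      linear_combination (tp a (-k0) / 2) * h2
    have hE : Ru (∏ k ∈ K, e k) := ADist_ru_prod _ _ fun k _ => he k
    refine ⟨(∏ k ∈ K, e k)⁻¹ * e', ADist_ru_mul (ADist_ru_inv hE) he', ?_⟩
    have hE0 := ADist_ru_ne hE
    have hX : exp ((K.card : ℂ) * (et a (tp a (-k0)) * tp a (-k0) / 2)) ≠ 0 := exp_ne_zero _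
    have h4 : exp ((K.card : ℂ) * (et a (tp a (-k0)) * tp a (-k0) / 2)) *
        ((∏ k ∈ K, e k) * ∏ k ∈ Finset.univ.filter (fun k : G N => sm a d k = l),
          kl a (tp a k) 0) =
        exp ((K.card : ℂ) * (et a (tp a (-k0)) * tp a (-k0) / 2)) *
          (C * e' * kl a (tp a l) 0) := by
      rw [show exp ((K.card : ℂ) * (et a (tp a (-k0)) * tp a (-k0) / 2)) *
        (C * e' * kl a (tp a l) 0) = (exp (c * tp a (-k0) ^ 2 / 2) *
          exp (et a (de a d * tp a (-k0)) * (de a d * tp a (-k0)) / 2)) *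
        (C * e' * kl a (tp a l) 0) by rw [h3]]
      linear_combination h1
    have h5 := mul_left_cancel₀ hX h4
    have h6 := congrArg (fun t => (∏ k ∈ K, e k)⁻¹ * t) h5
    simp only [inv_mul_cancel_left₀ hE0] at h6
    rw [h6]
    ring
  · rw [one_mul]
    refine ADist_zero a ?_ hT
    rw [hK]
    refine Prod.ext ?_ ?_ <;> simp [sm]

end UNL
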