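import Pool.Agent.UNL.PartW
import Pool.Agent.UNL.ADist
import Pool.Agent.UNL.ACls
import Pool.Agent.UNI.AForm
import Pool.Agent.UNI.AKd
import Pool.Agent.UNI.AExt

/-!
# UNL (A): assembly
-/

open Finset

namespace UNL

open UNI (fa fc0 fA fC fF fF1 fY fY1 sh dl)

noncomputable section

/-! ### the span of the letters -/

section span

variable {A R : Type*} [AddCommGroup A] [Ring R] [Algebra ℚ R]

/-- the `ℚ`-span of the image of `hat` -/
def Lt (hat : A →+ R) : Submodule ℚ R := Submodule.span ℚ (Set.range hat)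

theorem Lt_anti (hat : A →+ R) (hsq : ∀ x, hat x * hat x = 0) {x y : R} (hx : x ∈ Lt hat)
    (hy : y ∈ Lt hat) : x * y = -(y * x) := by
  have h0 : ∀ p q : A, hat p * hat q = -(hat q * hat p) := by
    intro p q
    have h := hsq (p + q)
    rw [map_add] at h
    have h3 : hat p * hat q + hat q * hat p = 0 := by
      have e : (hat p + hat q) * (hat p + hat q) =
          hat p * hat p + hat q * hat q + (hat p * hat q + hat q * hat p) := by noncomm_ring
      rw [e, hsq, hsq] at h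
      simpa using h
    exact eq_neg_of_add_eq_zero_left h3
  have h1 : ∀ q : A, ∀ x ∈ Lt hat, x * hat q = -(hat q * x) := by
    intro q x hx
    refine Submodule.span_induction ?_ ?_ ?_ ?_ hx
    · rintro _ ⟨p, rfl⟩
      exact h0 p q
    · simp
    · intro a b _ _ ha hb
      rw [add_mul, mul_add, ha, hb, neg_add]
    · intro r a _ ha
      rw [smul_mul_assoc, mul_smul_comm, ha, smul_neg]
  refine Submodule.span_induction ?_ ?_ ?_ ?_ hy
  · rintro _ ⟨q, rfl⟩
    exact h1 q x hx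
  · simp
  · intro a b _ _ ha hb
    rw [add_mul, mul_add, ha, hb, neg_add]
  · intro r a _ ha
    rw [smul_mul_assoc, mul_smul_comm, ha, smul_neg]

theorem Lt_sq (hat : A →+ R) (hsq : ∀ x, hat x * hat x = 0) {x : R} (hx : x ∈ Lt hat) :
    x * x = 0 :=
  UNI.AF.zero_of_neg (Lt_anti hat hsq hx hx)

theorem hat_mem (hat : A →+ R) (x : A) : hat x ∈ Lt hat := Submodule.subset_span ⟨x, rfl⟩

end span

/-! ### normalisation -/

section norm

variable {Γ R : Type*} [AddCommGroup Γ] [Fintype Γ] [Ring R] [Algebra ℚ R]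

/-- the average -/
def av (x : Γ → R) : R := ((Fintype.card Γ : ℚ)⁻¹) • ∑ k, x k

/-- the normalised letters -/
def nz (x : Γ → R) (k : Γ) : R := x k - av x

theorem nz_sum (x : Γ → R) : ∑ k, nz x k = 0 := by
  have h : (Fintype.card Γ : ℚ) ≠ 0 := Nat.cast_ne_zero.2 Fintype.card_ne_zero
  simp only [nz]
  rw [Finset.sum_sub_distrib, Finset.sum_const, Finset.card_univ, av, ← Nat.cast_smul_eq_nsmul ℚ,
    smul_smul, mul_inv_cancel₀ h, one_smul, sub_self]

theorem fF_nz (u v : Γ → R) (s t h : Γ) :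
    fF (sh u s) (sh v t) h = fF (sh (nz u) s) (sh (nz v) t) h := by
  simp only [fF, sh, nz, two_mul]
  abel

theorem fF1_nz (u v w z g : Γ → R) (s t a b h : Γ) :
    fF1 (sh u s) (sh v t) (sh w a) (sh z b) g h =
      fF1 (sh (nz u) s) (sh (nz v) t) (sh (nz w) a) (sh (nz z) b) g h +
        (av z + av w - 2 * av u - 2 * av v) := by
  simp only [fF1, sh, nz, two_mul]
  abel

theorem fa_nz (x g : Γ → R) (s k : Γ) : fa (sh x s) g k = fa (sh (nz x) s) g k := by
  simp only [fa, sh, nz, two_mul]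
  abel

theorem fA_nz (x : Γ → R) (s k : Γ) : fA (sh x s) k = fA (sh (nz x) s) k := by
  simp only [fA]
  congr 1
  simp only [sh, nz, two_mul]
  abel

theorem fC_nz (x g : Γ → R) (s : Γ) : fC (sh x s) g = fC (sh (nz x) s) g := by
  simp only [fC]
  exact Finset.sum_congr rfl (fun k _ => fa_nz x g s k)

theorem fY_nz (x g : Γ → R) (s k j : Γ) : fY (sh x s) g k j = fY (sh (nz x) s) g k j := by
  simp only [fY]
  rw [fa_nz]

theorem fY1_nz (x g : Γ → R) (s k j : Γ) : fY1 (sh x s) g k j = fY1 (sh (nz x) s) g k j := by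
  simp only [fY1]
  rw [fa_nz]

/-! ### the excluded terms -/

theorem fF_zero (u v : Γ → R) : fF u v 0 = 0 := by
  simp only [fF, add_zero, neg_zero, two_mul]
  abel

theorem fA_zero (x : Γ → R) : fA x 0 = 0 := by
  simp only [fA, neg_zero, two_mul]
  simp

theorem fa_neg (x : Γ → R) {g : Γ → R} (gn : ∀ k, g (-k) = g k) (k : Γ) :
    fa x g (-k) = fa x g k := by
  simp only [fa, neg_neg, gn]
  rw [add_comm (x (-k))]

theorem fY1_zero (x : Γ → R) {g : Γ → R} (g0 : g 0 = 0) (gn : ∀ k, g (-k) = g k) (j : Γ) :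
    fY1 x g 0 j = 0 := by
  simp only [fY1, fa, fc0, neg_zero, zero_sub, zero_add, gn, g0, two_mul]
  abel

theorem fY_zero (x : Γ → R) {g : Γ → R} (g0 : g 0 = 0) (k : Γ) : fY x g k 0 = 0 := by
  simp only [fY, fa, fc0, neg_zero, sub_zero, add_zero, g0, two_mul]
  abel

end norm


section

variable {a : Par} {N : ℕ} [NeZero N] {R : Type*} [Ring R] [Algebra ℚ R]

theorem sum_erase3 {M : Type*} [AddCommMonoid M] (f : G N → M) (k : G N) (h0 : f 0 = 0)
    (hk : f k = 0) (hmk : f (-k) = 0) :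
    ∑ j ∈ (((Finset.univ : Finset (G N)).erase 0).erase k).erase (-k), f j = ∑ j, f j := by
  rw [Finset.sum_erase _ hmk, Finset.sum_erase _ hk, Finset.sum_erase _ h0]

theorem Lx_mem (hat : Additive (Gn a N → ℂˣ) →+ R) (φ : ℂ → ℂ → ℂ) (k : G N) :
    Lx hat φ k ∈ Lt hat := hat_mem hat _

theorem nz_mem (hat : Additive (Gn a N → ℂˣ) →+ R) (φ : ℂ → ℂ → ℂ) (k : G N) :
    nz (Lx hat φ) k ∈ Lt hat :=
  (Lt hat).sub_mem (Lx_mem hat φ k)
    ((Lt hat).smul_mem _ ((Lt hat).sum_mem (fun j _ => Lx_mem hat φ j)))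

theorem gc_mem (hat : Additive (Gn a N → ℂˣ) →+ R) (k : G N) : gc hat k ∈ Lt hat := by
  rw [gc]
  split_ifs
  · exact (Lt hat).zero_mem
  · exact hat_mem hat _

theorem gc_zero (hat : Additive (Gn a N → ℂˣ) →+ R) : gc hat 0 = 0 := by
  rw [gc, if_pos rfl]

theorem fa_mem {hat : Additive (Gn a N → ℂˣ) →+ R} {x g : G N → R} (hx : ∀ k, x k ∈ Lt hat)
    (hg : ∀ k, g k ∈ Lt hat) (k : G N) : fa x g k ∈ Lt hat := by
  simp only [fa, two_mul]
  exact (Lt hat).sub_mem ((Lt hat).sub_mem ((Lt hat).add_mem (hx _) (hx _))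
    ((Lt hat).add_mem (hx _) (hx _))) ((Lt hat).add_mem (hg _) (hg _))

theorem fc0_mem {hat : Additive (Gn a N → ℂˣ) →+ R} {g : G N → R}
    (hg : ∀ k, g k ∈ Lt hat) (k j : G N) : fc0 g k j ∈ Lt hat := by
  simp only [fc0, two_mul]
  exact (Lt hat).sub_mem ((Lt hat).sub_mem ((Lt hat).add_mem (hg _) (hg _))
    ((Lt hat).add_mem (hg _) (hg _))) ((Lt hat).add_mem (hg _) (hg _))

/-- the sum over `j` of the one variable terms -/
theorem sum_Y (hat : Additive (Gn a N → ℂˣ) →+ R) (hsq : ∀ x, hat x * hat x = 0)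
    {x g : G N → R} (hx : ∀ k, x k ∈ Lt hat) (hg : ∀ k, g k ∈ Lt hat) (g0 : g 0 = 0)
    (gn : ∀ k, g (-k) = g k) (k : G N) (c d : R) :
    ∑ j ∈ (((Finset.univ : Finset (G N)).erase 0).erase k).erase (-k),
      fY1 x g k j * fY x g k j * c * d = ∑ j, fY1 x g k j * fY x g k j * c * d := by
  refine sum_erase3 _ k ?_ ?_ ?_
  · rw [fY_zero x g0, mul_zero, zero_mul, zero_mul]
  · have h : fY1 x g k k * fY x g k k = 0 :=
      Lt_sq hat hsq ((Lt hat).sub_mem (fa_mem hx hg k) (fc0_mem hg k k))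
    rw [h, zero_mul, zero_mul]
  · have e : fY x g k (-k) = fY1 x g k (-k) := by
      simp only [fY, fY1]
      rw [fa_neg x gn]
    have h : fY1 x g k (-k) * fY x g k (-k) = 0 := by
      rw [e]
      exact Lt_sq hat hsq ((Lt hat).sub_mem (fa_mem hx hg k) (fc0_mem hg k (-k)))
    rw [h, zero_mul, zero_mul]

theorem xi_dl (hat : Additive (Gn a N → ℂˣ) →+ R) (hsq : ∀ x, hat x * hat x = 0)
    (W : G N → G N → ℤ) (s t : G N) :
    xi a W (fun F g h => co hat (tr a s t (fun u v => 1 - F u v)) * co hat (tr a s t F) *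
      co hat (tr a s t g) * co hat (tr a s t h)) =
    dl W (sh (nz (Lx hat (fun u _ => u))) s) (sh (nz (Lx hat (fun _ v => v))) t)
      (sh (nz (Lx hat (fun u v => u - v))) (s - t)) (sh (nz (Lx hat (fun u v => u + v))) (s + t))
      (gc hat) (av (Lx hat (fun u v => u + v)) + av (Lx hat (fun u v => u - v)) -
        2 * av (Lx hat (fun u _ => u)) - 2 * av (Lx hat (fun _ v => v))) := by
  have hN : 0 < N := Nat.pos_of_ne_zero (NeZero.ne N)
  set U := nz (Lx hat (fun u _ => u)) with hU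
  set V := nz (Lx hat (fun _ v => v)) with hV
  set Wl := nz (Lx hat (fun u v => u - v)) with hWl
  set Zl := nz (Lx hat (fun u v => u + v)) with hZl
  set g := gc hat with hg
  have g0 : g 0 = 0 := gc_zero hat
  have gn : ∀ k, g (-k) = g k := gc_neg hat hN
  have hUm : ∀ k, sh U s k ∈ Lt hat := fun k => nz_mem hat _ _
  have hVm : ∀ k, sh V t k ∈ Lt hat := fun k => nz_mem hat _ _
  have hgm : ∀ k, g k ∈ Lt hat := gc_mem hat
  unfold xi dl
  rw [← Finset.sum_erase (a := (0 : G N)) Finset.univ]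
  swap
  · refine Finset.sum_eq_zero (fun l _ => ?_)
    simp only [fA_zero, mul_zero, zero_mul, Finset.sum_const_zero, fY1_zero _ g0 gn, add_zero,
      smul_zero]
  refine Finset.sum_congr rfl (fun k hk => ?_)
  have hk0 : k ≠ 0 := (Finset.mem_erase.1 hk).1
  rw [← Finset.sum_erase (a := (0 : G N)) Finset.univ]
  swap
  · simp only [fA_zero, mul_zero, zero_mul, Finset.sum_const_zero, fY1_zero _ g0 gn, add_zero,
      smul_zero]
  refine Finset.sum_congr rfl (fun l hl => ?_)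
  have hl0 : l ≠ 0 := (Finset.mem_erase.1 hl).1
  congr 1
  congr 1
  congr 1
  · rw [zsmul_eq_mul]
    have e4 : ((4 : ℤ) : R) = 4 := by norm_num
    rw [e4]
    congr 1
    rw [← Finset.sum_erase (a := (0 : G N)) Finset.univ]
    swap
    · rw [fF_zero, mul_zero, zero_mul, zero_mul]
    refine Finset.sum_congr rfl (fun h hh => ?_)
    have hh0 : h ≠ 0 := (Finset.mem_erase.1 hh).1
    beta_reduce
    rw [cls_F hat s t hh0, cls_F1 hat s t hh0, cls_Au hat s t hk0, cls_Av hat s t hl0, fF_nz,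
      fF1_nz, fA_nz (Lx hat (fun u _ => u)) s k, fA_nz (Lx hat (fun _ v => v)) t l]
  · rw [← sum_Y hat hsq hUm hgm g0 gn k]
    refine Finset.sum_congr rfl (fun j hj => ?_)
    obtain ⟨h1, h2⟩ := Finset.mem_erase.1 hj
    obtain ⟨h3, h4⟩ := Finset.mem_erase.1 h2
    have h5 := (Finset.mem_erase.1 h4).1
    beta_reduce
    rw [cls_Yu hat s t hk0 h5 h3 h1, cls_Y1u hat s t hk0 h5 h3 h1, cls_C hat s t,
      cls_Av hat s t hl0, fY1_nz, fY_nz, fC_nz, fA_nz]
  · rw [← sum_Y hat hsq hVm hgm g0 gn l]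
    refine Finset.sum_congr rfl (fun j hj => ?_)
    obtain ⟨h1, h2⟩ := Finset.mem_erase.1 hj
    obtain ⟨h3, h4⟩ := Finset.mem_erase.1 h2
    have h5 := (Finset.mem_erase.1 h4).1
    beta_reduce
    rw [cls_Yv hat s t hl0 h5 h3 h1, cls_Y1v hat s t hl0 h5 h3 h1, cls_C hat s t,
      cls_Au hat s t hk0, fY1_nz, fY_nz, fC_nz, fA_nz]

theorem xi_map {B B' : Type*} [AddCommGroup B] [AddCommGroup B'] (lam : B →+ B')
    (W : G N → G N → ℤ) (T : (ℂ → ℂ → ℂ) → (ℂ → ℂ → ℂ) → (ℂ → ℂ → ℂ) → B) :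
    xi a W (fun F g h => lam (T F g h)) = lam (xi a W T) := by
  unfold xi
  simp only [map_sum, map_add, map_zsmul]

/-! ### the distribution relation for the constants -/

theorem co_const_mul (hat : Additive (Gn a N → ℂˣ) →+ R) {x y : ℂ} (hx : x ≠ 0) (hy : y ≠ 0) :
    co hat (fun _ _ => x * y) = co hat (fun _ _ => x) + co hat (fun _ _ => y) :=
  co_mul hat (fun _ => hx) (fun _ => hy)

theorem dist_gc (hat : Additive (Gn a N → ℂˣ) →+ R) (d d' : ℤ × ℤ)
    (hd : de a d * de a d' = N) : ∃ CA : R, ∀ l : G N, (∃ k, sm a d k = l) →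
      ∑ k ∈ Finset.univ.filter (fun k : G N => sm a d k = l), gc hat k =
        gc hat l + CA + if l = 0 then co hat (fun _ _ => de a d) else 0 := by
  have hN : 0 < N := Nat.pos_of_ne_zero (NeZero.ne N)
  have hNC : (N : ℂ) ≠ 0 := Nat.cast_ne_zero.2 hN.ne'
  have hde : de a d ≠ 0 := fun h => by
    rw [h, zero_mul] at hd
    exact hNC hd.symm
  obtain ⟨C, hC, h1, e0, he0, h2⟩ := dist a N d d' hd
  have hkl : ∀ k : G N, k ≠ 0 → kl a (tp a k) 0 ≠ 0 := by
    intro k hk
    refine kl_ne a ?_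
    rw [zero_sub]
    exact Pool.Agent.EllSch.off_neg.2 (ofl_tp a hN hk)
  have hru : ∀ {e : ℂ}, Ru e → e ≠ 0 := by
    rintro e ⟨m, hm, he⟩ rfl
    rw [zero_pow hm.ne'] at he
    exact zero_ne_one he
  have hgc : ∀ k : G N, k ≠ 0 → gc hat k = co hat (fun _ _ => kl a (tp a k) 0) := by
    intro k hk
    rw [gc, if_neg hk]
  refine ⟨co hat (fun _ _ => C), fun l hl => ?_⟩
  by_cases hl0 : l = 0
  · subst hl0
    rw [if_pos rfl, gc_zero, zero_add]
    have a1 : ∑ k ∈ Finset.univ.filter (fun k : G N => sm a d k = 0), gc hat k =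
        ∑ k ∈ (Finset.univ.filter (fun k : G N => sm a d k = 0)).erase 0, gc hat k :=
      (Finset.sum_erase _ (gc_zero hat)).symm
    rw [a1]
    have a2 : ∑ k ∈ (Finset.univ.filter (fun k : G N => sm a d k = 0)).erase 0, gc hat k =
        co hat (fun _ _ => ∏ k ∈ (Finset.univ.filter (fun k : G N => sm a d k = 0)).erase 0,
          kl a (tp a k) 0) := by
      rw [co_prod hat _ (f := fun k _ _ => kl a (tp a k) 0)
        (fun k hk _ => hkl k (Finset.mem_erase.1 hk).1)]
      exact Finset.sum_congr rfl (fun k hk => hgc k (Finset.mem_erase.1 hk).1)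
    have a3 : ∏ k ∈ (Finset.univ.filter (fun k : G N => sm a d k = 0)).erase 0,
        kl a (tp a k) 0 = e0 * C * de a d := by
      convert h2
    rw [a2, a3, co_const_mul hat (mul_ne_zero (hru he0) hC) hde, co_const_mul hat (hru he0) hC,
      co_ru hat he0, zero_add]
  · rw [if_neg hl0, add_zero]
    obtain ⟨e, he, h3⟩ := h1 l hl0 hl
    have hk0 : ∀ k ∈ Finset.univ.filter (fun k : G N => sm a d k = l), k ≠ 0 := by
      rintro k hk rfl
      have h4 := (Finset.mem_filter.1 hk).2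
      apply hl0
      rw [← h4]
      refine Prod.ext ?_ ?_ <;> simp [sm]
    have a2 : ∑ k ∈ Finset.univ.filter (fun k : G N => sm a d k = l), gc hat k =
        co hat (fun _ _ => ∏ k ∈ Finset.univ.filter (fun k : G N => sm a d k = l),
          kl a (tp a k) 0) := by
      rw [co_prod hat _ (f := fun k _ _ => kl a (tp a k) 0) (fun k hk _ => hkl k (hk0 k hk))]
      exact Finset.sum_congr rfl (fun k hk => hgc k (hk0 k hk))
    have a3 : ∏ k ∈ Finset.univ.filter (fun k : G N => sm a d k = l),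
        kl a (tp a k) 0 = e * C * kl a (tp a l) 0 := by
      convert h3
    rw [a2, a3, co_const_mul hat (mul_ne_zero (hru he) hC) (hkl l hl0),
      co_const_mul hat (hru he) hC, co_ru hat he, zero_add, hgc l hl0, add_comm]

theorem sm_al (k : G N) : sm a (0, 1) k = sA a k := by
  refine Prod.ext ?_ ?_ <;> simp [sm, sA]

theorem sm_be (k : G N) : sm a (1, -1) k = sB a k := by
  refine Prod.ext ?_ ?_
  · simp [sm, sB, sA]
  · simp [sm, sB, sA]
    ring

theorem K_zero (hat : Additive (Gn a N → ℂˣ) →+ R) (c : ℕ) (hc : c.Prime)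
    (hN : (2 * c * nab a : ℤ) ∣ N) (d : G N) :
    ∑ k : G N, (Wt a c k d - Wt a c k (k + d)) • gc hat k = 0 := by
  have hN0 : 0 < N := Nat.pos_of_ne_zero (NeZero.ne N)
  -- complementary elements
  obtain ⟨M, hM⟩ : (a.A * a.C : ℤ) ∣ N :=
    (Dvd.intro_left (2 * c * (1 - a.B + a.A * a.C)) (by rw [nab]; ring)).trans hN
  obtain ⟨M', hM'⟩ : (1 - a.B + a.A * a.C : ℤ) ∣ N :=
    (Dvd.intro_left (2 * c * (a.A * a.C)) (by rw [nab]; ring)).trans hN
  have hM1 : (N : ℂ) = (a.A * a.C : ℤ) * M := by exact_mod_cast hM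
  have hM2 : (N : ℂ) = (1 - a.B + a.A * a.C : ℤ) * M' := by exact_mod_cast hM'
  have d1 : de a (0, 1) * de a (a.B * M, -M) = N := by
    rw [hM1]
    simp only [de]
    push_cast
    have h := alp_sq a
    push_cast at h
    linear_combination (-(M : ℂ)) * h
  have d2 : de a (1, -1) * de a ((1 - a.B) * M', M') = N := by
    rw [hM2]
    simp only [de]
    push_cast
    have h := alp_sq a
    push_cast at h
    linear_combination (-(M' : ℂ)) * h
  obtain ⟨CA, hCA⟩ := dist_gc hat (0, 1) (a.B * M, -M) d1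
  obtain ⟨CB, hCB⟩ := dist_gc hat (1, -1) ((1 - a.B) * M', M') d2
  simp only [sm_al] at hCA
  simp only [sm_be] at hCB
  refine UNI.kd_zero ((mA a).azh N) ((mB a).azh N) ?_ (HH c) (HH_symm c) (HH_neg c) (HH_add c)
    (HH_row c hc N (c_dvd a hN)) ?_ (gc hat) (gc_neg hat hN0) CA CB
    (co hat (fun _ _ => de a (0, 1))) (co hat (fun _ _ => de a (1, -1))) ?_ ?_ (Wt a c) ?_ d
  · intro k
    simp only [M2.azh_apply, mA_az, mB_az]
    rw [sB, add_sub_cancel]
  · intro k l h
    obtain ⟨m, hm⟩ := (mAB a).exists_pre (dvd_AB a hN) (HH_supp c h).1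
    refine ⟨m, ?_⟩
    simp only [M2.azh_apply, mA_az, mB_az]
    rw [← mAB_az, hm]
  · intro l hl
    simp only [M2.azh_apply, mA_az] at hl ⊢
    exact hCA l hl
  · intro l hl
    simp only [M2.azh_apply, mB_az] at hl ⊢
    exact hCB l hl
  · intro k l
    simp only [M2.azh_apply, mA_az, mB_az, Wt, Wh]

end

/-- the sum of all translates of `ξ` is closed -/
theorem closed' (a : Par) (c : ℕ) (hc : c.Prime) (N : ℕ) [NeZero N]
    (hN : (2 * c * nab a : ℤ) ∣ N) (Φ : (Additive (Gn a N → ℂˣ)) [⋀^Fin 4]→ₗ[ℤ] ℂ) :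
    bdry a (Wt a c : G N → G N → ℤ) Φ = 0 := by
  obtain ⟨R, iR, iA, hat, lam, hsq, hlam⟩ := UNI.ext_ring Φ
  have hN0 : 0 < N := Nat.pos_of_ne_zero (NeZero.ne N)
  have h1 : ∀ s t : G N, xi a (Wt a c : G N → G N → ℤ) (fun F g h =>
      Φ ![cl a N (tr a s t (fun u v => 1 - F u v)), cl a N (tr a s t F), cl a N (tr a s t g),
        cl a N (tr a s t h)]) =
      lam (dl (Wt a c) (sh (nz (Lx hat (fun u _ => u))) s) (sh (nz (Lx hat (fun _ v => v))) t)
      (sh (nz (Lx hat (fun u v => u - v))) (s - t)) (sh (nz (Lx hat (fun u v => u + v))) (s + t))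
      (gc hat) (av (Lx hat (fun u v => u + v)) + av (Lx hat (fun u v => u - v)) -
        2 * av (Lx hat (fun u _ => u)) - 2 * av (Lx hat (fun _ v => v)))) := by
    intro s t
    rw [← xi_dl hat hsq, ← xi_map]
    simp only [co, hlam]
  unfold bdry
  simp_rw [h1]
  simp only [← map_sum]
  have h2 : ∀ eps : R, ∑ s : G N, ∑ t : G N,
      dl (Wt a c) (sh (nz (Lx hat (fun u _ => u))) s) (sh (nz (Lx hat (fun _ v => v))) t)
      (sh (nz (Lx hat (fun u v => u - v))) (s - t)) (sh (nz (Lx hat (fun u v => u + v))) (s + t))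
      (gc hat) eps = 0 := by
    intro eps
    refine UNI.form (Lt hat).toAddSubgroup (fun x hx => Lt_sq hat hsq hx)
      _ _ _ _ _ (fun k => nz_mem hat _ k) (fun k => nz_mem hat _ k) (fun k => nz_mem hat _ k)
      (fun k => gc_mem hat k) eps (nz_sum _) (nz_sum _) (nz_sum _) (gc_neg hat hN0) (Wt a c)
      (Wt_even a c) (Wt_anti a c) (Wt_row a c hc N hN) ?_ (K_zero hat c hc hN)
    intro k l h
    have h2 := Wt_supp a c N hN k l h
    have hev : 2 ∣ N := by
      have : (2 : ℤ) ∣ N := (Dvd.intro (c * nab a) (by ring)).trans hN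
      exact_mod_cast this
    obtain ⟨M, hM⟩ := hev
    have key : ∀ x : ZMod N, ((N / 2 : ℕ) : ZMod N) * x = 0 → ∃ y : ZMod N, x = y + y := by
      intro x hx
      have h3 : ((N / 2 * x.val : ℕ) : ZMod N) = 0 := by
        push_cast
        rw [ZMod.natCast_zmod_val]
        exact hx
      rw [ZMod.natCast_eq_zero_iff] at h3
      have h4 : N / 2 = M := by omega
      rw [h4] at h3
      have hM0 : 0 < M := by omega
      have h5 : M * 2 ∣ M * x.val := by
        have : M * 2 = N := by omega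
        rw [this]
        exact h3
      obtain ⟨y, hy⟩ := (Nat.mul_dvd_mul_iff_left hM0).1 h5
      refine ⟨(y : ZMod N), ?_⟩
      have h6 : x = ((x.val : ℕ) : ZMod N) := (ZMod.natCast_zmod_val x).symm
      rw [h6, hy]
      push_cast
      ring
    have e1 : ((N / 2 : ℕ) : ZMod N) * k.1 = 0 := by
      have := congrArg Prod.fst h2
      simpa using this
    have e2 : ((N / 2 : ℕ) : ZMod N) * k.2 = 0 := by
      have := congrArg Prod.snd h2
      simpa using this
    obtain ⟨y1, hy1⟩ := key _ e1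
    obtain ⟨y2, hy2⟩ := key _ e2
    exact ⟨(y1, y2), Prod.ext hy1 hy2⟩
  rw [h2]
  exact map_zero lam

end

end UNL
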