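import Pool.Agent.UNL.Defs
import Pool.Agent.QCL.Sig

/-!
# UNL (A): definitions for the closedness part

Klein functions of the lattice `L = ℤ + ℤ τ`.
-/

open Complex

namespace UNL

noncomputable section

/-- the `ℝ`-linear extension of the quasi periods of `L` -/
def et (a : Par) (z : ℂ) : ℂ :=
  ((z.re - a.B * z.im / sD a : ℝ) : ℂ) * Pool.Agent.EllSch.eta1 1 (tau a) +
    ((2 * a.A * z.im / sD a : ℝ) : ℂ) * Pool.Agent.EllSch.eta2 1 (tau a)

/-- the Weierstrass sigma function of `L` -/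
def sg (a : Par) (z : ℂ) : ℂ := QCL.sig 1 (tau a) z

/-- the Klein function `exp (η(k) z - η(k) k / 2) σ (z - k)` -/
def kl (a : Par) (k z : ℂ) : ℂ := exp (et a k * z - et a k * k / 2) * sg a (z - k)

/-- a root of unity -/
def Ru (e : ℂ) : Prop := ∃ m : ℕ, 0 < m ∧ e ^ m = 1

/-- `z ∈ (1/N) L` -/
def Tn (a : Par) (N : ℕ) (z : ℂ) : Prop := ∃ x : ℤ × ℤ, (N : ℂ) * z = xx a x

/-- the number `d.1 + d.2 α` -/
def de (a : Par) (d : ℤ × ℤ) : ℂ := d.1 + d.2 * alp a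

/-- multiplication by `d.1 + d.2 α` on the coordinates of `L` -/
def ml (a : Par) (d m : ℤ × ℤ) : ℤ × ℤ :=
  (d.1 * m.1 - a.C * d.2 * m.2, d.1 * m.2 + d.2 * (a.A * m.1 + a.B * m.2))

/-- multiplication by `d.1 + d.2 α` on `(1/N) L / L` -/
def sm (a : Par) {N : ℕ} (d : ℤ × ℤ) (k : G N) : G N :=
  (d.1 * k.1 - a.C * d.2 * k.2, d.1 * k.2 + d.2 * (a.A * k.1 + a.B * k.2))

end

end UNL
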