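import Pool.Agent.UNL.Defs
import Pool.Agent.UBC.Gen

/-!
# UNL: basic facts on `τ`, `α = A τ`, the lattice of frequencies and its endomorphism `nA`
-/

namespace UNL

open Pool.Agent

theorem sD_pos (a : Par) : 0 < sD a := by
  have h := a.hD
  have h2 : ((a.B ^ 2 : ℤ) : ℝ) < ((4 * a.A * a.C : ℤ) : ℝ) := by exact_mod_cast h
  push_cast at h2
  exact Real.sqrt_pos.2 (by linarith)

theorem sD_sq (a : Par) : sD a ^ 2 = 4 * a.A * a.C - a.B ^ 2 := by
  have h := a.hD
  have h2 : ((a.B ^ 2 : ℤ) : ℝ) < ((4 * a.A * a.C : ℤ) : ℝ) := by exact_mod_cast h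
  push_cast at h2
  exact Real.sq_sqrt (by linarith)

theorem A_pos (a : Par) : (0 : ℝ) < a.A := by
  have := a.hA
  exact_mod_cast this

theorem A_ne (a : Par) : (a.A : ℂ) ≠ 0 := by
  have := a.hA
  exact_mod_cast this.ne'

theorem tau_im (a : Par) : (tau a).im = sD a / (2 * a.A) := by
  have h : (2 * (a.A : ℂ)) = ((2 * a.A : ℝ) : ℂ) := by push_cast; ring
  rw [tau, h, Complex.div_ofReal_im]
  simp

theorem tau_re (a : Par) : (tau a).re = a.B / (2 * a.A) := by
  have h : (2 * (a.A : ℂ)) = ((2 * a.A : ℝ) : ℂ) := by push_cast; ring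
  rw [tau, h, Complex.div_ofReal_re]
  simp

theorem tau_im_pos (a : Par) : 0 < (tau a).im := by
  rw [tau_im]
  have := sD_pos a
  have := A_pos a
  positivity

theorem two_A_tau (a : Par) : 2 * (a.A : ℂ) * tau a = a.B + (sD a : ℂ) * Complex.I := by
  have := A_ne a
  simp only [tau]
  field_simp

theorem two_A_ctau (a : Par) : 2 * (a.A : ℂ) * cj (tau a) = a.B - (sD a : ℂ) * Complex.I := by
  have h := congrArg cj (two_A_tau a)
  simp only [cj, map_mul, map_add, Complex.conj_I, Complex.conj_ofReal, map_intCast,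
    map_ofNat] at h
  simp only [cj]
  linear_combination h

/-- `A (τ + τ̄) = B` -/
theorem tau_trace (a : Par) : (a.A : ℂ) * (tau a + cj (tau a)) = a.B := by
  linear_combination (1 / 2 : ℂ) * two_A_tau a + (1 / 2 : ℂ) * two_A_ctau a

/-- `A τ τ̄ = C` -/
theorem tau_norm (a : Par) : (a.A : ℂ) * (tau a * cj (tau a)) = a.C := by
  have hA := A_ne a
  have h1 := two_A_tau a
  have h2 := two_A_ctau a
  have h3 : ((sD a : ℝ) : ℂ) ^ 2 = 4 * a.A * a.C - a.B ^ 2 := by
    rw [← Complex.ofReal_pow, sD_sq]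
    push_cast
    ring
  have h4 : 4 * (a.A : ℂ) ^ 2 * (tau a * cj (tau a)) = 4 * a.A * a.C := by
    have : 4 * (a.A : ℂ) ^ 2 * (tau a * cj (tau a)) =
        (2 * (a.A : ℂ) * tau a) * (2 * (a.A : ℂ) * cj (tau a)) := by ring
    rw [this, h1, h2]
    linear_combination h3 - (sD a : ℂ) ^ 2 * Complex.I_sq
  have h5 : (4 * (a.A : ℂ)) * ((a.A : ℂ) * (tau a * cj (tau a)) - a.C) = 0 := by
    linear_combination h4
  have h6 : (4 * (a.A : ℂ)) ≠ 0 := mul_ne_zero (by norm_num) hA
  exact sub_eq_zero.1 ((mul_eq_zero.1 h5).resolve_left h6)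

/-- `α ᾱ = A C` -/
theorem alp_norm (a : Par) : alp a * cj (alp a) = (a.A * a.C : ℤ) := by
  have h := tau_norm a
  simp only [alp, cj, map_mul, map_intCast] at h ⊢
  push_cast
  linear_combination (a.A : ℂ) * h

/-- `α + ᾱ = B` -/
theorem alp_trace (a : Par) : alp a + cj (alp a) = a.B := by
  have h := tau_trace a
  simp only [alp, cj, map_mul, map_intCast] at h ⊢
  linear_combination h

/-- `α² = B α - A C` -/
theorem alp_sq (a : Par) : alp a ^ 2 = a.B * alp a - (a.A * a.C : ℤ) := by
  linear_combination alp a * alp_trace a - alp_norm a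

/-- `(1 - α) (1 - ᾱ) = 1 - B + A C` -/
theorem bet_norm (a : Par) : (1 - alp a) * (1 - cj (alp a)) = (1 - a.B + a.A * a.C : ℤ) := by
  have h := alp_norm a
  push_cast at h ⊢
  linear_combination h - alp_trace a

theorem alp_im (a : Par) : (alp a).im = sD a / 2 := by
  have hA := A_pos a
  have h : (a.A : ℂ) = ((a.A : ℝ) : ℂ) := by push_cast; ring
  rw [alp, h, Complex.im_ofReal_mul, tau_im]
  field_simp

theorem alp_im_pos (a : Par) : 0 < (alp a).im := by
  rw [alp_im]
  have := sD_pos a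
  positivity

theorem alp_ne (a : Par) : alp a ≠ 0 := by
  intro h
  have := alp_im_pos a
  simp [h] at this

theorem bet_ne (a : Par) : 1 - alp a ≠ 0 := by
  intro h
  have := alp_im_pos a
  have h2 : alp a = 1 := by linear_combination -h
  simp [h2] at this

theorem mm_add (a : Par) (m n : ℤ × ℤ) : mm a (m + n) = mm a m + mm a n := by
  simp only [mm, Prod.fst_add, Prod.snd_add]; push_cast; ring

theorem mm_sub (a : Par) (m n : ℤ × ℤ) : mm a (m - n) = mm a m - mm a n := by
  simp only [mm, Prod.fst_sub, Prod.snd_sub]; push_cast; ring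

theorem mm_neg (a : Par) (m : ℤ × ℤ) : mm a (-m) = -mm a m := by
  simp only [mm, Prod.fst_neg, Prod.snd_neg]; push_cast; ring

theorem mm_zero (a : Par) : mm a 0 = 0 := by simp [mm]

theorem mm_nA (a : Par) (n : ℤ × ℤ) : mm a (nA a n) = alp a * mm a n := by
  have h1 := tau_norm a
  have h2 := tau_trace a
  simp only [mm, nA, alp, cj] at h1 h2 ⊢
  push_cast
  linear_combination (n.2 : ℂ) * h1 - (n.1 : ℂ) * h2

theorem mm_nB (a : Par) (n : ℤ × ℤ) : mm a (nB a n) = (1 - alp a) * mm a n := by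
  rw [nB, mm_sub, mm_nA]; ring

/-- `mm a n = n.1 + n.2 v` with `v = -τ̄`, `Im v > 0` -/
theorem mm_inj (a : Par) : Function.Injective (mm a) := by
  intro m n h
  have him : (0 : ℝ) < (-cj (tau a)).im := by
    simpa [cj] using tau_im_pos a
  refine UBC.el_inj (al := -cj (tau a)) him ?_
  simp only [mm] at h
  simp only [UBC.el, cj]
  linear_combination h

theorem mm_eq_zero (a : Par) {n : ℤ × ℤ} : mm a n = 0 ↔ n = 0 := by
  constructor
  · intro h
    exact mm_inj a (h.trans (mm_zero a).symm)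
  · rintro rfl
    exact mm_zero a

theorem nA_inj (a : Par) : Function.Injective (nA a) := by
  intro p q h
  have h1 := congrArg (mm a) h
  rw [mm_nA, mm_nA] at h1
  exact mm_inj a (mul_left_cancel₀ (alp_ne a) h1)

theorem nB_inj (a : Par) : Function.Injective (nB a) := by
  intro p q h
  have h1 := congrArg (mm a) h
  rw [mm_nB, mm_nB] at h1
  exact mm_inj a (mul_left_cancel₀ (bet_ne a) h1)

theorem mm_sum3 (a : Par) : Summable fun p : ℤ × ℤ => ‖mm a p‖⁻¹ ^ 3 := by
  have him : (0 : ℝ) < (-cj (tau a) / 1).im := by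
    simpa [cj] using tau_im_pos a
  refine (UBC.LD.sum3_of one_ne_zero him).congr fun p => ?_
  have : (p.1 : ℂ) * 1 + p.2 * (-cj (tau a)) = mm a p := by
    simp only [mm, cj]; ring
  rw [this]

noncomputable section

/-- the lattice of frequencies with the endomorphism `nA` -/
def LDa (a : Par) : UBC.LD where
  xx := { toFun := mm a, map_zero' := mm_zero a, map_add' := mm_add a }
  A := { toFun := nA a, map_zero' := by simp [nA],
         map_add' := fun m n => by
          simp only [nA, Prod.fst_add, Prod.snd_add, Prod.mk_add_mk, Prod.mk.injEq]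
          constructor <;> ring }
  al := alp a
  hA := mm_nA a
  inj := mm_inj a
  sum3 := mm_sum3 a
  ha := alp_ne a
  hb := bet_ne a

end

theorem LDa_xx (a : Par) (m : ℤ × ℤ) : (LDa a).xx m = mm a m := rfl
theorem LDa_A (a : Par) (m : ℤ × ℤ) : (LDa a).A m = nA a m := rfl
theorem LDa_B (a : Par) (m : ℤ × ℤ) : (LDa a).B m = nB a m := rfl
theorem LDa_al (a : Par) : (LDa a).al = alp a := rfl

theorem KK_ker (x y : ℂ) : KK x y = UBC.kerC x y := by
  simp only [KK, UBC.kerC, UBC.ker0, cj, map_sub]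

end UNL
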