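import Pool.Agent.UNL.Iso
import Pool.Agent.K3R.LFunLattice

/-!
# UNL: all ideal classes on one curve, the L-function and the integral
-/

open MeasureTheory

namespace UNL.Gen

noncomputable section

/-! ### the partial L-functions -/

private theorem Z_lat (a : Par) (p : ℤ × ℤ) :
    LatL.lat (-(tau a).re) (tau a).im p = mm a p := by
  simp only [LatL.lat, mm]
  apply Complex.ext
  · simp
    ring
  · simp

/-- the L-function of the lattice of frequencies, with its zero at `-1` -/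
theorem Lfun0 (a : Par) : ∃ L : ℂ → ℂ, Differentiable ℂ L ∧
    (∀ s : ℂ, 2 < s.re → HasSum (fun m : ℤ × ℤ =>
      if m = 0 then 0 else mm a m ^ 2 / ((‖mm a m‖ ^ 2 : ℝ) : ℂ) ^ s) (L s)) ∧
    deriv L (-1) = -(6 * (sD a / (2 * a.A * Real.pi)) ^ 5 : ℝ) * E42 a ∧ L (-1) = 0 ∧
    L 4 = E42 a := by
  have hy := tau_im_pos a
  have hd := LatL.Z_diff (-(tau a).re) hy
  have h1 := LatL.hasDerivAt_Z (-(tau a).re) hy
  have h0 := LatL.Z_neg_one (-(tau a).re) hy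
  have hs' : ∀ s : ℂ, 2 < s.re → HasSum (fun m : ℤ × ℤ =>
      if m = 0 then 0 else mm a m ^ 2 / ((‖mm a m‖ ^ 2 : ℝ) : ℂ) ^ s)
        (LatL.Z (-(tau a).re) hy s) := by
    intro s h
    have h2 := LatL.hasSum_Z (-(tau a).re) hy h
    refine LatL.hsC h2 ?_
    intro m
    rw [LatL.Q_eq, Z_lat]
    by_cases h0 : m = 0
    · rw [if_pos h0, h0, mm_zero]
      simp
    · rw [if_neg h0]
  have hZ4 : LatL.Z (-(tau a).re) hy 4 = E42 a := by
    rw [← (hs' 4 (by norm_num)).tsum_eq, E42]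
    refine tsum_congr (fun m => ?_)
    by_cases h0 : m = 0
    · rw [if_pos h0, h0, mm_zero]
      simp
    · rw [if_neg h0]
      exact Fin_pow _ (fun h => h0 ((mm_eq_zero a).1 h))
  refine ⟨LatL.Z (-(tau a).re) hy, hd, hs', ?_, h0, hZ4⟩
  rw [h1.deriv, hZ4]
  congr 2
  rw [tau_im]
  have := A_pos a
  have := Real.pi_pos
  field_simp
  push_cast
  ring

/-- the element `A m₁ + m₂ α` of the ideal `A ℤ + α ℤ` -/
def ia (o a : Par) (m : ℤ × ℤ) : ℂ := a.A * m.1 + m.2 * tau o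

lemma ia_eq {o a : Par} (h : Rel o a) (m : ℤ × ℤ) : ia o a m = a.A * xx a m := by
  rw [ia, h.tau, alp, xx]
  ring

/-- the Dirichlet series of an ideal -/
theorem ideal_series {o a : Par} (h : Rel o a) {s l : ℂ}
    (hs : HasSum (fun m : ℤ × ℤ =>
      if m = 0 then 0 else mm a m ^ 2 / ((‖mm a m‖ ^ 2 : ℝ) : ℂ) ^ s) l) :
    HasSum (fun m : ℤ × ℤ => cj (ia o a m) ^ 2 / ((‖ia o a m‖ ^ 2 / a.A : ℝ) : ℂ) ^ s)
      ((a.A : ℂ) ^ (2 - s) * l) := by
  have hs2 := hs.mul_left ((a.A : ℂ) ^ (2 - s))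
  rw [← (Equiv.prodCongr (Equiv.refl ℤ) (Equiv.neg ℤ)).hasSum_iff] at hs2
  refine LatL.hsC hs2 fun m => ?_
  have e : UNL.mm a ((Equiv.prodCongr (Equiv.refl ℤ) (Equiv.neg ℤ)) m) = cj (xx a m) := by
    simp only [UNL.mm, xx, cj, Equiv.prodCongr_apply, Prod.map_fst, Prod.map_snd, Equiv.refl_apply,
      Equiv.neg_apply, map_add, map_mul, map_intCast]
    push_cast
    ring
  simp only [Function.comp]
  by_cases h0 : m = 0
  · subst h0
    have hz : (Equiv.prodCongr (Equiv.refl ℤ) (Equiv.neg ℤ)) (0 : ℤ × ℤ) = 0 := by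
      ext <;> simp
    rw [hz, if_pos rfl]
    simp [ia]
  · have h1 : ((Equiv.prodCongr (Equiv.refl ℤ) (Equiv.neg ℤ)) m) ≠ 0 := by
      intro h2
      apply h0
      have h3 := (Prod.ext_iff.1 h2).1
      have h4 := (Prod.ext_iff.1 h2).2
      simp only [Equiv.prodCongr_apply, Prod.map_fst, Prod.map_snd, Equiv.refl_apply,
        Equiv.neg_apply, Prod.fst_zero, Prod.snd_zero, neg_eq_zero] at h3 h4
      exact Prod.ext h3 h4
    rw [if_neg h1, e, ia_eq h]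
    have hx : xx a m ≠ 0 := by
      intro h2
      exact h0 (xx_inj a (h2.trans (xx_zero a).symm))
    have hA := A_pos a
    have hAC := A_ne a
    have n1 : ‖cj (xx a m)‖ = ‖xx a m‖ := RCLike.norm_conj _
    have n2 : ‖(a.A : ℂ) * xx a m‖ = (a.A : ℝ) * ‖xx a m‖ := by
      have : ((a.A : ℤ) : ℂ) = ((a.A : ℝ) : ℂ) := by push_cast; rfl
      rw [norm_mul, this, Complex.norm_real, Real.norm_of_nonneg hA.le]
    rw [n1, n2]
    have e1 : ((a.A : ℝ) * ‖xx a m‖) ^ 2 / a.A = a.A * ‖xx a m‖ ^ 2 := by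
      field_simp
    rw [e1, Complex.ofReal_mul, Complex.mul_cpow_ofReal_nonneg hA.le (by positivity)]
    have e2 : cj ((a.A : ℂ) * xx a m) = a.A * cj (xx a m) := by
      simp [cj]
    rw [e2, Complex.cpow_sub _ _ hAC]
    have e3 : ((a.A : ℝ) : ℂ) = (a.A : ℂ) := by push_cast; rfl
    rw [e3]
    have e4 : (a.A : ℂ) ^ (2 : ℂ) = (a.A : ℂ) ^ 2 := by
      have := Complex.cpow_natCast (a.A : ℂ) 2
      exact_mod_cast this
    rw [e4]
    have e5 : (a.A : ℂ) ^ s ≠ 0 := by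
      rw [Complex.cpow_def_of_ne_zero hAC]
      exact Complex.exp_ne_zero _
    have e6 : ((‖xx a m‖ ^ 2 : ℝ) : ℂ) ^ s ≠ 0 := by
      have : ((‖xx a m‖ ^ 2 : ℝ) : ℂ) ≠ 0 := by
        rw [Complex.ofReal_ne_zero]
        have := norm_pos_iff.2 hx
        positivity
      rw [Complex.cpow_def_of_ne_zero this]
      exact Complex.exp_ne_zero _
    field_simp

/-- the derivative of `A^(2-s) L(s)` at `-1` if `L(-1) = 0` -/
theorem deriv_twist (a : Par) {L : ℂ → ℂ} (hd : Differentiable ℂ L) (h0 : L (-1) = 0) :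
    HasDerivAt (fun s : ℂ => (a.A : ℂ) ^ (2 - s) * L s) ((a.A : ℂ) ^ 3 * deriv L (-1)) (-1) := by
  have hA := A_ne a
  have h1 : DifferentiableAt ℂ (fun s : ℂ => (a.A : ℂ) ^ (2 - s)) (-1) :=
    ((differentiableAt_const (2 : ℂ)).sub differentiableAt_id).const_cpow (Or.inl hA)
  have h2 := h1.hasDerivAt.mul (hd (-1)).hasDerivAt
  refine (h2 : HasDerivAt (fun s : ℂ => (a.A : ℂ) ^ (2 - s) * L s) _ (-1)).congr_deriv ?_
  have e : (a.A : ℂ) ^ (2 - (-1) : ℂ) = (a.A : ℂ) ^ 3 := by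
    have := Complex.cpow_natCast (a.A : ℂ) 3
    rw [← this]
    norm_num
  rw [h0, mul_zero, zero_add, e]

lemma twist_diff (a : Par) {L : ℂ → ℂ} (hd : Differentiable ℂ L) :
    Differentiable ℂ (fun s : ℂ => (a.A : ℂ) ^ (2 - s) * L s) := by
  have hA := A_ne a
  intro s
  exact (((differentiableAt_const (2 : ℂ)).sub differentiableAt_id).const_cpow (Or.inl hA)).mul
    (hd s)

/-! ### the family -/

section family

variable {ι : Type*} (o : Par) (S : Finset ι) (a : ι → Par) (κ : ι → ℤ × ℤ)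

open Classical in
/-- the sum of the pulled back elements -/
def XA (c N : ℕ) [NeZero N] {M : Type*} [AddCommGroup M]
    (T : (ℂ → ℂ → ℂ) → (ℂ → ℂ → ℂ) → (ℂ → ℂ → ℂ) → M) : M :=
  ∑ i ∈ S.filter (fun i => κ i ≠ 0), Xi (a i) (Wt (a i) c : G N → G N → ℤ) (fun F g h =>
    T (pl (mu o (κ i).1 (κ i).2) F) (pl (mu o (κ i).1 (κ i).2) g) (pl (mu o (κ i).1 (κ i).2) h))

/-- its regulator form -/
def RA (c N : ℕ) [NeZero N] (u v : ℂ) : ℂ :=
  XA o S a κ c N (fun F g h => (EE7.BW (F u v) : ℂ) * wedge g h u v)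

open Classical in
lemma RA_eq (c N : ℕ) [NeZero N] (u v : ℂ) : RA o S a κ c N u v =
    ∑ i ∈ S.filter (fun i => κ i ≠ 0), mu o (κ i).1 (κ i).2 *
      XReg (a i) (Wt (a i) c : G N → G N → ℤ) (mu o (κ i).1 (κ i).2 * u) v := by
  simp only [RA, XA, reg_pl]

lemma nab_rel {o a : Par} (h : Rel o a) : nab a = nab o := by
  rw [nab, nab, h.h1, h.hB, h.hC]
  ring

lemma inert_rel {o a : Par} (h : Rel o a) {c : ℕ} (hc : c.Prime)
    (hin : ∀ m : ℤ × ℤ, (c : ℤ) ∣ fm o m → (c : ℤ) ∣ m.1 ∧ (c : ℤ) ∣ m.2) :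
    ∀ m : ℤ × ℤ, (c : ℤ) ∣ fm a m → (c : ℤ) ∣ m.1 ∧ (c : ℤ) ∣ m.2 := by
  have hp : Prime (c : ℤ) := Nat.prime_iff_prime_int.1 hc
  have hA : ¬ (c : ℤ) ∣ a.A := by
    intro h0
    have h1 := hin (0, 1) (by
      have : fm o (0, 1) = a.A * a.C := by
        simp only [fm, h.hC]; ring
      rw [this]
      exact Dvd.dvd.mul_right h0 _)
    exact hp.not_isUnit (isUnit_of_dvd_one h1.2)
  intro m hm
  have h1 := hin (a.A * m.1, m.2) (by
    have : fm o (a.A * m.1, m.2) = a.A * fm a m := by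
      simp only [fm, h.h1, h.hB, h.hC]; ring
    rw [this]
    exact Dvd.dvd.mul_left hm _)
  exact ⟨(hp.dvd_or_dvd h1.1).resolve_left hA, h1.2⟩

lemma rh_rel {o a : Par} (h : Rel o a) (c N : ℕ) :
    rh a c N = (a.A : ℂ) ^ 3 * rh o c N := by
  have h1 := nab_rel h
  have h2 := h.alp
  unfold rh
  rw [h1, h2, h.h1, h.hB, h.hC]
  push_cast
  have e : (4 * (a.A : ℂ) * a.C - (a.B : ℂ) ^ 2) = (4 * 1 * ((a.A : ℂ) * a.C) - (a.B : ℂ) ^ 2) := by
    ring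
  rw [e]
  ring

theorem RA_per2 (hr : ∀ i ∈ S, Rel o (a i)) (c N : ℕ) [NeZero N] :
    Per2 o (fun u v => RA o S a κ c N u v) := by
  classical
  intro u v m n
  simp only [RA_eq]
  refine Finset.sum_congr rfl fun i hi => ?_
  have h := per_pull (hr i (Finset.mem_filter.1 hi).1) (κ i).1 (κ i).2
    (XReg_per2 (a i) (Wt (a i) c : G N → G N → ℤ)) u v m n
  simp only at h
  rw [h]

theorem RA_neg (c N : ℕ) [NeZero N] (u v : ℂ) :
    RA o S a κ c N (-u) (-v) = RA o S a κ c N u v := by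
  classical
  simp only [RA_eq]
  refine Finset.sum_congr rfl fun i hi => ?_
  rw [mul_neg, XReg_neg]

theorem XA_closed (hr : ∀ i ∈ S, Rel o (a i)) (c : ℕ) (hc : c.Prime) (N : ℕ) [NeZero N]
    (hN : (2 * c * nab o : ℤ) ∣ N) (P : ℂ → ℂ → Prop)
    (hP : ∀ i ∈ S, κ i ≠ 0 → ∀ u v, P u v → Gp (a i) N (mu o (κ i).1 (κ i).2 * u) v)
    (Φ : (Additive ({q : ℂ × ℂ // P q.1 q.2} → ℂˣ)) [⋀^Fin 4]→ₗ[ℤ] ℂ) :
    XA o S a κ c N (fun F g h =>
      Φ ![clP P (fun u v => 1 - F u v), clP P F, clP P g, clP P h]) = 0 := by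
  classical
  unfold XA
  refine Finset.sum_eq_zero fun i hi => ?_
  obtain ⟨h1, h2⟩ := Finset.mem_filter.1 hi
  exact closed_pl (a i) c hc N (by rw [nab_rel (hr i h1)]; exact hN) P _ (hP i h1 h2) Φ

theorem RA_int (hr : ∀ i ∈ S, Rel o (a i)) (c : ℕ) (hc : c.Prime)
    (hin : ∀ m : ℤ × ℤ, (c : ℤ) ∣ fm o m → (c : ℤ) ∣ m.1 ∧ (c : ℤ) ∣ m.2)
    (N : ℕ) [NeZero N] (hN : (2 * c * nab o : ℤ) ∣ N) {L : ι → ℂ → ℂ}
    (hL : ∀ i ∈ S, ∀ s : ℂ, 2 < s.re → HasSum (fun m : ℤ × ℤ =>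
      if m = 0 then 0 else mm (a i) m ^ 2 / ((‖mm (a i) m‖ ^ 2 : ℝ) : ℂ) ^ s) (L i s))
    (hdf : ∀ i ∈ S, Differentiable ℂ (L i)) (h0 : ∀ i ∈ S, L i (-1) = 0)
    (hd : ∀ i ∈ S, deriv (L i) (-1) =
      -(6 * (sD (a i) / (2 * (a i).A * Real.pi)) ^ 5 : ℝ) * E42 (a i)) :
    Integrable (fun q : E × E => RA o S a κ c N (cu o q.1) (cu o q.2)) ∧
    ∫ q : E × E, RA o S a κ c N (cu o q.1) (cu o q.2) =
      (2 * Real.pi) ^ 3 * rh o c N * deriv (fun s : ℂ =>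
        ∑ i ∈ S, mu o (κ i).1 (κ i).2 * (((a i).A : ℂ) ^ (2 - s) * L i s)) (-1) := by
  classical
  have hi : ∀ i ∈ S.filter (fun i => κ i ≠ 0),
      Integrable (fun q : E × E => mu o (κ i).1 (κ i).2 *
        XReg (a i) (Wt (a i) c : G N → G N → ℤ) (mu o (κ i).1 (κ i).2 * cu o q.1) (cu o q.2)) ∧
      ∫ q : E × E, mu o (κ i).1 (κ i).2 *
        XReg (a i) (Wt (a i) c : G N → G N → ℤ) (mu o (κ i).1 (κ i).2 * cu o q.1) (cu o q.2) =
      (2 * Real.pi) ^ 3 * rh o c N *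
        (mu o (κ i).1 (κ i).2 * (((a i).A : ℂ) ^ 3 * deriv (L i) (-1))) := by
    intro i hi
    obtain ⟨h1, h2⟩ := Finset.mem_filter.1 hi
    have hR := hr i h1
    obtain ⟨e1, e2⟩ := int_XReg (a i) c hc (inert_rel hR hc hin) N
      (by rw [nab_rel hR]; exact hN) (hL i h1) (hd i h1)
    have hne : ((κ i).1, (κ i).2) ≠ (0, 0) := h2
    obtain ⟨f1, f2⟩ := int_pull hR hne (XReg_per2 (a i) (Wt (a i) c : G N → G N → ℤ)) e1
    refine ⟨f1.const_mul _, ?_⟩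
    rw [integral_const_mul, f2, e2]
    have e3 := rh_rel hR c N
    have e4 : -(64 * (Real.pi : ℂ) ^ 3 * (a i).A ^ 3 * N ^ 10 * ((c : ℂ) ^ 3 - 1 / (c : ℂ) ^ 3) *
        (alp (a i) * (1 - alp (a i))) ^ 2 /
          ((4 * (a i).A * (a i).C - (a i).B ^ 2) * nab (a i) ^ 3)) =
        (2 * Real.pi) ^ 3 * rh (a i) c N := by
      unfold rh
      ring
    rw [e4, e3]
    ring
  constructor
  · simp only [RA_eq]
    exact integrable_finsetSum _ fun i h => (hi i h).1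
  · simp only [RA_eq]
    rw [integral_finsetSum _ fun i h => (hi i h).1, Finset.sum_congr rfl fun i h => (hi i h).2,
      ← Finset.mul_sum]
    congr 1
    have hD : HasDerivAt (fun s : ℂ =>
        ∑ i ∈ S, mu o (κ i).1 (κ i).2 * (((a i).A : ℂ) ^ (2 - s) * L i s))
        (∑ i ∈ S, mu o (κ i).1 (κ i).2 * (((a i).A : ℂ) ^ 3 * deriv (L i) (-1))) (-1) := by
      refine HasDerivAt.fun_sum fun i h => ?_
      exact (deriv_twist (a i) (hdf i h) (h0 i h)).const_mul _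
    rw [hD.deriv]
    refine Finset.sum_subset (Finset.filter_subset _ _) fun i h1 h2 => ?_
    have h3 : κ i = 0 := by
      by_contra h4
      exact h2 (Finset.mem_filter.2 ⟨h1, h4⟩)
    rw [h3]
    simp [mu]

/-- **all ideal classes on one curve** -/
theorem all_main (hr : ∀ i ∈ S, Rel o (a i)) :
    ∃ L : ℂ → ℂ, Differentiable ℂ L ∧
      (∀ s : ℂ, 2 < s.re → HasSum (fun m : ℤ × ℤ => ∑ i ∈ S, mu o (κ i).1 (κ i).2 *
        (cj (ia o (a i) m) ^ 2 / ((‖ia o (a i) m‖ ^ 2 / (a i).A : ℝ) : ℂ) ^ s)) (L s)) ∧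
      deriv L (-1) = -(6 * (sD o / (2 * Real.pi)) ^ 5 : ℝ) * L 4 ∧
      L 4 = ∑ i ∈ S, mu o (κ i).1 (κ i).2 * (1 / ((a i).A : ℂ) ^ 2 * E42 (a i)) ∧
      ∀ c : ℕ, c.Prime →
        (∀ m : ℤ × ℤ, (c : ℤ) ∣ fm o m → (c : ℤ) ∣ m.1 ∧ (c : ℤ) ∣ m.2) →
        ∀ (N : ℕ) [NeZero N], (2 * c * nab o : ℤ) ∣ N →
        Integrable (fun q : E × E => RA o S a κ c N (cu o q.1) (cu o q.2)) ∧
        ∫ q : E × E, RA o S a κ c N (cu o q.1) (cu o q.2) =
          (2 * Real.pi) ^ 3 * rh o c N * deriv L (-1) := by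
  choose L hdf hL hd h0 h4 using fun i => Lfun0 (a i)
  refine ⟨fun s : ℂ => ∑ i ∈ S, mu o (κ i).1 (κ i).2 * (((a i).A : ℂ) ^ (2 - s) * L i s), ?_, ?_,
    ?_, ?_, ?_⟩
  · exact Differentiable.fun_sum fun i _ => (twist_diff (a i) (hdf i)).const_mul _
  · intro s hs
    refine hasSum_sum fun i hi => ?_
    exact (ideal_series (hr i hi) (hL i s hs)).mul_left _
  · have hD : HasDerivAt (fun s : ℂ =>
        ∑ i ∈ S, mu o (κ i).1 (κ i).2 * (((a i).A : ℂ) ^ (2 - s) * L i s))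
        (∑ i ∈ S, mu o (κ i).1 (κ i).2 * (((a i).A : ℂ) ^ 3 * deriv (L i) (-1))) (-1) := by
      refine HasDerivAt.fun_sum fun i _ => ?_
      exact (deriv_twist (a i) (hdf i) (h0 i)).const_mul _
    rw [hD.deriv, Finset.mul_sum]
    refine Finset.sum_congr rfl fun i hi => ?_
    have hA := A_ne (a i)
    have e : ((a i).A : ℂ) ^ (2 - 4 : ℂ) = 1 / ((a i).A : ℂ) ^ 2 := by
      rw [show (2 - 4 : ℂ) = -((2 : ℕ) : ℂ) by norm_num, Complex.cpow_neg, Complex.cpow_natCast,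
        one_div]
    rw [hd i, h4 i, e, (hr i hi).sD]
    have hpi : (Real.pi : ℂ) ≠ 0 := by exact_mod_cast Real.pi_ne_zero
    push_cast
    field_simp
  · refine Finset.sum_congr rfl fun i hi => ?_
    have e : ((a i).A : ℂ) ^ (2 - 4 : ℂ) = 1 / ((a i).A : ℂ) ^ 2 := by
      rw [show (2 - 4 : ℂ) = -((2 : ℕ) : ℂ) by norm_num, Complex.cpow_neg, Complex.cpow_natCast,
        one_div]
    rw [h4 i, e]
  · intro c hc hin N _ hN
    exact RA_int o S a κ hr c hc hin N hN (fun i _ => hL i) (fun i _ => hdf i) (fun i _ => h0 i)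
      (fun i _ => hd i)

end family

end

end UNL.Gen
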