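import Pool.Agent.UNL.CBas

/-!
# UNL part (C): evaluation of the lattice sum

The proof is in `Pool.Agent.UBC` (closed form of the total kernel, six term identity, the line
`w = 0`).
-/

namespace UNL

open Pool.Agent

/-- absolute convergence of the double lattice sum -/
theorem KK_summable (a : Par) :
    Summable (fun x : (ℤ × ℤ) × (ℤ × ℤ) => ‖KK (mm a x.1) (mm a x.2)‖) := by
  simp only [KK_ker, ← LDa_xx]
  exact (LDa a).summable_kerC

/-- the evaluation; `h` is a bounded even function on `ℤ` with `h 0 = 0`;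
`z = r + s`, and the three pairs are `(β r, α s)`, `(α β z, α s)`, `(α β z, β r)` -/
theorem eval (a : Par) (h : ℤ → ℂ) (hb : ∃ C, ∀ d, ‖h d‖ ≤ C) (he : ∀ d, h (-d) = h d)
    (h0 : h 0 = 0) :
    ∑' q : (ℤ × ℤ) × (ℤ × ℤ), h (dt q.1 q.2) *
      (KK ((1 - alp a) * mm a q.1) (alp a * mm a q.2)
        - (a.A * a.C : ℤ) *
          KK (alp a * (1 - alp a) * mm a (q.1 + q.2)) (alp a * mm a q.2)
        + (1 - a.B + a.A * a.C : ℤ) *
          KK (alp a * (1 - alp a) * mm a (q.1 + q.2)) ((1 - alp a) * mm a q.1)) =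
      6 * (alp a - cj (alp a)) /
          (alp a ^ 2 * cj (alp a) ^ 4 * (1 - alp a) ^ 2 * cj (1 - alp a) ^ 4) *
        ∑' m : ℤ × ℤ, h (fm a m) / (mm a m ^ 2 * cj (mm a m) ^ 4) := by
  obtain ⟨C, hC⟩ := hb
  have k1 := ((LDa a).summable_FF he hC).2
  rw [(LDa a).kernel_sum h0 he hC] at k1
  have hN := alp_norm a
  have hN2 := bet_norm a
  have k2 : ∀ q : (ℤ × ℤ) × (ℤ × ℤ), (LDa a).FF h q = h (dt q.1 q.2) *
      (KK ((1 - alp a) * mm a q.1) (alp a * mm a q.2)
        - (a.A * a.C : ℤ) *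
          KK (alp a * (1 - alp a) * mm a (q.1 + q.2)) (alp a * mm a q.2)
        + (1 - a.B + a.A * a.C : ℤ) *
          KK (alp a * (1 - alp a) * mm a (q.1 + q.2)) ((1 - alp a) * mm a q.1)) := by
    intro q
    simp only [UBC.LD.FF, LDa_B, LDa_A, LDa_xx, LDa_al, mm_nA, mm_nB, KK_ker]
    rw [← hN, ← hN2]
    simp only [cj, UBC.dt, dt, mul_assoc]
  rw [← tsum_congr k2, k1, ← tsum_neg, ← tsum_mul_left]
  refine tsum_congr fun m => ?_
  have hd : UBC.dt (nA a m) m = -fm a m := by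
    simp only [UBC.dt, nA, fm]; ring
  simp only [UBC.LD.LL, LDa_A, LDa_xx, LDa_al, hd, he, cj, map_sub, map_one]
  rw [← mul_neg, ← neg_mul, ← neg_div]
  have e1 : -(6 * ((starRingEnd ℂ) (alp a) - alp a)) = 6 * (alp a - (starRingEnd ℂ) (alp a)) := by
    ring
  rw [e1]
  ring

end UNL
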