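import Pool.Agent.UNL.Defs
import Pool.Agent.UNL.CBas
import Pool.Agent.UNI.BForms
import Pool.Agent.UNI.BRB

/-!
# UNL part (B): the regulator integral as a lattice sum (architect helper29)

No complex multiplication is used here. The proof is in `Pool.Agent.UNI.B*` (namespace `UQO`,
arbitrary lattice).
-/

open MeasureTheory

namespace UNL

/-- the lattice of `a` -/
noncomputable abbrev PartB_lt (a : Par) : UQO.Lt := ⟨tau a, tau_im_pos a⟩

lemma PartB_kap (a : Par) : kap a = @UQO.cc (PartB_lt a) := by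
  have h : (tau a).im = sD a / (2 * a.A) := tau_im a
  show kap a = Real.pi / (tau a).im
  rw [h, kap]
  have h1 := A_pos a
  have h2 := sD_pos a
  field_simp

lemma PartB_ch (a : Par) (n : ℤ × ℤ) (u : ℂ) : ch a n u = @UQO.ch (PartB_lt a) n u := by
  have h := PartB_kap a
  show Complex.exp ((kap a : ℝ) * _) = Complex.exp ((@UQO.cc (PartB_lt a) : ℝ) * _)
  rw [h]
  rfl

/-- the regulator integral; `W` is even, antisymmetric, with row sums `0`, and supported on the
`N/2`-torsion -/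
theorem reg_val (a : Par) (N : ℕ) [NeZero N] (hN : Even N) (W : G N → G N → ℤ)
    (hev : ∀ k l, W (-k) l = W k l) (hanti : ∀ k l, W l k = -W k l)
    (hrow : ∀ l, ∑ k, W k l = 0) (hsupp : ∀ k l, W k l ≠ 0 → (N / 2) • k = 0) :
    Integrable (fun q : E × E => Reg a W (cu a q.1) (cu a q.2)) ∧
    ∫ q : E × E, Reg a W (cu a q.1) (cu a q.2) =
      -(4 * Complex.I * N ^ 6 / kap a ^ 2) *
        ∑' x : (ℤ × ℤ) × (ℤ × ℤ), Wd a W x.1 x.2 * KK (mm a x.1) (mm a x.2) := by
  letI := PartB_lt a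
  have hW : UQO.Wg W := ⟨hN, hev, hanti, hrow, hsupp⟩
  have h1 : ∀ u v : ℂ, Reg a W u v = UQO.Rq W u v := fun u v => rfl
  have h2 : ∀ x : E, cu a x = UQO.cu x := fun x => rfl
  have h3 := UQO.ae_Rq W
  obtain ⟨h4, h5⟩ := UQO.RB_val hW
  have h6 : ∀ x : (ℤ × ℤ) × (ℤ × ℤ), Wd a W x.1 x.2 = UQO.WD W x.1 x.2 := by
    intro x
    simp only [Wd, UQO.WD, PartB_ch]
    rfl
  simp only [h1, h2]
  refine ⟨h4.congr h3.symm, ?_⟩
  rw [integral_congr_ae h3, h5, PartB_kap a]
  congr 1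
  refine tsum_congr fun x => ?_
  rw [h6]
  rfl

end UNL
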