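import Pool.Agent.UNL.CBas
import Pool.Agent.K3R.LFunLattice
import Pool.Agent.QOL.Inert
import Pool.Agent.QOL.Lfun
import Pool.Agent.QOL.Nonzero

/-!
# UNL part (D): the L-function
-/

namespace UNL

private theorem D_lat (a : Par) (p : ℤ × ℤ) :
    LatL.lat (-(tau a).re) (tau a).im p = mm a p := by
  simp only [LatL.lat, mm]
  apply Complex.ext
  · simp
    ring
  · simp

private theorem D_pow (z : ℂ) (hz : z ≠ 0) :
    z ^ 2 / ((‖z‖ ^ 2 : ℝ) : ℂ) ^ (4 : ℂ) = 1 / (z ^ 2 * (starRingEnd ℂ) z ^ 4) := by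
  have h1 : ((‖z‖ ^ 2 : ℝ) : ℂ) = z * (starRingEnd ℂ) z := by
    rw [Complex.mul_conj, Complex.normSq_eq_norm_sq]
  have h2 : (starRingEnd ℂ) z ≠ 0 := (map_ne_zero (starRingEnd ℂ)).2 hz
  have h3 : (z * (starRingEnd ℂ) z) ^ (4 : ℂ) = (z * (starRingEnd ℂ) z) ^ (4 : ℕ) := by
    rw [← Complex.cpow_natCast]
    norm_num
  rw [h1, h3]
  field_simp

/-- the L-function of the lattice of frequencies -/
theorem Lfun (a : Par) : ∃ L : ℂ → ℂ, Differentiable ℂ L ∧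
    (∀ s : ℂ, 2 < s.re → HasSum (fun m : ℤ × ℤ =>
      if m = 0 then 0 else mm a m ^ 2 / ((‖mm a m‖ ^ 2 : ℝ) : ℂ) ^ s) (L s)) ∧
    deriv L (-1) = -(6 * (sD a / (2 * a.A * Real.pi)) ^ 5 : ℝ) * E42 a := by
  obtain ⟨Z, hd, hs, h1⟩ := LatL.lattice_L (-(tau a).re) (tau a).im (tau_im_pos a)
  have hs' : ∀ s : ℂ, 2 < s.re → HasSum (fun m : ℤ × ℤ =>
      if m = 0 then 0 else mm a m ^ 2 / ((‖mm a m‖ ^ 2 : ℝ) : ℂ) ^ s) (Z s) := by
    intro s h
    have h2 := hs s h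
    refine h2.congr_fun ?_
    intro m
    rw [D_lat]
    by_cases h0 : m = 0
    · rw [if_pos h0, h0, mm_zero]
      simp
    · rw [if_neg h0]
  refine ⟨Z, hd, hs', ?_⟩
  have hZ4 : Z 4 = E42 a := by
    rw [← (hs' 4 (by norm_num)).tsum_eq, E42]
    refine tsum_congr (fun m => ?_)
    by_cases h0 : m = 0
    · rw [if_pos h0, h0, mm_zero]
      simp
    · rw [if_neg h0]
      exact D_pow _ (fun h => h0 ((mm_eq_zero a).1 h))
  rw [h1.deriv, hZ4]
  congr 2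
  rw [tau_im]
  have := A_pos a
  have := Real.pi_pos
  field_simp
  push_cast
  ring

/-- for `A = 1` the lattice of frequencies is an order -/
private def D_par (a : Par) (hA : a.A = 1) : UNI.Par where
  t := -a.B
  n := a.C
  h := by
    have := a.hD
    rw [hA] at this
    linarith

private theorem D_xx (a : Par) (hA : a.A = 1) (m : ℤ × ℤ) : UNI.xx (D_par a hA) m = mm a m := by
  have e : Real.sqrt (4 * ((D_par a hA).n : ℝ) - ((D_par a hA).t : ℝ) ^ 2) = sD a := by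
    rw [sD]
    congr 1
    simp only [D_par, hA]
    push_cast
    ring
  simp only [UNI.xx, UNI.om, mm]
  rw [e]
  have h := two_A_ctau a
  rw [hA] at h
  push_cast at h
  simp only [cj] at h
  simp only [D_par]
  push_cast
  linear_combination ((m.2 : ℂ) / 2) * h

private theorem D_E42 (a : Par) (hA : a.A = 1) : E42 a = UNI.E42 (D_par a hA) := by
  rw [E42, UNI.E42]
  refine tsum_congr (fun m => ?_)
  rw [D_xx]

theorem E42_real (a : Par) (hA : a.A = 1) : (E42 a).im = 0 := by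
  rw [D_E42 a hA]
  exact QOL.E42_real _

theorem E42_ne (a : Par) (hA : a.A = 1) (h3 : 4 * a.C - a.B ^ 2 ≠ 3)
    (h4 : 4 * a.C - a.B ^ 2 ≠ 4) : E42 a ≠ 0 := by
  rw [D_E42 a hA]
  refine QOL.E42_ne _ ?_ ?_
  · simpa [D_par] using h3
  · simpa [D_par] using h4

theorem inert (a : Par) : ∃ c : ℕ, c.Prime ∧
    ∀ m : ℤ × ℤ, (c : ℤ) ∣ fm a m → (c : ℤ) ∣ m.1 ∧ (c : ℤ) ∣ m.2 := by
  obtain ⟨c, hc, h⟩ := QOL.inert ⟨a.B, a.A * a.C, by have := a.hD; linarith⟩
  refine ⟨c, hc, fun m hm => ?_⟩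
  have hAC : ¬ (c : ℤ) ∣ a.A := by
    intro h1
    have h2 := (h (0, 1) (by simp only [UNI.nm]; simpa using h1.mul_right a.C)).2
    have h3 : (c : ℤ) = 1 := Int.eq_one_of_dvd_one (by positivity) h2
    exact hc.one_lt.ne' (by exact_mod_cast h3)
  have h1 := h (a.A * m.1, -m.2) (by
    have e : UNI.nm ⟨a.B, a.A * a.C, by have := a.hD; linarith⟩ (a.A * m.1, -m.2) =
        a.A * fm a m := by
      simp only [UNI.nm, fm]
      ring
    rw [e]
    exact hm.mul_left _)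
  refine ⟨?_, ?_⟩
  · exact ((Nat.prime_iff_prime_int.1 hc).dvd_or_dvd h1.1).resolve_left hAC
  · exact (Int.dvd_neg).1 h1.2

end UNL
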