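import Pool.Agent.UNL.CBas

/-!
# UNL: further basic facts
-/

namespace UNL

noncomputable section

lemma C_pos (a : Par) : 0 < a.C := by
  have h := a.hD
  have hA := a.hA
  by_contra hc
  push Not at hc
  nlinarith [sq_nonneg a.B, mul_nonneg hA.le (neg_nonneg.2 hc)]

lemma alp_eq (a : Par) : alp a = ((a.B : ℂ) + (sD a : ℂ) * Complex.I) / 2 := by
  unfold alp tau
  have := A_ne a
  field_simp

lemma cj_alp (a : Par) : cj (alp a) = ((a.B : ℂ) - (sD a : ℂ) * Complex.I) / 2 := by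
  have h2 : (starRingEnd ℂ) 2 = 2 := map_ofNat _ 2
  rw [alp_eq, cj, map_div₀, map_add, map_mul, map_intCast, Complex.conj_I, Complex.conj_ofReal, h2]
  ring

lemma sD_sqC (a : Par) : (sD a : ℂ) ^ 2 = 4 * a.A * a.C - a.B ^ 2 := by
  rw [← Complex.ofReal_pow, sD_sq]
  push_cast
  ring

lemma alp_sub (a : Par) : alp a - cj (alp a) = (sD a : ℂ) * Complex.I := by
  rw [cj_alp, alp_eq]
  ring

lemma alp_add (a : Par) : alp a + cj (alp a) = a.B := by
  rw [cj_alp, alp_eq]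
  ring

lemma alp_mul (a : Par) : alp a * cj (alp a) = a.A * a.C := by
  rw [cj_alp, alp_eq]
  linear_combination (1 / 4 : ℂ) * sD_sqC a - (1 / 4 : ℂ) * (sD a : ℂ) ^ 2 * Complex.I_sq

lemma bet_mul (a : Par) : (1 - alp a) * (1 - cj (alp a)) = 1 - a.B + a.A * a.C := by
  linear_combination alp_mul a - alp_add a

lemma cj_one_sub (a : Par) : cj (1 - alp a) = 1 - cj (alp a) := by
  simp [cj]

lemma AC_pos (a : Par) : 0 < a.A * a.C := mul_pos a.hA (C_pos a)

lemma BC_pos (a : Par) : 0 < 1 - a.B + a.A * a.C := by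
  have h := a.hD
  nlinarith [sq_nonneg (a.B - 2)]

lemma nab_pos (a : Par) : 0 < nab a := mul_pos (AC_pos a) (BC_pos a)

lemma cj_alp_ne (a : Par) : cj (alp a) ≠ 0 :=
  (map_ne_zero (starRingEnd ℂ)).2 (alp_ne a)

lemma cj_bet_ne (a : Par) : cj (1 - alp a) ≠ 0 :=
  (map_ne_zero (starRingEnd ℂ)).2 (bet_ne a)

lemma mm_smul (a : Par) (c : ℤ) (n : ℤ × ℤ) : mm a (c * n.1, c * n.2) = c * mm a n := by
  unfold mm
  push_cast
  ring

lemma fm_smul (a : Par) (c : ℤ) (n : ℤ × ℤ) : fm a (c * n.1, c * n.2) = c ^ 2 * fm a n := by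
  unfold fm
  ring

end

end UNL
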