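import Pool.Agent.UNL.WTr
import Pool.Agent.UNL.Bas

/-!
# UNL part (W): the weights

Fourier transform of the weights: `ch a x (tp a k) = exp (2 π i (x.1 k.2 + x.2 k.1) / N)`,
`ch a (nA a x) (tp a k) = ch a x (tp a (sA a k))`. For `d, e` among `β, α, α β` the transform of
`(k, l) ↦ H(d k, e l)` is, at frequencies `x = d r`, `y = e s`,
`N(d) N(e) c³ [c does not divide det (r, s)]`, and `0` at all other frequencies.
-/

namespace UNL

open ZMod Pool.Agent

/-- the matrix of `α` -/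
def mA (a : Par) : M2 := ⟨0, -a.C, a.A, a.B⟩

/-- the matrix of `β = 1 - α` -/
def mB (a : Par) : M2 := ⟨1, a.C, -a.A, 1 - a.B⟩

/-- the matrix of `α β` -/
def mAB (a : Par) : M2 :=
  ⟨a.A * a.C, -a.C * (1 - a.B), a.A * (1 - a.B), a.A * a.C + a.B * (1 - a.B)⟩

theorem mA_az (a : Par) {N : ℕ} (k : G N) : (mA a).az k = sA a k := by
  simp [M2.az, mA, sA]

theorem mB_az (a : Par) {N : ℕ} (k : G N) : (mB a).az k = sB a k := by
  refine Prod.ext ?_ ?_
  · simp only [M2.az, mB, sB, sA, Prod.fst_sub]; push_cast; ring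
  · simp only [M2.az, mB, sB, sA, Prod.snd_sub]; push_cast; ring

theorem mAB_az (a : Par) {N : ℕ} (k : G N) : (mAB a).az k = sA a (sB a k) := by
  refine Prod.ext ?_ ?_
  · simp only [M2.az, mAB, sB, sA, Prod.snd_sub]; push_cast; ring
  · simp only [M2.az, mAB, sB, sA, Prod.fst_sub, Prod.snd_sub]; push_cast; ring

theorem mA_du (a : Par) (k : ℤ × ℤ) : (mA a).du k = nA a k := by
  refine Prod.ext ?_ ?_ <;> simp only [M2.du, mA, nA] <;> ring

theorem mB_du (a : Par) (k : ℤ × ℤ) : (mB a).du k = nB a k := by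
  refine Prod.ext ?_ ?_
  · simp only [M2.du, mB, nB, nA, Prod.fst_sub]; ring
  · simp only [M2.du, mB, nB, nA, Prod.snd_sub]; ring

theorem mAB_du (a : Par) (k : ℤ × ℤ) : (mAB a).du k = nA a (nB a k) := by
  refine Prod.ext ?_ ?_
  · simp only [M2.du, mAB, nB, nA, Prod.fst_sub, Prod.snd_sub]; ring
  · simp only [M2.du, mAB, nB, nA, Prod.fst_sub]; ring

theorem mA_det (a : Par) : (mA a).det = a.A * a.C := by simp only [M2.det, mA]; ring

theorem mB_det (a : Par) : (mB a).det = 1 - a.B + a.A * a.C := by simp only [M2.det, mB]; ring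

theorem mAB_det (a : Par) : (mAB a).det = nab a := by simp only [M2.det, mAB, nab]; ring

theorem mA_pos (a : Par) : 0 < (mA a).det := by rw [mA_det]; exact AC_pos a
theorem mB_pos (a : Par) : 0 < (mB a).det := by rw [mB_det]; exact BC_pos a
theorem mAB_pos (a : Par) : 0 < (mAB a).det := by rw [mAB_det]; exact nab_pos a

section divis

variable (a : Par) {c N : ℕ} (hN : (2 * c * nab a : ℤ) ∣ N)

include hN

theorem dvd_AB : (c : ℤ) * (mAB a).det ∣ N := by
  rw [mAB_det]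
  exact (Dvd.intro_left 2 (by ring)).trans hN

theorem dvd_A : (c : ℤ) * (mA a).det ∣ N := by
  rw [mA_det]
  exact (Dvd.intro_left (2 * (1 - a.B + a.A * a.C)) (by rw [nab]; ring)).trans hN

theorem dvd_B : (c : ℤ) * (mB a).det ∣ N := by
  rw [mB_det]
  exact (Dvd.intro_left (2 * (a.A * a.C)) (by rw [nab]; ring)).trans hN

theorem c_dvd : c ∣ N := by
  have : (c : ℤ) ∣ (N : ℤ) := (Dvd.intro_left (2 * nab a) (by ring)).trans hN
  exact_mod_cast this

end divis

theorem sB_neg (a : Par) {N : ℕ} (k : G N) : sB a (-k) = -sB a k := by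
  rw [← mB_az, ← mB_az]; exact ((mB a).azh N).map_neg k

theorem sA_neg (a : Par) {N : ℕ} (k : G N) : sA a (-k) = -sA a k := by
  rw [← mA_az, ← mA_az]; exact ((mA a).azh N).map_neg k

theorem sA_nsmul (a : Par) {N : ℕ} (c : ℕ) (k : G N) : sA a (c • k) = c • sA a k := by
  rw [← mA_az, ← mA_az]; exact ((mA a).azh N).map_nsmul c k

theorem sB_nsmul (a : Par) {N : ℕ} (c : ℕ) (k : G N) : sB a (c • k) = c • sB a k := by
  rw [← mB_az, ← mB_az]; exact ((mB a).azh N).map_nsmul c k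

theorem sA_zero (a : Par) {N : ℕ} : sA a (0 : G N) = 0 := by
  rw [← mA_az]; exact ((mA a).azh N).map_zero

theorem sB_zero (a : Par) {N : ℕ} : sB a (0 : G N) = 0 := by
  rw [← mB_az]; exact ((mB a).azh N).map_zero

theorem sA_sB (a : Par) {N : ℕ} (k : G N) : sA a (sB a k) = sB a (sA a k) := by
  have h : sA a (k - sA a k) = sA a k - sA a (sA a k) := by
    rw [← mA_az, ← mA_az a k, ← mA_az]; exact ((mA a).azh N).map_sub k _
  rw [sB, sB, h]

theorem Wh_even_left (a : Par) (c : ℕ) {N : ℕ} (k l : G N) : Wh a c (-k) l = Wh a c k l := by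
  simp only [Wh, sB_neg, sA_neg, HH_neg]

theorem Wh_even_right (a : Par) (c : ℕ) {N : ℕ} (k l : G N) : Wh a c k (-l) = Wh a c k l := by
  simp only [Wh, sB_neg, sA_neg, HH_neg_right]

theorem Wt_even (a : Par) (c : ℕ) {N : ℕ} (k l : G N) : Wt a c (-k) l = Wt a c k l := by
  rw [Wt, Wt, Wh_even_left, Wh_even_right]

theorem Wt_anti (a : Par) (c : ℕ) {N : ℕ} (k l : G N) : Wt a c l k = -Wt a c k l := by
  rw [Wt, Wt]; ring

theorem HH_row_az {c : ℕ} (hc : c.Prime) {N : ℕ} [NeZero N] {m : M2} (h : 0 < m.det)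
    (hd : (c : ℤ) * m.det ∣ N) (y : G N) : ∑ k : G N, HH c (m.az k) y = 0 := by
  have hN : c ∣ N := by
    have : (c : ℤ) ∣ (N : ℤ) := (Dvd.intro _ rfl).trans hd
    exact_mod_cast this
  have h1 := m.sum_az h hd (F := fun k : G N => ((HH c k y : ℤ) : ℂ))
    (fun k hk => by rw [HH_zero_of_left _ hk]; simp)
  have h2 : ∑ k : G N, HH c k y = 0 := by
    rw [← HH_row c hc N hN y]
    exact Finset.sum_congr rfl fun k _ => HH_symm c k y
  simp only [← Int.cast_sum] at h1
  rw [h2, Int.cast_zero, mul_zero] at h1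
  exact_mod_cast h1

theorem Wt_row (a : Par) (c : ℕ) (hc : c.Prime) (N : ℕ) [NeZero N]
    (hN : (2 * c * nab a : ℤ) ∣ N) (l : G N) : ∑ k : G N, Wt a c k l = 0 := by
  have b1 := fun y : G N => HH_row_az hc (mA_pos a) (dvd_A a hN) y
  have b2 := fun y : G N => HH_row_az hc (mB_pos a) (dvd_B a hN) y
  have b3 := fun y : G N => HH_row_az hc (mAB_pos a) (dvd_AB a hN) y
  simp only [mA_az] at b1
  simp only [mB_az] at b2
  simp only [mAB_az] at b3
  simp only [Wt, Wh, Finset.sum_sub_distrib, Finset.sum_add_distrib, b2, b3,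
    HH_symm c (sB a l), HH_symm c (sA a (sB a l)), b1]
  ring

theorem Wt_supp (a : Par) (c : ℕ) (N : ℕ) [NeZero N] (hN : (2 * c * nab a : ℤ) ∣ N)
    (k l : G N) (h : Wt a c k l ≠ 0) : (N / 2) • k = 0 := by
  have key : c • sA a (sB a k) = 0 := by
    have k1 : c • sB a k = 0 → c • sA a (sB a k) = 0 := fun h => by
      rw [← sA_nsmul, h, sA_zero]
    have k2 : c • sA a k = 0 → c • sA a (sB a k) = 0 := fun h => by
      rw [sA_sB, ← sB_nsmul, h, sB_zero]
    by_contra hn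
    apply h
    have n1 : c • sB a k ≠ 0 := fun h => hn (k1 h)
    have n2 : c • sA a k ≠ 0 := fun h => hn (k2 h)
    simp only [Wt, Wh, HH_zero_of_left _ n1, HH_zero_of_left _ hn, HH_zero_of_right _ n2,
      HH_zero_of_right _ n1]
    ring
  have h2 : (c : ℤ) • (nab a • k) = 0 := by
    have h3 : (mAB a).adj.az ((mAB a).az k) = nab a • k := by
      rw [← mAB_det]
      refine Prod.ext ?_ ?_
      · simp only [M2.az, M2.adj, M2.det, Prod.smul_fst]
        simp only [zsmul_eq_mul]; push_cast; ring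
      · simp only [M2.az, M2.adj, M2.det, Prod.smul_snd]
        simp only [zsmul_eq_mul]; push_cast; ring
    rw [← h3, natCast_zsmul, mAB_az]
    have := ((mAB a).adj.azh N).map_nsmul c (sA a (sB a k))
    simp only [M2.azh_apply] at this
    rw [← this, key]
    exact ((mAB a).adj.azh N).map_zero
  obtain ⟨w, hw⟩ := hN
  have h4 : ((N / 2 : ℕ) : ℤ) = w * (c * nab a) := by
    have : (N : ℤ) = 2 * (w * (c * nab a)) := by rw [hw]; ring
    omega
  rw [← natCast_zsmul, h4, mul_smul, mul_smul, h2, smul_zero]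

/-- the characters at torsion points -/
theorem ch_tp (a : Par) {N : ℕ} [NeZero N] (x : ℤ × ℤ) (k : G N) :
    ch a x (tp a k) = stdAddChar (M2.pr N x k) := by
  have hN : (N : ℂ) ≠ 0 := by exact_mod_cast NeZero.ne N
  have hs : ((sD a : ℝ) : ℂ) ≠ 0 := by exact_mod_cast (sD_pos a).ne'
  have e0 : M2.pr N x k = ((x.1 * k.2.val + x.2 * k.1.val : ℤ) : ZMod N) := by
    simp [M2.pr]
  rw [e0, stdAddChar_coe, ch]
  congr 1
  have hi : tau a - cj (tau a) = (sD a : ℂ) * Complex.I / a.A := by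
    have h1 := two_A_tau a
    have h2 := two_A_ctau a
    have := A_ne a
    field_simp
    linear_combination (1 / 2 : ℂ) * h1 - (1 / 2 : ℂ) * h2
  have e1 : mm a x * tp a k - cj (mm a x * tp a k) =
      (x.1 * k.2.val + x.2 * k.1.val : ℂ) * (tau a - cj (tau a)) / N := by
    simp only [mm, tp, cj, map_mul, map_sub, map_add, map_div₀, map_intCast, map_natCast,
      Complex.conj_conj]
    field_simp
    ring
  rw [e1, hi, kap]
  have := A_ne a
  push_cast
  field_simp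

theorem Wd_eq (a : Par) (c : ℕ) {N : ℕ} [NeZero N] (x y : ℤ × ℤ) :
    Wd a (Wt a c : G N → G N → ℤ) x y =
      (TF c N (mB a) (mA a) x y - TF c N (mAB a) (mA a) x y + TF c N (mAB a) (mB a) x y)
      - (TF c N (mB a) (mA a) y x - TF c N (mAB a) (mA a) y x + TF c N (mAB a) (mB a) y x) := by
  have e : ∀ x y : ℤ × ℤ, ∑ k : G N, ∑ l : G N, (Wh a c k l : ℂ) *
      (stdAddChar (M2.pr N x k) * stdAddChar (M2.pr N y l)) =
      TF c N (mB a) (mA a) x y - TF c N (mAB a) (mA a) x y + TF c N (mAB a) (mB a) x y := by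
    intro x y
    simp only [TF, ← Finset.sum_sub_distrib, ← Finset.sum_add_distrib]
    refine Finset.sum_congr rfl fun k _ => Finset.sum_congr rfl fun l _ => ?_
    simp only [Wh, mAB_az, mA_az, mB_az]
    push_cast
    ring
  rw [← e, ← e, Finset.sum_comm (f := fun k l : G N => (Wh a c k l : ℂ) *
      (stdAddChar (M2.pr N y k) * stdAddChar (M2.pr N x l))), Wd]
  simp only [← Finset.sum_sub_distrib]
  refine Finset.sum_congr rfl fun k _ => Finset.sum_congr rfl fun l _ => ?_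
  rw [ch_tp, ch_tp, Wt]
  push_cast
  ring

theorem KK_swap (x y : ℂ) : KK y x = -KK x y := by
  have e1 : (y * cj x - cj y * x) = -(x * cj y - cj x * y) := by ring
  have e2 : y * cj y * (x * cj x) * ((y - x) * cj (y - x)) * (cj y ^ 2 * cj x ^ 2) =
      x * cj x * (y * cj y) * ((x - y) * cj (x - y)) * (cj x ^ 2 * cj y ^ 2) := by
    simp only [cj, map_sub]; ring
  simp only [KK, e2]
  rw [e1, ← neg_div]
  congr 1
  ring

/-- the lattice sum of part (C) in three pieces -/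
theorem split3 (a : Par) (h : ℤ → ℂ) (hev : ∀ d, h (-d) = h d) {M : ℝ} (hM : ∀ d, ‖h d‖ ≤ M) :
    ∑' q : (ℤ × ℤ) × (ℤ × ℤ), h (dt q.1 q.2) *
          (KK ((1 - alp a) * mm a q.1) (alp a * mm a q.2)
            - (a.A * a.C : ℤ) *
              KK (alp a * (1 - alp a) * mm a (q.1 + q.2)) (alp a * mm a q.2)
            + (1 - a.B + a.A * a.C : ℤ) *
              KK (alp a * (1 - alp a) * mm a (q.1 + q.2)) ((1 - alp a) * mm a q.1)) =
      (∑' q : (ℤ × ℤ) × (ℤ × ℤ), h (dt q.1 q.2) * KK (mm a (nB a q.1)) (mm a (nA a q.2)))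
      - (a.A * a.C : ℤ) * (∑' q : (ℤ × ℤ) × (ℤ × ℤ), h (dt q.1 q.2) *
          KK (mm a (nA a (nB a q.1))) (mm a (nA a q.2)))
      + (1 - a.B + a.A * a.C : ℤ) * (∑' q : (ℤ × ℤ) × (ℤ × ℤ), h (dt q.1 q.2) *
          KK (mm a (nA a (nB a q.1))) (mm a (nB a q.2))) := by
  have k1 := ((LDa a).summable_FF (h := h) hev hM).2
  have hN1 := alp_norm a
  have hN2 := bet_norm a
  have k2 : ∀ q : (ℤ × ℤ) × (ℤ × ℤ), (LDa a).FF h q = h (dt q.1 q.2) *
          (KK ((1 - alp a) * mm a q.1) (alp a * mm a q.2)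
            - (a.A * a.C : ℤ) *
              KK (alp a * (1 - alp a) * mm a (q.1 + q.2)) (alp a * mm a q.2)
            + (1 - a.B + a.A * a.C : ℤ) *
              KK (alp a * (1 - alp a) * mm a (q.1 + q.2)) ((1 - alp a) * mm a q.1)) := by
    intro q
    simp only [UBC.LD.FF, LDa_B, LDa_A, LDa_xx, LDa_al, mm_nA, mm_nB, KK_ker]
    rw [← hN1, ← hN2]
    simp only [cj, UBC.dt, dt, mul_assoc]
  have hc1 : alp a * (starRingEnd ℂ) (alp a) = (a.A * a.C : ℤ) := hN1
  have hc2 : (1 - alp a) * (1 - (starRingEnd ℂ) (alp a)) = (1 - a.B + a.A * a.C : ℤ) := hN2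
  rw [← tsum_congr k2, k1]
  simp only [LDa_B, LDa_A, LDa_xx, LDa_al, ← KK_ker]
  rw [hc1, hc2]
  rfl

/-- the lattice sum of part (B) is the one of part (C) -/
theorem Wd_sum (a : Par) (c : ℕ) (hc : c.Prime) (N : ℕ) [NeZero N]
    (hN : (2 * c * nab a : ℤ) ∣ N) :
    ∑' x : (ℤ × ℤ) × (ℤ × ℤ), Wd a (Wt a c : G N → G N → ℤ) x.1 x.2 *
        KK (mm a x.1) (mm a x.2) =
      2 * nab a * (c : ℂ) ^ 3 *
        ∑' q : (ℤ × ℤ) × (ℤ × ℤ), (if (c : ℤ) ∣ dt q.1 q.2 then 0 else 1) *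
          (KK ((1 - alp a) * mm a q.1) (alp a * mm a q.2)
            - (a.A * a.C : ℤ) *
              KK (alp a * (1 - alp a) * mm a (q.1 + q.2)) (alp a * mm a q.2)
            + (1 - a.B + a.A * a.C : ℤ) *
              KK (alp a * (1 - alp a) * mm a (q.1 + q.2)) ((1 - alp a) * mm a q.1)) := by
  have s1 := TF_summable a c N (mB a) (mA a)
  have s2 := TF_summable a c N (mAB a) (mA a)
  have s3 := TF_summable a c N (mAB a) (mB a)
  have t1 := TF_tsum a hc (mB_pos a) (mA_pos a) (dvd_B a hN) (dvd_A a hN)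
  have t2 := TF_tsum a hc (mAB_pos a) (mA_pos a) (dvd_AB a hN) (dvd_A a hN)
  have t3 := TF_tsum a hc (mAB_pos a) (mB_pos a) (dvd_AB a hN) (dvd_B a hN)
  have hs := (s1.hasSum.sub s2.hasSum).add s3.hasSum
  have hs' := (Equiv.prodComm (ℤ × ℤ) (ℤ × ℤ)).hasSum_iff.mpr hs
  have hsum := hs.add hs'
  refine Eq.trans (tsum_congr fun x => ?_) (hsum.tsum_eq.trans ?_)
  · simp only [Function.comp, Equiv.prodComm_apply, Prod.fst_swap, Prod.snd_swap]
    rw [Wd_eq, KK_swap (mm a x.1) (mm a x.2)]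
    ring
  have hev : ∀ d : ℤ, (if (c : ℤ) ∣ -d then (0 : ℂ) else 1) = if (c : ℤ) ∣ d then 0 else 1 :=
    fun d => by simp only [dvd_neg]
  have hM : ∀ d : ℤ, ‖(if (c : ℤ) ∣ d then (0 : ℂ) else 1)‖ ≤ 1 := fun d => by
    split_ifs <;> simp
  have k := split3 a (fun d => if (c : ℤ) ∣ d then (0 : ℂ) else 1) hev hM
  rw [t1, t2, t3, k]
  simp only [mA_du, mB_du, mAB_du, mA_det, mB_det, mAB_det, nab]
  push_cast
  ring

end UNL
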