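import Pool.Agent.UNL.Bas
import Pool.Agent.UNL.PartB
import Pool.Agent.UNL.PartC
import Pool.Agent.UNL.PartW
import Pool.Agent.UNL.PartD

/-!
# UNL: the value of the regulator integral
-/

open MeasureTheory

namespace UNL

noncomputable section

/-- the terms of `E42` -/
def ft (a : Par) (m : ℤ × ℤ) : ℂ := 1 / (mm a m ^ 2 * cj (mm a m) ^ 4)

lemma Fin_pow (z : ℂ) (hz : z ≠ 0) :
    z ^ 2 / ((‖z‖ ^ 2 : ℝ) : ℂ) ^ (4 : ℂ) = 1 / (z ^ 2 * cj z ^ 4) := by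
  have h1 : ((‖z‖ ^ 2 : ℝ) : ℂ) = z * cj z := by
    rw [cj, Complex.mul_conj, Complex.normSq_eq_norm_sq]
  have h2 : cj z ≠ 0 := (map_ne_zero (starRingEnd ℂ)).2 hz
  have h3 : (z * cj z) ^ (4 : ℂ) = (z * cj z) ^ (4 : ℕ) := by
    rw [← Complex.cpow_natCast]
    norm_num
  rw [h1, h3]
  field_simp

lemma ft_hasSum (a : Par) {L : ℂ → ℂ} (h : HasSum (fun m : ℤ × ℤ =>
      if m = 0 then 0 else mm a m ^ 2 / ((‖mm a m‖ ^ 2 : ℝ) : ℂ) ^ (4 : ℂ)) (L 4)) :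
    Summable (ft a) := by
  refine h.summable.congr fun m => ?_
  unfold ft
  by_cases h0 : m = 0
  · rw [if_pos h0, h0]
    simp [mm]
  · rw [if_neg h0]
    by_cases hz : mm a m = 0
    · rw [hz]
      simp
    · exact Fin_pow _ hz

lemma ft_smul (a : Par) (c : ℤ) (m : ℤ × ℤ) :
    ft a (c * m.1, c * m.2) = (1 / (c : ℂ) ^ 6) * ft a m := by
  unfold ft
  rw [mm_smul, cj, map_mul, map_intCast]
  rw [mul_pow, mul_pow]
  by_cases hc : (c : ℂ) = 0
  · rw [hc]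
    simp
  by_cases hz : mm a m = 0
  · rw [hz]
    simp
  have h2 : (starRingEnd ℂ) (mm a m) ≠ 0 := (map_ne_zero (starRingEnd ℂ)).2 hz
  field_simp

open Classical in
lemma half (a : Par) (c : ℕ) (hc : c.Prime)
    (hin : ∀ m : ℤ × ℤ, (c : ℤ) ∣ fm a m → (c : ℤ) ∣ m.1 ∧ (c : ℤ) ∣ m.2)
    (hs : Summable (ft a)) :
    ∑' m : ℤ × ℤ, (if (c : ℤ) ∣ fm a m then 0 else 1) / (mm a m ^ 2 * cj (mm a m) ^ 4) =
      (1 - 1 / (c : ℂ) ^ 6) * E42 a := by
  set g : ℤ × ℤ → ℂ := fun m => if (c : ℤ) ∣ fm a m then ft a m else 0 with hg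
  have hc0 : (c : ℤ) ≠ 0 := by exact_mod_cast hc.ne_zero
  have hinj : Function.Injective (fun m : ℤ × ℤ => ((c : ℤ) * m.1, (c : ℤ) * m.2)) := by
    intro m n h
    have h1 := (Prod.ext_iff.1 h).1
    have h2 := (Prod.ext_iff.1 h).2
    exact Prod.ext (mul_left_cancel₀ hc0 h1) (mul_left_cancel₀ hc0 h2)
  have hg1 : ∀ m : ℤ × ℤ, g ((c : ℤ) * m.1, (c : ℤ) * m.2) = (1 / (c : ℂ) ^ 6) * ft a m := by
    intro m
    rw [hg]
    simp only
    rw [if_pos, ft_smul]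
    · push_cast
      rfl
    · rw [fm_smul]
      exact ⟨c * fm a m, by ring⟩
  have hsupp : Function.support g ⊆ Set.range (fun m : ℤ × ℤ => ((c : ℤ) * m.1, (c : ℤ) * m.2)) := by
    intro m hm
    rw [Function.mem_support, hg] at hm
    simp only at hm
    by_cases h : (c : ℤ) ∣ fm a m
    · obtain ⟨⟨x, hx⟩, ⟨y, hy⟩⟩ := hin m h
      exact ⟨(x, y), Prod.ext hx.symm hy.symm⟩
    · rw [if_neg h] at hm
      exact absurd rfl hm
  have e1 : ∑' m, g m = (1 / (c : ℂ) ^ 6) * ∑' m, ft a m := by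
    rw [← hinj.tsum_eq hsupp, ← tsum_mul_left]
    exact tsum_congr hg1
  have sg : Summable g := by
    refine Summable.of_norm_bounded hs.norm fun m => ?_
    rw [hg]
    simp only
    split_ifs
    · exact le_rfl
    · rw [norm_zero]
      exact norm_nonneg _
  have e2 : ∀ m : ℤ × ℤ, (if (c : ℤ) ∣ fm a m then 0 else 1) / (mm a m ^ 2 * cj (mm a m) ^ 4) =
      ft a m - g m := by
    intro m
    rw [hg]
    simp only
    unfold ft
    split_ifs
    · simp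
    · simp
  rw [tsum_congr e2, hs.tsum_sub sg, e1]
  have e3 : E42 a = ∑' m, ft a m := rfl
  rw [e3]
  ring

/-- the regulator integral -/
theorem int_reg (a : Par) (c : ℕ) (hc : c.Prime)
    (hin : ∀ m : ℤ × ℤ, (c : ℤ) ∣ fm a m → (c : ℤ) ∣ m.1 ∧ (c : ℤ) ∣ m.2)
    (N : ℕ) [NeZero N] (hN : (2 * c * nab a : ℤ) ∣ N) {L : ℂ → ℂ}
    (hL : ∀ s : ℂ, 2 < s.re → HasSum (fun m : ℤ × ℤ =>
      if m = 0 then 0 else mm a m ^ 2 / ((‖mm a m‖ ^ 2 : ℝ) : ℂ) ^ s) (L s))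
    (hd : deriv L (-1) = -(6 * (sD a / (2 * a.A * Real.pi)) ^ 5 : ℝ) * E42 a) :
    Integrable (fun q : E × E => Reg a (Wt a c : G N → G N → ℤ) (cu a q.1) (cu a q.2)) ∧
    ∫ q : E × E, Reg a (Wt a c : G N → G N → ℤ) (cu a q.1) (cu a q.2) =
      -(64 * (Real.pi : ℂ) ^ 3 * a.A ^ 3 * N ^ 6 * ((c : ℂ) ^ 3 - 1 / (c : ℂ) ^ 3) *
        (alp a * (1 - alp a)) ^ 2 / ((4 * a.A * a.C - a.B ^ 2) * nab a ^ 3)) * deriv L (-1) := by
  have hs : Summable (ft a) := ft_hasSum a (hL 4 (by norm_num))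
  have hev : Even N := by
    have h2 : (2 : ℤ) ∣ N := Dvd.dvd.trans ⟨c * nab a, by ring⟩ hN
    exact even_iff_two_dvd.2 (by exact_mod_cast h2)
  obtain ⟨h1, h2⟩ := reg_val a N hev (Wt a c : G N → G N → ℤ) (fun k l => Wt_even a c k l)
    (fun k l => Wt_anti a c k l) (fun l => Wt_row a c hc N hN l) (fun k l h => Wt_supp a c N hN k l h)
  refine ⟨h1, ?_⟩
  rw [h2, Wd_sum a c hc N hN]
  have h3 := eval a (fun d => if (c : ℤ) ∣ d then 0 else 1) ⟨1, fun d => by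
    split_ifs
    · rw [norm_zero]; exact zero_le_one
    · rw [norm_one]⟩ (fun d => by simp only [dvd_neg]) (by simp)
  have h4 := half a c hc hin hs
  have h5 : (∑' m : ℤ × ℤ, (if (c : ℤ) ∣ fm a m then (0 : ℂ) else 1) /
      (mm a m ^ 2 * cj (mm a m) ^ 4)) = (1 - 1 / (c : ℂ) ^ 6) * E42 a := by
    convert h4 using 3
  rw [h5] at h3
  rw [h3]
  -- the constants
  have hA := A_ne a
  have hs0 : (sD a : ℂ) ≠ 0 := by
    exact_mod_cast (sD_pos a).ne'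
  have hpi : (Real.pi : ℂ) ≠ 0 := by
    exact_mod_cast Real.pi_ne_zero
  have hcc : (c : ℂ) ≠ 0 := by
    exact_mod_cast hc.ne_zero
  have hal := alp_ne a
  have hbe := bet_ne a
  have hcal := cj_alp_ne a
  have hcbe := cj_bet_ne a
  have hn := alp_mul a
  have hb := bet_mul a
  have hsub := alp_sub a
  have hsq := sD_sqC a
  have hnab : (nab a : ℂ) = (alp a * cj (alp a)) * ((1 - alp a) * cj (1 - alp a)) := by
    rw [cj_one_sub, hn, hb, nab]
    push_cast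
    ring
  have hkap : ((kap a : ℝ) : ℂ) = 2 * a.A * Real.pi / sD a := by
    unfold kap
    push_cast
    ring
  rw [hd, hsub, hnab, hkap, ← hsq]
  push_cast
  have hI : Complex.I ^ 2 = -1 := Complex.I_sq
  set X := alp a
  set Y := cj (alp a)
  set U := 1 - X
  set V := cj U
  set S := (sD a : ℂ)
  field_simp
  ring_nf
  rw [hI]
  ring

end

end UNL
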