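import Pool.Agent.UNL.AMain

/-!
# UNL part (A): closedness (architect helper31)
-/

namespace UNL

/-- the sum of all translates of `ξ` is closed -/
theorem closed (a : Par) (c : ℕ) (hc : c.Prime) (N : ℕ) [NeZero N]
    (hN : (2 * c * nab a : ℤ) ∣ N) (Φ : (Additive (Gn a N → ℂˣ)) [⋀^Fin 4]→ₗ[ℤ] ℂ) :
    bdry a (Wt a c : G N → G N → ℤ) Φ = 0 :=
  closed' a c hc N hN Φ

end UNL
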