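import Pool.Agent.UNL.Gen
import Pool.Agent.UNL.Fin
import Pool.Agent.UNL.PartA
import Pool.Agent.UQO.TorAe

/-!
# UNL: the closed element (sum of all torsion translates) and its regulator
-/

open MeasureTheory

namespace UNL.Gen

noncomputable section

/-- the closed element: the sum of all translates of `ξ` -/
def Xi (a : Par) {N : ℕ} [NeZero N] (W : G N → G N → ℤ) {M : Type*} [AddCommGroup M]
    (T : (ℂ → ℂ → ℂ) → (ℂ → ℂ → ℂ) → (ℂ → ℂ → ℂ) → M) : M :=
  ∑ s : G N, ∑ t : G N, xi a W (fun F g h => T (tr a s t F) (tr a s t g) (tr a s t h))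

/-- its regulator form -/
def XReg (a : Par) {N : ℕ} [NeZero N] (W : G N → G N → ℤ) (u v : ℂ) : ℂ :=
  Xi a W (fun F g h => (EE7.BW (F u v) : ℂ) * wedge g h u v)

lemma wedge_tr (a : Par) {N : ℕ} (s t : G N) (g h : ℂ → ℂ → ℂ) (u v : ℂ) :
    wedge (tr a s t g) (tr a s t h) u v = wedge g h (u + tp a s) (v + tp a t) := by
  have d1 : ∀ f : ℂ → ℂ → ℂ, deriv (fun w => tr a s t f w v) u =
      deriv (fun w => f w (v + tp a t)) (u + tp a s) := by
    intro f
    rw [← deriv_comp_add_const]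
    rfl
  have d2 : ∀ f : ℂ → ℂ → ℂ, deriv (fun w => tr a s t f u w) v =
      deriv (fun w => f (u + tp a s) w) (v + tp a t) := by
    intro f
    rw [← deriv_comp_add_const]
    rfl
  simp only [wedge]
  rw [d1, d1, d2, d2]
  rfl

lemma XReg_eq (a : Par) {N : ℕ} [NeZero N] (W : G N → G N → ℤ) (u v : ℂ) :
    XReg a W u v = ∑ s : G N, ∑ t : G N, Reg a W (u + tp a s) (v + tp a t) := by
  simp only [XReg, Xi, Reg, wedge_tr]
  rfl

theorem Xi_closed (a : Par) (c : ℕ) (hc : c.Prime) (N : ℕ) [NeZero N]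
    (hN : (2 * c * nab a : ℤ) ∣ N) (Φ : (Additive (Gn a N → ℂˣ)) [⋀^Fin 4]→ₗ[ℤ] ℂ) :
    Xi a (Wt a c : G N → G N → ℤ) (fun F g h =>
      Φ ![cl a N (fun u v => 1 - F u v), cl a N F, cl a N g, cl a N h]) = 0 :=
  closed a c hc N hN Φ

/-! ### translation of the integral -/

lemma Reg_tr_per (a : Par) {N : ℕ} [NeZero N] (W : G N → G N → ℤ) (x y : ℂ) :
    Per2 a (fun u v => Reg a W (u + x) (v + y)) := by
  intro u v m n
  have h := Reg_per2 a W (u + x) (v + y) m n
  simp only at h ⊢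
  rw [← h]
  congr 1 <;> ring

lemma XReg_per2 (a : Par) {N : ℕ} [NeZero N] (W : G N → G N → ℤ) :
    Per2 a (fun u v => XReg a W u v) := by
  intro u v m n
  simp only [XReg_eq]
  refine Finset.sum_congr rfl fun s _ => Finset.sum_congr rfl fun t _ => ?_
  exact Reg_tr_per a W (tp a s) (tp a t) u v m n

/-- translations preserve integrals over `E × E` -/
theorem int_tr (a : Par) {R : ℂ → ℂ → ℂ} (hR : Per2 a R) (x y : ℂ)
    (hi : Integrable (fun q : E × E => R (cu a q.1) (cu a q.2))) :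
    Integrable (fun q : E × E => R (cu a q.1 + x) (cu a q.2 + y)) ∧
    ∫ q : E × E, R (cu a q.1 + x) (cu a q.2 + y) = ∫ q : E × E, R (cu a q.1) (cu a q.2) := by
  let _ : UQO.Lt := ⟨tau a, tau_im_pos a⟩
  have hcu : ∀ z : E, cu a z = UQO.cu z := fun _ => rfl
  have h1 : ∀ v, UQO.Per (fun u => R u v) := by
    intro v u n
    have := hR u v n 0
    rw [xx_zero, add_zero] at this
    exact this
  have h2 : ∀ u, UQO.Per (R u) := by
    intro u v n
    have := hR u v 0 n
    rw [xx_zero, add_zero] at this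
    exact this
  have hmp := UQO.mp_shift (UQO.pr x) (UQO.pr y)
  have e : (fun q : E × E => R (cu a q.1 + x) (cu a q.2 + y)) =
      (fun q : E × E => R (cu a q.1) (cu a q.2)) ∘
        (fun q : E × E => (q.1 + UQO.pr x, q.2 + UQO.pr y)) := by
    funext q
    show R (UQO.cu q.1 + x) (UQO.cu q.2 + y) =
      R (UQO.cu (q.1 + UQO.pr x)) (UQO.cu (q.2 + UQO.pr y))
    rw [UQO.per_cu_add_pr (h1 _), UQO.per_cu_add_pr (h2 _)]
  constructor
  · rw [e]
    exact hmp.integrable_comp_of_integrable hi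
  · have h := integral_map (μ := (volume : Measure (E × E)))
        hmp.measurable.aemeasurable (f := fun q : E × E => R (cu a q.1) (cu a q.2))
        (by rw [hmp.map_eq]; exact hi.aestronglyMeasurable)
    rw [hmp.map_eq] at h
    rw [h]
    exact congrArg (fun f : E × E → ℂ => ∫ q, f q) e

/-- the integral of the regulator form of the closed element -/
theorem int_XReg (a : Par) (c : ℕ) (hc : c.Prime)
    (hin : ∀ m : ℤ × ℤ, (c : ℤ) ∣ fm a m → (c : ℤ) ∣ m.1 ∧ (c : ℤ) ∣ m.2)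
    (N : ℕ) [NeZero N] (hN : (2 * c * nab a : ℤ) ∣ N) {L : ℂ → ℂ}
    (hL : ∀ s : ℂ, 2 < s.re → HasSum (fun m : ℤ × ℤ =>
      if m = 0 then 0 else mm a m ^ 2 / ((‖mm a m‖ ^ 2 : ℝ) : ℂ) ^ s) (L s))
    (hd : deriv L (-1) = -(6 * (sD a / (2 * a.A * Real.pi)) ^ 5 : ℝ) * E42 a) :
    Integrable (fun q : E × E => XReg a (Wt a c : G N → G N → ℤ) (cu a q.1) (cu a q.2)) ∧
    ∫ q : E × E, XReg a (Wt a c : G N → G N → ℤ) (cu a q.1) (cu a q.2) =
      -(64 * (Real.pi : ℂ) ^ 3 * a.A ^ 3 * N ^ 10 * ((c : ℂ) ^ 3 - 1 / (c : ℂ) ^ 3) *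
        (alp a * (1 - alp a)) ^ 2 / ((4 * a.A * a.C - a.B ^ 2) * nab a ^ 3)) * deriv L (-1) := by
  obtain ⟨h1, h2⟩ := int_reg a c hc hin N hN hL hd
  have h3 := fun s t : G N => int_tr a (Reg_per2 a (Wt a c : G N → G N → ℤ)) (tp a s) (tp a t) h1
  simp only [XReg_eq]
  constructor
  · exact integrable_finsetSum _ fun s _ => integrable_finsetSum _ fun t _ => (h3 s t).1
  · rw [integral_finsetSum _ fun s _ => integrable_finsetSum _ fun t _ => (h3 s t).1]
    have e : ∀ s : G N, ∫ q : E × E, ∑ t : G N,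
        Reg a (Wt a c : G N → G N → ℤ) (cu a q.1 + tp a s) (cu a q.2 + tp a t) =
        (N : ℂ) ^ 2 * ∫ q : E × E, Reg a (Wt a c : G N → G N → ℤ) (cu a q.1) (cu a q.2) := by
      intro s
      rw [integral_finsetSum _ fun t _ => (h3 s t).1]
      rw [Finset.sum_congr rfl fun t _ => (h3 s t).2]
      rw [Finset.sum_const, Finset.card_univ, Fintype.card_prod, ZMod.card, nsmul_eq_mul]
      push_cast
      ring
    rw [Finset.sum_congr rfl fun s _ => e s]
    rw [Finset.sum_const, Finset.card_univ, Fintype.card_prod, ZMod.card, nsmul_eq_mul, h2]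
    push_cast
    ring

/-! ### invariance under `(u, v) ↦ (-u, -v)` -/

lemma P_tp_neg (a : Par) {N : ℕ} [NeZero N] (k : G N) (z : ℂ) :
    P a (z + tp a (-k)) = P a (z - tp a k) := by
  obtain ⟨n, hn⟩ := tp_neg a k
  rw [hn, show z + (-tp a k + xx a n) = z - tp a k + xx a n by ring, P_per a]

lemma P_tp_neg0 (a : Par) {N : ℕ} [NeZero N] (k : G N) : P a (tp a (-k)) = P a (tp a k) := by
  have := P_tp_neg a k 0
  rw [zero_add, zero_sub, P_neg] at this
  exact this

lemma Ff_neg (a : Par) {N : ℕ} [NeZero N] (h : G N) (u v : ℂ) :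
    Ff a (tp a (-h)) (-u) (-v) = Ff a (tp a h) u v := by
  simp only [Ff]
  rw [P_tp_neg, P_tp_neg, P_tp_neg0, show -u - tp a h = -(u + tp a h) by ring,
    show -v - tp a h = -(v + tp a h) by ring, P_neg, P_neg]

lemma Yf_neg (a : Par) (x y z : ℂ) : Yf a x y (-z) = Yf a x y z := by
  simp only [Yf, P_neg]

lemma Af_neg (a : Par) {N : ℕ} [NeZero N] (k : G N) (z : ℂ) : Af a k (-z) = Af a k z := by
  simp only [Af, P_neg]
  congr 1
  refine Finset.prod_equiv (Equiv.neg (G N)) (by simp) ?_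
  intro s _
  have h := P_tp_neg a s z
  rw [Equiv.neg_apply, h, show -z + tp a s = -(z - tp a s) by ring, P_neg]

lemma Cf_neg (a : Par) (N : ℕ) [NeZero N] (z : ℂ) : Cf a N (-z) = Cf a N z := by
  simp only [Cf, P_neg]

lemma wedge_neg {g h g' h' : ℂ → ℂ → ℂ} (hg : ∀ u v, g (-u) (-v) = g' u v)
    (hh : ∀ u v, h (-u) (-v) = h' u v) (u v : ℂ) : wedge g h (-u) (-v) = wedge g' h' u v := by
  have d1 : ∀ {f f' : ℂ → ℂ → ℂ}, (∀ u v, f (-u) (-v) = f' u v) →
      deriv (fun w => f w (-v)) (-u) = -deriv (fun w => f' w v) u := by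
    intro f f' hf
    have e : (fun w => f' w v) = fun w => (fun w => f w (-v)) (-w) := by
      funext w
      exact (hf w v).symm
    rw [e, deriv_comp_neg (fun w => f w (-v)) u, neg_neg]
  have d2 : ∀ {f f' : ℂ → ℂ → ℂ}, (∀ u v, f (-u) (-v) = f' u v) →
      deriv (fun w => f (-u) w) (-v) = -deriv (fun w => f' u w) v := by
    intro f f' hf
    have e : (fun w => f' u w) = fun w => (fun w => f (-u) w) (-w) := by
      funext w
      exact (hf u w).symm
    rw [e, deriv_comp_neg (fun w => f (-u) w) v, neg_neg]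
  simp only [wedge]
  rw [d1 hg, d1 hh, d2 hg, d2 hh, hg, hh]
  ring

lemma Reg_neg (a : Par) {N : ℕ} [NeZero N] (W : G N → G N → ℤ) (u v : ℂ) :
    Reg a W (-u) (-v) = Reg a W u v := by
  have hA : ∀ (k : G N) (u v : ℂ), (fun u (_ : ℂ) => Af a k u) (-u) (-v) = Af a k u :=
    fun k u v => Af_neg a k u
  have hA' : ∀ (k : G N) (u v : ℂ), (fun (_ : ℂ) v => Af a k v) (-u) (-v) = Af a k v :=
    fun k u v => Af_neg a k v
  have hC : ∀ (u v : ℂ), (fun u v => Cf a N (u - v)) (-u) (-v) = Cf a N (u - v) := by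
    intro u v
    show Cf a N (-u - -v) = Cf a N (u - v)
    rw [show -u - -v = -(u - v) by ring, Cf_neg]
  simp only [Reg, xi]
  refine Finset.sum_congr rfl fun k _ => Finset.sum_congr rfl fun l _ => ?_
  congr 1
  congr 1
  · congr 1
    · congr 1
      refine Finset.sum_equiv (Equiv.neg (G N)) (by simp) ?_
      intro h _
      rw [Equiv.neg_apply, wedge_neg (hA k) (hA' l)]
      have := Ff_neg a (-h) u v
      rw [neg_neg] at this
      rw [this]
    · refine Finset.sum_congr rfl fun j _ => ?_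
      rw [Yf_neg, wedge_neg hC (hA' l)]
  · refine Finset.sum_congr rfl fun j _ => ?_
    rw [Yf_neg, wedge_neg hC (hA k)]

theorem XReg_neg (a : Par) {N : ℕ} [NeZero N] (W : G N → G N → ℤ) (u v : ℂ) :
    XReg a W (-u) (-v) = XReg a W u v := by
  rw [XReg_eq, XReg_eq]
  refine Finset.sum_equiv (Equiv.neg (G N)) (by simp) ?_
  intro s _
  refine Finset.sum_equiv (Equiv.neg (G N)) (by simp) ?_
  intro t _
  show Reg a W (-u + tp a s) (-v + tp a t) = Reg a W (u + tp a (-s)) (v + tp a (-t))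
  obtain ⟨m, hm⟩ := tp_neg a s
  obtain ⟨n, hn⟩ := tp_neg a t
  have h := Reg_per2 a W (u - tp a s) (v - tp a t) m n
  simp only at h
  rw [hm, hn, show u + (-tp a s + xx a m) = u - tp a s + xx a m by ring,
    show v + (-tp a t + xx a n) = v - tp a t + xx a n by ring, h,
    show -u + tp a s = -(u - tp a s) by ring, show -v + tp a t = -(v - tp a t) by ring, Reg_neg]

end

end UNL.Gen
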