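import Pool.Agent.UNL.All

/-!
# UNL: an entire function with real values on `(2, ∞)` has real derivative at `-1`
-/

open Filter Topology

namespace UNL.Gen

theorem real_deriv {L : ℂ → ℂ} (hd : Differentiable ℂ L)
    (h : ∀ s : ℝ, 2 < s → (L s).im = 0) : (deriv L (-1)).im = 0 := by
  set M : ℂ → ℂ := fun s => (starRingEnd ℂ) (L ((starRingEnd ℂ) s)) with hM
  have hdM : ∀ z, HasDerivAt M ((starRingEnd ℂ) (deriv L ((starRingEnd ℂ) z))) z := by
    intro z
    have h1 : HasDerivAt L (deriv L ((starRingEnd ℂ) z)) ((starRingEnd ℂ) z) :=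
      (hd _).hasDerivAt
    have h2 := h1.conj_conj
    rw [Complex.conj_conj] at h2
    exact h2
  have hMd : Differentiable ℂ M := fun z => (hdM z).differentiableAt
  have a1 : AnalyticOnNhd ℂ M Set.univ := fun z _ => hMd.analyticAt z
  have a2 : AnalyticOnNhd ℂ L Set.univ := fun z _ => hd.analyticAt z
  have hf : ∃ᶠ z in 𝓝[≠] (3 : ℂ), M z = L z := by
    have ht : Tendsto (fun n : ℕ => ((3 + 1 / ((n : ℝ) + 1) : ℝ) : ℂ)) atTop (𝓝[≠] (3 : ℂ)) := by
      refine tendsto_nhdsWithin_iff.2 ⟨?_, Filter.Eventually.of_forall fun n => ?_⟩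
      · have h1 : Tendsto (fun n : ℕ => (3 + 1 / ((n : ℝ) + 1) : ℝ)) atTop (𝓝 (3 + 0)) :=
          tendsto_const_nhds.add tendsto_one_div_add_atTop_nhds_zero_nat
        have h2 := (Complex.continuous_ofReal.tendsto (3 + 0)).comp h1
        have h3 : (((3 + 0 : ℝ)) : ℂ) = 3 := by norm_num
        rw [h3] at h2
        exact h2
      · have hn : (0 : ℝ) < 1 / ((n : ℝ) + 1) := by positivity
        intro h0
        have h1 : ((3 + 1 / ((n : ℝ) + 1) : ℝ) : ℂ) = ((3 : ℝ) : ℂ) := by
          rw [Set.mem_singleton_iff] at h0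
          rw [h0]
          norm_num
        have h2 := Complex.ofReal_injective h1
        linarith
    refine ht.frequently (Filter.Frequently.of_forall fun n => ?_)
    have hn : (0 : ℝ) < 1 / ((n : ℝ) + 1) := by positivity
    have h1 := h (3 + 1 / ((n : ℝ) + 1)) (by linarith)
    show (starRingEnd ℂ) (L ((starRingEnd ℂ) _)) = L _
    rw [Complex.conj_ofReal]
    exact Complex.conj_eq_iff_im.2 h1
  have he : M = L := a1.eq_of_frequently_eq a2 hf
  have h3 : deriv M (-1) = deriv L (-1) := by rw [he]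
  rw [(hdM (-1)).deriv] at h3
  have h4 : (starRingEnd ℂ) (-1 : ℂ) = -1 := by simp
  rw [h4] at h3
  exact Complex.conj_eq_iff_im.1 h3

end UNL.Gen
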