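import Mathlib

/-!
# UNL part (W): integral matrices acting on `(ZMod N)²`, kernels and fibres
-/

namespace UNL

/-- an integral `2 × 2` matrix `(p q; r s)` -/
structure M2 where
  p : ℤ
  q : ℤ
  r : ℤ
  s : ℤ

namespace M2

variable (m : M2)

/-- determinant -/
def det : ℤ := m.p * m.s - m.q * m.r

/-- the action on integral vectors -/
def ai (k : ℤ × ℤ) : ℤ × ℤ := (m.p * k.1 + m.q * k.2, m.r * k.1 + m.s * k.2)

/-- the action on vectors mod `N` -/
def az {N : ℕ} (k : ZMod N × ZMod N) : ZMod N × ZMod N :=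
  (m.p * k.1 + m.q * k.2, m.r * k.1 + m.s * k.2)

/-- the adjoint action for the pairing `n.1 k.2 + n.2 k.1` -/
def du (n : ℤ × ℤ) : ℤ × ℤ := (m.s * n.1 + m.q * n.2, m.r * n.1 + m.p * n.2)

/-- reduction mod `N` -/
def rd (N : ℕ) : ℤ × ℤ →+ ZMod N × ZMod N where
  toFun k := ((k.1 : ZMod N), (k.2 : ZMod N))
  map_zero' := by simp
  map_add' k l := by simp

theorem rd_surj (N : ℕ) : Function.Surjective (rd N) := by
  rintro ⟨x, y⟩
  obtain ⟨x', rfl⟩ := ZMod.intCast_surjective x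
  obtain ⟨y', rfl⟩ := ZMod.intCast_surjective y
  exact ⟨(x', y'), rfl⟩

/-- the pairing -/
def pr (N : ℕ) (n : ℤ × ℤ) (k : ZMod N × ZMod N) : ZMod N := n.1 * k.2 + n.2 * k.1

theorem pr_du {N : ℕ} (n : ℤ × ℤ) (k : ZMod N × ZMod N) : pr N (m.du n) k = pr N n (m.az k) := by
  simp [pr, du, az]; ring

theorem az_rd (N : ℕ) (k : ℤ × ℤ) : m.az (rd N k) = rd N (m.ai k) := by
  simp [az, rd, ai]

/-- `az` as a homomorphism -/
def azh (N : ℕ) : ZMod N × ZMod N →+ ZMod N × ZMod N where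
  toFun := m.az
  map_zero' := by simp [az]
  map_add' k l := by ext <;> simp [az] <;> ring

@[simp] theorem azh_apply (N : ℕ) (k : ZMod N × ZMod N) : m.azh N k = m.az k := rfl

/-- `ai` as a linear map -/
def ail : ℤ × ℤ →ₗ[ℤ] ℤ × ℤ where
  toFun := m.ai
  map_add' k l := by ext <;> simp [ai] <;> ring
  map_smul' x k := by ext <;> simp [ai] <;> ring

@[simp] theorem ail_apply (k : ℤ × ℤ) : m.ail k = m.ai k := rfl

theorem det_ail : LinearMap.det m.ail = m.det := by
  rw [← LinearMap.det_toMatrix (Module.Basis.finTwoProd ℤ), Matrix.det_fin_two]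
  simp [LinearMap.toMatrix_apply, ai, det]

theorem ail_inj (h : m.det ≠ 0) : Function.Injective m.ail := by
  rw [injective_iff_map_eq_zero]
  intro k hk
  have h1 := congrArg Prod.fst hk
  have h2 := congrArg Prod.snd hk
  simp only [ail_apply, ai, Prod.fst_zero, Prod.snd_zero] at h1 h2
  have e1 : m.det * k.1 = 0 := by simp only [det]; linear_combination m.s * h1 - m.q * h2
  have e2 : m.det * k.2 = 0 := by simp only [det]; linear_combination -m.r * h1 + m.p * h2
  exact Prod.ext ((mul_eq_zero.1 e1).resolve_left h) ((mul_eq_zero.1 e2).resolve_left h)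

theorem index_range (h : m.det ≠ 0) :
    (LinearMap.range m.ail).toAddSubgroup.index = m.det.natAbs := by
  let e : (ℤ × ℤ) ≃ₗ[ℤ] LinearMap.range m.ail := LinearEquiv.ofInjective m.ail (m.ail_inj h)
  have h1 := Submodule.natAbs_det_equiv (LinearMap.range m.ail) e
  have h2 : ((LinearMap.range m.ail).subtype ∘ₗ
      AddMonoidHom.toIntLinearMap (e : (ℤ × ℤ) →+ LinearMap.range m.ail)) = m.ail := by
    ext <;> simp [e]
  rw [h2, det_ail] at h1
  rw [h1]
  rfl

/-- the adjugate -/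
def adj : M2 := ⟨m.s, -m.q, -m.r, m.p⟩

theorem ai_adj (k : ℤ × ℤ) : m.ai (m.adj.ai k) = m.det • k := by
  ext <;> simp [ai, adj, det] <;> ring

theorem adj_ai (k : ℤ × ℤ) : m.adj.ai (m.ai k) = m.det • k := by
  ext <;> simp [ai, adj, det] <;> ring

theorem du_adj (k : ℤ × ℤ) : m.du (m.adj.du k) = m.det • k := by
  ext <;> simp [du, adj, det] <;> ring

theorem adj_du (k : ℤ × ℤ) : m.adj.du (m.du k) = m.det • k := by
  ext <;> simp [du, adj, det] <;> ring

theorem rd_eq_zero {N : ℕ} {k : ℤ × ℤ} : rd N k = 0 ↔ ∃ j : ℤ × ℤ, k = (N : ℤ) • j := by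
  constructor
  · intro h
    have h1 := congrArg Prod.fst h
    have h2 := congrArg Prod.snd h
    simp only [rd, AddMonoidHom.coe_mk, ZeroHom.coe_mk, Prod.fst_zero, Prod.snd_zero] at h1 h2
    rw [ZMod.intCast_zmod_eq_zero_iff_dvd] at h1 h2
    obtain ⟨x, hx⟩ := h1
    obtain ⟨y, hy⟩ := h2
    exact ⟨(x, y), by ext <;> simp [hx, hy]⟩
  · rintro ⟨j, rfl⟩
    simp [rd]

/-- the kernel of `az` has `det` elements if `det ∣ N` -/
theorem card_ker {N : ℕ} [NeZero N] (h : 0 < m.det) (hd : m.det ∣ N) :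
    Nat.card (m.azh N).ker = m.det.natAbs := by
  have h1 : Nat.card (m.azh N).ker * Nat.card (m.azh N).range = Nat.card (ZMod N × ZMod N) := by
    rw [← AddSubgroup.index_ker]
    exact AddSubgroup.card_mul_index _
  have h2 : Nat.card (m.azh N).range * (m.azh N).range.index = Nat.card (ZMod N × ZMod N) :=
    AddSubgroup.card_mul_index _
  have h3 : 0 < Nat.card (m.azh N).range := Nat.card_pos
  have h4 : Nat.card (m.azh N).ker = (m.azh N).range.index := by
    refine Nat.eq_of_mul_eq_mul_left h3 ?_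
    rw [h2, ← h1, mul_comm]
  rw [h4, ← m.index_range h.ne', ← AddSubgroup.index_comap_of_surjective _ (rd_surj N)]
  congr 1
  ext v
  constructor
  · rintro ⟨k, hk⟩
    obtain ⟨k', rfl⟩ := rd_surj N k
    rw [azh_apply, az_rd] at hk
    have h5 : rd N (v - m.ai k') = 0 := by rw [map_sub, hk, sub_self]
    obtain ⟨j, hj⟩ := rd_eq_zero.1 h5
    obtain ⟨w, hw⟩ := hd
    refine ⟨k' + m.adj.ai (w • j), ?_⟩
    have h6 : m.ai (k' + m.adj.ai (w • j)) = m.ai k' + m.ai (m.adj.ai (w • j)) :=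
      m.ail.map_add _ _
    rw [ail_apply, h6, ai_adj, smul_smul, ← hw, ← hj]
    abel
  · rintro ⟨k, rfl⟩
    exact ⟨rd N k, by rw [azh_apply, az_rd]; rfl⟩

/-- fibres over the `c`-torsion -/
theorem exists_pre {N : ℕ} [NeZero N] {c : ℕ} (hd : (c : ℤ) * m.det ∣ N)
    {y : ZMod N × ZMod N} (hy : c • y = 0) : ∃ k, m.az k = y := by
  obtain ⟨y', rfl⟩ := rd_surj N y
  have h1 : rd N ((c : ℤ) • y') = 0 := by rw [map_zsmul, natCast_zsmul, hy]
  obtain ⟨j, hj⟩ := rd_eq_zero.1 h1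
  obtain ⟨w, hw⟩ := hd
  have hc : (c : ℤ) ≠ 0 := by
    rintro h0
    rw [h0, zero_mul, zero_mul] at hw
    exact NeZero.ne N (by exact_mod_cast hw)
  refine ⟨rd N (m.adj.ai (w • j)), ?_⟩
  rw [az_rd, ai_adj, smul_smul]
  congr 1
  have h2 : (c : ℤ) • ((m.det * w) • j) = (c : ℤ) • y' := by
    rw [smul_smul, hj, ← mul_assoc, ← hw]
  exact smul_right_injective _ hc h2

theorem sum_az {N : ℕ} [NeZero N] {c : ℕ} (h : 0 < m.det) (hd : (c : ℤ) * m.det ∣ N)
    {F : ZMod N × ZMod N → ℂ} (hF : ∀ k, c • k ≠ 0 → F k = 0) :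
    ∑ k, F (m.az k) = m.det * ∑ k, F k := by
  classical
  have h1 : ∑ k, F (m.az k) = ∑ y, ∑ k ∈ Finset.univ.filter (fun k => m.az k = y), F (m.az k) :=
    (Finset.sum_fiberwise _ _ _).symm
  rw [h1, Finset.mul_sum]
  refine Finset.sum_congr rfl fun y _ => ?_
  by_cases hy : c • y = 0
  · obtain ⟨k0, hk0⟩ := m.exists_pre hd hy
    have h2 : ∑ k ∈ Finset.univ.filter (fun k => m.az k = y), F (m.az k) =
        ∑ k ∈ Finset.univ.filter (fun k => m.az k = y), F y :=
      Finset.sum_congr rfl fun k hk => by rw [(Finset.mem_filter.1 hk).2]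
    rw [h2, Finset.sum_const, nsmul_eq_mul]
    congr 1
    have h3 : (Finset.univ.filter (fun k => m.az k = y)).card = Nat.card (m.azh N).ker := by
      rw [Nat.card_eq_fintype_card, ← Fintype.card_subtype]
      refine Fintype.card_congr ⟨fun k => ⟨k.1 - k0, ?_⟩, fun k => ⟨k.1 + k0, ?_⟩, ?_, ?_⟩
      · rw [AddMonoidHom.mem_ker, map_sub, azh_apply, azh_apply, k.2, hk0, sub_self]
      · have := (AddMonoidHom.mem_ker.1 k.2)
        rw [← azh_apply, map_add, this, azh_apply, hk0, zero_add]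
      · intro k; simp
      · intro k; simp
    rw [h3, m.card_ker h ((Dvd.intro_left _ rfl).trans hd)]
    have h4 : ((m.det.natAbs : ℕ) : ℤ) = m.det := Int.natAbs_of_nonneg h.le
    have h5 := congrArg (fun x : ℤ => (x : ℂ)) h4
    simp only [Int.cast_natCast] at h5
    exact h5
  · rw [hF y hy, mul_zero]
    refine Finset.sum_eq_zero fun k hk => ?_
    rw [(Finset.mem_filter.1 hk).2, hF y hy]

/-- a frequency which is not in the image of `du` is non trivial on the kernel of `az` -/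
theorem exists_ker {N : ℕ} [NeZero N] (h : 0 < m.det) (hd : m.det ∣ N) {x : ℤ × ℤ}
    (hx : ¬ ∃ r, x = m.du r) : ∃ k : ZMod N × ZMod N, m.az k = 0 ∧ pr N x k ≠ 0 := by
  by_contra hcon
  push Not at hcon
  obtain ⟨w, hw⟩ := hd
  have hw0 : w ≠ 0 := by
    rintro rfl
    rw [mul_zero] at hw
    exact NeZero.ne N (by exact_mod_cast hw)
  have key : ∀ j : ℤ × ℤ, pr N x (rd N (m.adj.ai (w • j))) = 0 := fun j => hcon _ (by
    rw [az_rd, ai_adj, smul_smul, ← hw]
    exact rd_eq_zero.2 ⟨j, rfl⟩)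
  have k2 : ∀ j : ℤ × ℤ, pr N (w • m.adj.du x) (rd N j) = 0 := by
    intro j
    have h1 := key j
    have h2 : pr N (w • m.adj.du x) (rd N j) = pr N x (rd N (m.adj.ai (w • j))) := by
      simp only [pr, du, rd, ai, AddMonoidHom.coe_mk, ZeroHom.coe_mk, Prod.smul_fst,
        Prod.smul_snd, smul_eq_mul]
      push_cast
      ring
    rw [h2, h1]
  have e1 := k2 (0, 1)
  have e2 := k2 (1, 0)
  simp only [pr, rd, AddMonoidHom.coe_mk, ZeroHom.coe_mk, Int.cast_one, Int.cast_zero, mul_one,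
    mul_zero, add_zero, zero_add] at e1 e2
  rw [ZMod.intCast_zmod_eq_zero_iff_dvd] at e1 e2
  obtain ⟨u, hu⟩ := e1
  obtain ⟨v, hv⟩ := e2
  refine hx ⟨(u, v), ?_⟩
  have h5 : w • m.adj.du x = (w * m.det) • ((u, v) : ℤ × ℤ) := by
    refine Prod.ext ?_ ?_
    · rw [hu, hw]
      simp only [Prod.smul_fst, smul_eq_mul]
      ring
    · rw [hv, hw]
      simp only [Prod.smul_snd, smul_eq_mul]
      ring
  have h6 : m.adj.du x = m.det • ((u, v) : ℤ × ℤ) := by
    rw [mul_smul] at h5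
    exact smul_right_injective _ hw0 h5
  have h7 := congrArg m.du h6
  rw [du_adj] at h7
  have h8 : m.du (m.det • ((u, v) : ℤ × ℤ)) = m.det • m.du (u, v) := by
    ext <;> simp [du] <;> ring
  rw [h8] at h7
  exact smul_right_injective _ h.ne' h7

end M2

end UNL
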