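import Mathlib

/-!
# UNL: elliptic curves with complex multiplication (MP_870c49_nt)

A positive definite form `(A, B, C)` gives `τ = (B + √(B² - 4 A C)) / (2 A)`, the lattice
`L = ℤ + ℤ τ` and the curve `ℂ / L`; `α = A τ` satisfies `α² = B α - A C` and `α L ⊆ L`.
The lattice of frequencies is `M = ℤ + ℤ τ̄`. For `A = 1` both lattices are the order `ℤ[α]`.
-/

namespace UNL

/-- positive definite binary quadratic forms -/
structure Par where
  A : ℤ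
  B : ℤ
  C : ℤ
  hA : 0 < A
  hD : B ^ 2 < 4 * A * C

noncomputable section

/-- `√|D|`, `D = B² - 4 A C` -/
def sD (a : Par) : ℝ := Real.sqrt (4 * a.A * a.C - a.B ^ 2)

/-- `τ = (B + √D) / (2 A)` -/
def tau (a : Par) : ℂ := ((a.B : ℂ) + (sD a : ℂ) * Complex.I) / (2 * a.A)

/-- `α = A τ` -/
def alp (a : Par) : ℂ := a.A * tau a

/-- the element `m.1 + m.2 τ` of `L` -/
def xx (a : Par) (m : ℤ × ℤ) : ℂ := m.1 + m.2 * tau a

/-- the frequency `n.1 - n.2 τ̄` -/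
def mm (a : Par) (n : ℤ × ℤ) : ℂ := n.1 - n.2 * (starRingEnd ℂ) (tau a)

/-- the form `A n₁² - B n₁ n₂ + C n₂² = A |mm n|²` -/
def fm (a : Par) (n : ℤ × ℤ) : ℤ := a.A * n.1 ^ 2 - a.B * n.1 * n.2 + a.C * n.2 ^ 2

/-- `Σ' η⁻² η̄⁻⁴` over the frequencies (the term of `η = 0` is `0`) -/
def E42 (a : Par) : ℂ := ∑' n : ℤ × ℤ, 1 / (mm a n ^ 2 * (starRingEnd ℂ) (mm a n) ^ 4)

end

end UNL
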