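import Pool.Agent.UNL.Defs
import Pool.Agent.UQO.NvAll

/-!
# UNL: the sum `E42` vanishes exactly when the lattice has an extra unit
-/

namespace UNL

/-- the lattice `L = ℤ + ℤ τ` has a unit `u ≠ ±1` -/
def ExtraUnit (a : Par) : Prop :=
  ∃ u : ℂ, ‖u‖ = 1 ∧ u ≠ 1 ∧ u ≠ -1 ∧ ∀ m : ℤ × ℤ, ∃ n : ℤ × ℤ, u * xx a m = xx a n

lemma tau_im_pos (a : Par) : 0 < (tau a).im := by
  have hA : (0 : ℝ) < a.A := by exact_mod_cast a.hA
  have hD : (0 : ℝ) < 4 * a.A * a.C - a.B ^ 2 := by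
    have := a.hD
    have h : ((a.B ^ 2 : ℤ) : ℝ) < ((4 * a.A * a.C : ℤ) : ℝ) := by exact_mod_cast this
    push_cast at h
    linarith
  have hs : 0 < sD a := Real.sqrt_pos.2 hD
  have h1 : tau a = (((a.B : ℝ) / (2 * a.A) : ℝ) : ℂ) + ((sD a / (2 * a.A) : ℝ) : ℂ) * Complex.I := by
    rw [tau]
    push_cast
    ring
  rw [h1, Complex.add_im, Complex.ofReal_im, Complex.im_ofReal_mul, Complex.I_im]
  have : 0 < sD a / (2 * a.A) := by positivity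
  linarith

lemma E42_eq (a : Par) : E42 a = (starRingEnd ℂ) (UQO.NvA.FF (tau a)) := by
  have h1 : ∀ n : ℤ × ℤ, 1 / (mm a n ^ 2 * (starRingEnd ℂ) (mm a n) ^ 4) =
      (starRingEnd ℂ) (UQO.NvA.tz (tau a) (n.1, -n.2)) := by
    intro n
    have h2 : mm a n = (starRingEnd ℂ) (UQO.NvA.lz (tau a) (n.1, -n.2)) := by
      simp only [mm, UQO.NvA.lz, map_add, map_mul, map_intCast]
      push_cast
      ring
    rw [h2, UQO.NvA.tz]
    simp only [UQO.NvA.cj, map_div₀, map_mul, map_pow, map_one, Complex.conj_conj]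
  rw [E42, tsum_congr h1]
  have h2 := ((Equiv.refl ℤ).prodCongr (Equiv.neg ℤ)).tsum_eq
    (fun p => (starRingEnd ℂ) (UQO.NvA.tz (tau a) p))
  have h3 : (starRingEnd ℂ) (UQO.NvA.FF (tau a)) =
      ∑' p : ℤ × ℤ, (starRingEnd ℂ) (UQO.NvA.tz (tau a) p) := by
    rw [UQO.NvA.FF]
    exact Complex.conj_tsum _
  rw [h3, ← h2]
  rfl

/-- `Σ' η⁻² η̄⁻⁴ = 0` exactly when `L` has a unit different from `±1` -/
theorem E42_eq_zero_iff (a : Par) : E42 a = 0 ↔ ExtraUnit a := by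
  rw [E42_eq, map_eq_zero]
  exact UQO.NvA.FF_iff (tau_im_pos a)

/-- nonvanishing, in the form with the hypothesis on the units -/
theorem E42_ne_of_units (a : Par) (h : ∀ u : ℂ, ‖u‖ = 1 →
    (∀ m : ℤ × ℤ, ∃ n : ℤ × ℤ, u * xx a m = xx a n) → u = 1 ∨ u = -1) : E42 a ≠ 0 := by
  intro h0
  obtain ⟨u, hu, h1, h2, h3⟩ := (E42_eq_zero_iff a).1 h0
  rcases h u hu h3 with h4 | h4
  · exact h1 h4
  · exact h2 h4

end UNL
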