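import Pool.Agent.UNL.Rat

/-!
# UNL: all ideal classes on one curve

`o = (1, B, n)` is the order `O = ℤ[α]`, `a = (A, B, C)` with `A C = n` is the ideal
`𝔞 = A ℤ + α ℤ = A L_a`, and `O ⊆ L_a`. Functions and forms of `ℂ / L_a` are pulled back to `ℂ / O`
by `(u, v) ↦ (μ u, v)`, `μ = x + y α`.
-/

open MeasureTheory

namespace UNL.Gen

noncomputable section

/-- `o` is the order of the lattice of `a` -/
structure Rel (o a : Par) : Prop where
  h1 : o.A = 1
  hB : o.B = a.B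
  hC : o.C = a.A * a.C

lemma Rel.sD {o a : Par} (h : Rel o a) : sD o = sD a := by
  unfold UNL.sD
  rw [h.h1, h.hB, h.hC]
  push_cast
  congr 1
  ring

lemma Rel.tau {o a : Par} (h : Rel o a) : tau o = alp a := by
  have h1 := h.sD
  have hA := A_ne a
  unfold alp UNL.tau
  rw [h1, h.h1, h.hB]
  push_cast
  field_simp

lemma Rel.alp {o a : Par} (h : Rel o a) : alp o = alp a := by
  rw [← h.tau, UNL.alp, h.h1]
  push_cast
  ring

/-- `μ = x + y α` -/
def mu (o : Par) (x y : ℤ) : ℂ := (x : ℂ) + y * tau o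

lemma mu_ne (o : Par) {x y : ℤ} (h : (x, y) ≠ (0, 0)) : mu o x y ≠ 0 := by
  intro h0
  apply h
  have h1 : xx o (x, y) = 0 := h0
  rw [← xx_zero o] at h1
  exact xx_inj o h1

lemma mu_mul {o a : Par} (h : Rel o a) (x y : ℤ) (s t : ℝ) :
    mu o x y * ((s : ℂ) + (t : ℂ) * tau o) =
      (((x : ℝ) * s - ((y * (a.A * a.C) : ℤ) : ℝ) * t : ℝ) : ℂ) +
        ((((y * a.A : ℤ) : ℝ) * s + (((x + y * a.B) * a.A : ℤ) : ℝ) * t : ℝ) : ℂ) * tau a := by
  have h1 := h.tau
  have h2 := alp_sq a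
  rw [mu, h1]
  push_cast at h2 ⊢
  have h3 : alp a = a.A * UNL.tau a := rfl
  linear_combination (y : ℂ) * t * h2 +
    ((y : ℂ) * s + (x : ℂ) * t + (y : ℂ) * a.B * t) * h3

/-- the map `q ↦ μ q` from `ℂ / O` to `ℂ / L_a`, in coordinates -/
def ph (a : Par) (x y : ℤ) : E →+ E where
  toFun q := (x • q.1 - (y * (a.A * a.C)) • q.2, (y * a.A) • q.1 + ((x + y * a.B) * a.A) • q.2)
  map_zero' := by simp
  map_add' p q := by
    refine Prod.ext ?_ ?_
    · show x • (p.1 + q.1) - (y * (a.A * a.C)) • (p.2 + q.2) =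
        (x • p.1 - (y * (a.A * a.C)) • p.2) + (x • q.1 - (y * (a.A * a.C)) • q.2)
      rw [smul_add, smul_add]
      abel
    · show (y * a.A) • (p.1 + q.1) + ((x + y * a.B) * a.A) • (p.2 + q.2) =
        ((y * a.A) • p.1 + ((x + y * a.B) * a.A) • p.2) +
          ((y * a.A) • q.1 + ((x + y * a.B) * a.A) • q.2)
      rw [smul_add, smul_add]
      abel

lemma ph_cont (a : Par) (x y : ℤ) : Continuous (ph a x y) := by
  show Continuous (fun q : E => (x • q.1 - (y * (a.A * a.C)) • q.2,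
    (y * a.A) • q.1 + ((x + y * a.B) * a.A) • q.2))
  have h1 : ∀ k : ℤ, Continuous (fun z : UnitAddCircle => k • z) := fun k => continuous_zsmul k
  exact (((h1 _).comp continuous_fst).sub ((h1 _).comp continuous_snd)).prodMk
    (((h1 _).comp continuous_fst).add ((h1 _).comp continuous_snd))

lemma coe_int_mul (k : ℤ) (s : ℝ) : (((k : ℝ) * s : ℝ) : UnitAddCircle) = k • (s : UnitAddCircle) := by
  rw [← AddCircle.coe_zsmul, zsmul_eq_mul]

/-- `pr_a (μ (s + t α)) = ph (s, t)` -/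
lemma pr_mu {o a : Par} (h : Rel o a) (x y : ℤ) (s t : ℝ) :
    @UQO.pr ⟨tau a, tau_im_pos a⟩ (mu o x y * ((s : ℂ) + (t : ℂ) * tau o)) =
      ph a x y ((s : UnitAddCircle), (t : UnitAddCircle)) := by
  let _ : UQO.Lt := ⟨tau a, tau_im_pos a⟩
  rw [mu_mul h]
  have := UQO.pr_st ((x : ℝ) * s - ((y * (a.A * a.C) : ℤ) : ℝ) * t)
    (((y * a.A : ℤ) : ℝ) * s + (((x + y * a.B) * a.A : ℤ) : ℝ) * t)
  refine Eq.trans this ?_
  rw [AddCircle.coe_sub, AddCircle.coe_add, coe_int_mul, coe_int_mul, coe_int_mul, coe_int_mul]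
  rfl

lemma ph_surj {o a : Par} (h : Rel o a) {x y : ℤ} (hxy : (x, y) ≠ (0, 0)) :
    Function.Surjective (ph a x y) := by
  intro p
  let ia : UQO.Lt := ⟨tau a, tau_im_pos a⟩
  set z : ℂ := @UQO.cu ia p / mu o x y with hz
  have hd := @UQO.Tor_decomp ⟨tau o, tau_im_pos o⟩ z
  set s : ℝ := z.re - z.im / (tau o).im * (tau o).re
  set t : ℝ := z.im / (tau o).im
  have hd' : z = (s : ℂ) + (t : ℂ) * tau o := hd.symm
  refine ⟨((s : UnitAddCircle), (t : UnitAddCircle)), ?_⟩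
  rw [← pr_mu h, ← hd', hz, mul_div_cancel₀ _ (mu_ne o hxy)]
  exact @UQO.pr_cu ia p

theorem ph_mp {o a : Par} (h : Rel o a) {x y : ℤ} (hxy : (x, y) ≠ (0, 0)) :
    MeasurePreserving (ph a x y) (volume : Measure E) volume :=
  AddMonoidHom.measurePreserving (ph_cont a x y) (ph_surj h hxy) rfl

lemma rep_coe (t : UnitAddCircle) : ((EE7.rep t : ℝ) : UnitAddCircle) = t :=
  (AddCircle.equivIco 1 0).symm_apply_apply t

lemma cu_ph {o a : Par} (h : Rel o a) (x y : ℤ) {M : Type*} {F : ℂ → M} (hF : Per a F) (q : E) :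
    F (cu a (ph a x y q)) = F (mu o x y * cu o q) := by
  let _ : UQO.Lt := ⟨tau a, tau_im_pos a⟩
  have h1 := pr_mu h x y (EE7.rep q.1) (EE7.rep q.2)
  rw [rep_coe, rep_coe] at h1
  have h2 : F (UQO.cu (UQO.pr (mu o x y * cu o q))) = F (mu o x y * cu o q) :=
    UQO.per_pr hF _
  rw [← h2]
  congr 2
  exact h1.symm

lemma mu_per {o a : Par} (h : Rel o a) (x y : ℤ) (n : ℤ × ℤ) :
    ∃ m : ℤ × ℤ, mu o x y * xx o n = xx a m := by
  refine ⟨(x * n.1 - y * (a.A * a.C) * n.2, y * a.A * n.1 + (x + y * a.B) * a.A * n.2), ?_⟩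
  have := mu_mul h x y (n.1 : ℝ) (n.2 : ℝ)
  simp only [xx]
  push_cast at this ⊢
  linear_combination this

lemma per_pull {o a : Par} (h : Rel o a) (x y : ℤ) {M : Type*} {R : ℂ → ℂ → M} (hR : Per2 a R) :
    Per2 o (fun u v => R (mu o x y * u) v) := by
  intro u v m n
  obtain ⟨m', hm⟩ := mu_per h x y m
  obtain ⟨n', hn⟩ := mu_per h 1 0 n
  have e1 : mu o 1 0 = 1 := by simp [mu]
  rw [e1, one_mul] at hn
  show R (mu o x y * (u + xx o m)) (v + xx o n) = R (mu o x y * u) v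
  rw [mul_add, hm, hn]
  exact hR _ _ _ _

theorem int_pull {o a : Par} (h : Rel o a) {x y : ℤ} (hxy : (x, y) ≠ (0, 0)) {R : ℂ → ℂ → ℂ}
    (hR : Per2 a R) (hi : Integrable (fun q : E × E => R (cu a q.1) (cu a q.2))) :
    Integrable (fun q : E × E => R (mu o x y * cu o q.1) (cu o q.2)) ∧
    ∫ q : E × E, R (mu o x y * cu o q.1) (cu o q.2) =
      ∫ q : E × E, R (cu a q.1) (cu a q.2) := by
  have hmp : MeasurePreserving (Prod.map (ph a x y) (ph a 1 0)) (volume : Measure (E × E))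
      volume := by
    rw [Measure.volume_eq_prod]
    exact (ph_mp h hxy).prod (ph_mp h (by simp))
  have h1 : ∀ v, Per a (fun u => R u v) := by
    intro v u n
    have := hR u v n 0
    rw [xx_zero, add_zero] at this
    exact this
  have h2 : ∀ u, Per a (R u) := by
    intro u v n
    have := hR u v 0 n
    rw [xx_zero, add_zero] at this
    exact this
  have e : (fun q : E × E => R (mu o x y * cu o q.1) (cu o q.2)) =
      (fun q : E × E => R (cu a q.1) (cu a q.2)) ∘ (Prod.map (ph a x y) (ph a 1 0)) := by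
    funext q
    show R (mu o x y * cu o q.1) (cu o q.2) = R (cu a (ph a x y q.1)) (cu a (ph a 1 0 q.2))
    rw [cu_ph h x y (h1 _), cu_ph h 1 0 (h2 _)]
    congr 1
    simp [mu]
  constructor
  · rw [e]
    exact hmp.integrable_comp_of_integrable hi
  · have h := integral_map (μ := (volume : Measure (E × E)))
        hmp.measurable.aemeasurable (f := fun q : E × E => R (cu a q.1) (cu a q.2))
        (by rw [hmp.map_eq]; exact hi.aestronglyMeasurable)
    rw [hmp.map_eq] at h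
    rw [h]
    exact congrArg (fun f : E × E → ℂ => ∫ q, f q) e

/-! ### pulling back the element -/

/-- `f(μ u, v)` -/
def pl (m : ℂ) (f : ℂ → ℂ → ℂ) (u v : ℂ) : ℂ := f (m * u) v

lemma wedge_pl (m : ℂ) (g h : ℂ → ℂ → ℂ) (u v : ℂ) :
    wedge (pl m g) (pl m h) u v = m * wedge g h (m * u) v := by
  have d1 : ∀ f : ℂ → ℂ → ℂ, deriv (fun w => pl m f w v) u = m * deriv (fun w => f w v) (m * u) := by
    intro f
    exact deriv_comp_mul_left m (fun w => f w v) u
  have d2 : ∀ f : ℂ → ℂ → ℂ, (fun w => pl m f u w) = fun w => f (m * u) w := fun f => rfl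
  simp only [wedge]
  rw [d1, d1, d2, d2]
  simp only [pl]
  ring

lemma xi_map (a : Par) {N : ℕ} [NeZero N] (W : G N → G N → ℤ) {M M' : Type*} [AddCommGroup M]
    [AddCommGroup M'] (f : M →+ M') (T : (ℂ → ℂ → ℂ) → (ℂ → ℂ → ℂ) → (ℂ → ℂ → ℂ) → M) :
    xi a W (fun F g h => f (T F g h)) = f (xi a W T) := by
  simp only [xi, map_sum, map_zsmul, map_add]

lemma Xi_map (a : Par) {N : ℕ} [NeZero N] (W : G N → G N → ℤ) {M M' : Type*} [AddCommGroup M]
    [AddCommGroup M'] (f : M →+ M') (T : (ℂ → ℂ → ℂ) → (ℂ → ℂ → ℂ) → (ℂ → ℂ → ℂ) → M) :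
    Xi a W (fun F g h => f (T F g h)) = f (Xi a W T) := by
  simp only [Xi, xi_map, map_sum]

/-- the regulator form of the pulled back element -/
theorem reg_pl (a : Par) {N : ℕ} [NeZero N] (W : G N → G N → ℤ) (m u v : ℂ) :
    Xi a W (fun F g h => (EE7.BW (pl m F u v) : ℂ) * wedge (pl m g) (pl m h) u v) =
      m * XReg a W (m * u) v := by
  have h := Xi_map a W (AddMonoidHom.mulLeft m)
    (fun F g h => (EE7.BW (F (m * u) v) : ℂ) * wedge g h (m * u) v)
  simp only [AddMonoidHom.coe_mulLeft] at h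
  rw [XReg, ← h]
  simp only [wedge_pl, pl]
  congr 1
  funext F g h
  ring

open Classical in
/-- functions on the set of points with a property -/
def clP (P : ℂ → ℂ → Prop) (f : ℂ → ℂ → ℂ) : Additive ({q : ℂ × ℂ // P q.1 q.2} → ℂˣ) :=
  Additive.ofMul (fun q => if h : f q.1.1 q.1.2 ≠ 0 then Units.mk0 (f q.1.1 q.1.2) h else 1)

/-- restriction of functions along `(u, v) ↦ (m u, v)` -/
def rs (a : Par) (N : ℕ) (P : ℂ → ℂ → Prop) (m : ℂ) (hP : ∀ u v, P u v → Gp a N (m * u) v) :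
    Additive (Gn a N → ℂˣ) →ₗ[ℤ] Additive ({q : ℂ × ℂ // P q.1 q.2} → ℂˣ) :=
  AddMonoidHom.toIntLinearMap (MonoidHom.toAdditive
    { toFun := fun f q => f ⟨(m * q.1.1, q.1.2), hP q.1.1 q.1.2 q.2⟩
      map_one' := rfl
      map_mul' := fun _ _ => rfl })

lemma rs_cl (a : Par) (N : ℕ) (P : ℂ → ℂ → Prop) (m : ℂ) (hP : ∀ u v, P u v → Gp a N (m * u) v)
    (f : ℂ → ℂ → ℂ) : rs a N P m hP (cl a N f) = clP P (pl m f) := rfl

/-- the pulled back element is closed -/
theorem closed_pl (a : Par) (c : ℕ) (hc : c.Prime) (N : ℕ) [NeZero N]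
    (hN : (2 * c * nab a : ℤ) ∣ N) (P : ℂ → ℂ → Prop) (m : ℂ)
    (hP : ∀ u v, P u v → Gp a N (m * u) v)
    (Φ : (Additive ({q : ℂ × ℂ // P q.1 q.2} → ℂˣ)) [⋀^Fin 4]→ₗ[ℤ] ℂ) :
    Xi a (Wt a c : G N → G N → ℤ) (fun F g h =>
      Φ ![clP P (fun u v => 1 - pl m F u v), clP P (pl m F), clP P (pl m g), clP P (pl m h)]) =
        0 := by
  have h := Xi_closed a c hc N hN (Φ.compLinearMap (rs a N P m hP))
  rw [← h]
  congr 1
  funext F g k
  rw [AlternatingMap.compLinearMap_apply]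
  congr 1
  funext i
  fin_cases i <;> rfl

end

end UNL.Gen
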