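import Pool.Agent.UNL.Main

/-!
# UNL: reality for `A ∣ B`, rationality of the periods
-/

open MeasureTheory

namespace UNL.Gen

noncomputable section

/-- the involution of the frequencies given by complex conjugation (`A ∣ B`) -/
def sg (b : ℤ) : (ℤ × ℤ) ≃ (ℤ × ℤ) where
  toFun n := (n.1 - n.2 * b, -n.2)
  invFun n := (n.1 - n.2 * b, -n.2)
  left_inv n := by ext <;> simp
  right_inv n := by ext <;> simp

lemma mm_sg (a : Par) (b : ℤ) (hb : a.B = a.A * b) (n : ℤ × ℤ) : mm a (sg b n) = cj (mm a n) := by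
  have hA := A_ne a
  have h := tau_trace a
  rw [hb] at h
  push_cast at h
  have h2 : tau a + cj (tau a) = b := mul_left_cancel₀ hA h
  have e1 : mm a (sg b n) = (n.1 - n.2 * b) + n.2 * cj (tau a) := by
    simp only [mm, sg, Equiv.coe_fn_mk, cj]
    push_cast
    ring
  have e2 : cj (mm a n) = n.1 - n.2 * tau a := by
    simp [mm, cj]
  rw [e1, e2, ← h2]
  ring

/-- for `A ∣ B` the lattice is stable under complex conjugation and `E42` is real -/
theorem E42_real' (a : Par) (h : a.A ∣ a.B) : (E42 a).im = 0 := by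
  obtain ⟨b, hb⟩ := h
  have h1 : cj (E42 a) = E42 a := by
    unfold E42
    rw [cj, Complex.conj_tsum, ← (sg b).tsum_eq]
    refine tsum_congr fun n => ?_
    rw [mm_sg a b hb]
    simp only [cj, map_div₀, map_one, map_mul, map_pow, Complex.conj_conj]
  have h2 := congrArg Complex.im h1
  simp only [cj, Complex.conj_im] at h2
  linarith

theorem dL_real (a : Par) (h : a.A ∣ a.B) {L : ℂ → ℂ}
    (hd : deriv L (-1) = -(6 * (sD a / (2 * a.A * Real.pi)) ^ 5 : ℝ) * E42 a) :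
    (deriv L (-1)).im = 0 := by
  rw [hd, ← Complex.ofReal_neg, Complex.im_ofReal_mul, E42_real' a h, mul_zero]

/-! ### rationality -/

/-- the elements of `K = ℚ(τ)` -/
def InK (a : Par) (w : ℂ) : Prop := ∃ x y : ℚ, w = x + y * tau a

lemma InK.add {a : Par} {v w : ℂ} (hv : InK a v) (hw : InK a w) : InK a (v + w) := by
  obtain ⟨x, y, rfl⟩ := hv
  obtain ⟨x', y', rfl⟩ := hw
  exact ⟨x + x', y + y', by push_cast; ring⟩

lemma InK.rat {a : Par} (q : ℚ) : InK a (q : ℂ) := ⟨q, 0, by simp⟩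

lemma InK.int {a : Par} (q : ℤ) : InK a (q : ℂ) := ⟨q, 0, by simp⟩

lemma InK.one {a : Par} : InK a (1 : ℂ) := ⟨1, 0, by simp⟩

lemma InK.tau {a : Par} : InK a (UNL.tau a) := ⟨0, 1, by simp⟩

lemma tau_sq (a : Par) : (tau a) ^ 2 = (a.B * tau a - a.C) / a.A := by
  have hA := A_ne a
  have h1 := tau_trace a
  have h2 := tau_norm a
  field_simp
  linear_combination (UNL.tau a) * h1 - h2

lemma InK.mul {a : Par} {v w : ℂ} (hv : InK a v) (hw : InK a w) : InK a (v * w) := by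
  obtain ⟨x, y, rfl⟩ := hv
  obtain ⟨x', y', rfl⟩ := hw
  refine ⟨x * x' - y * y' * (a.C / a.A), x * y' + x' * y + y * y' * (a.B / a.A), ?_⟩
  have h := tau_sq a
  push_cast
  linear_combination (y : ℂ) * y' * h

lemma InK.neg {a : Par} {v : ℂ} (hv : InK a v) : InK a (-v) := by
  obtain ⟨x, y, rfl⟩ := hv
  exact ⟨-x, -y, by push_cast; ring⟩

lemma InK.sub {a : Par} {v w : ℂ} (hv : InK a v) (hw : InK a w) : InK a (v - w) := by
  rw [sub_eq_add_neg]
  exact hv.add hw.neg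

lemma InK.pow {a : Par} {v : ℂ} (hv : InK a v) (n : ℕ) : InK a (v ^ n) := by
  induction n with
  | zero => rw [pow_zero]; exact InK.one
  | succ n ih => rw [pow_succ]; exact ih.mul hv

lemma InK.re {a : Par} {w : ℂ} (hw : InK a w) : ∃ q : ℚ, w.re = q := by
  obtain ⟨x, y, rfl⟩ := hw
  refine ⟨x + y * (a.B / (2 * a.A)), ?_⟩
  have h := tau_re a
  have e : ((x : ℂ) + (y : ℂ) * UNL.tau a).re = x + y * (UNL.tau a).re := by
    rw [Complex.add_re, Complex.ratCast_re]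
    congr 1
    have : ((y : ℚ) : ℂ) = ((y : ℝ) : ℂ) := by push_cast; rfl
    rw [this, Complex.re_ofReal_mul]
  rw [e, h]
  push_cast
  ring

lemma InK.per (a : Par) (x y z : ℤ) :
    InK a (((x : ℂ) + y * UNL.tau a + z * UNL.tau a ^ 2) * (alp a * (1 - alp a)) ^ 2) := by
  have ha : InK a (alp a) := (InK.int a.A).mul InK.tau
  exact (((InK.int x).add ((InK.int y).mul InK.tau)).add ((InK.int z).mul (InK.tau.pow 2))).mul
    ((ha.mul (InK.one.sub ha)).pow 2)

/-- the constant of the theorem -/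
def rh (a : Par) (c N : ℕ) : ℂ := -(8 * a.A ^ 3 * N ^ 10 * (c ^ 3 - 1 / c ^ 3) *
    (alp a * (1 - alp a)) ^ 2 / ((4 * a.A * a.C - a.B ^ 2) * nab a ^ 3))

theorem per_rat (a : Par) (c N : ℕ) (x y z : ℤ) :
    ∃ q : ℚ, 2 * (((x : ℂ) + y * UNL.tau a + z * UNL.tau a ^ 2) * rh a c N).re = q := by
  obtain ⟨q, hq⟩ := (InK.per a x y z).re
  refine ⟨2 * (-(8 * a.A ^ 3 * N ^ 10 * (c ^ 3 - 1 / c ^ 3) /
    ((4 * a.A * a.C - a.B ^ 2) * nab a ^ 3)) * q), ?_⟩
  have e : ((x : ℂ) + y * UNL.tau a + z * UNL.tau a ^ 2) * rh a c N =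
      ((-(8 * a.A ^ 3 * N ^ 10 * (c ^ 3 - 1 / c ^ 3) /
        ((4 * a.A * a.C - a.B ^ 2) * nab a ^ 3)) : ℝ) : ℂ) *
      (((x : ℂ) + y * UNL.tau a + z * UNL.tau a ^ 2) * (alp a * (1 - alp a)) ^ 2) := by
    unfold rh
    push_cast
    ring
  rw [e, Complex.re_ofReal_mul, hq]
  push_cast
  ring

end

end UNL.Gen
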