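import Pool.Agent.UNL.Defs

/-!
# UNL part (W): torsion points and the weight `H`
-/

namespace UNL

variable {N : ℕ}

/-! ### torsion -/

open Classical in
/-- the indicator of a proposition -/
noncomputable def ind (p : Prop) : ℤ := if p then 1 else 0

theorem ind_pos {p : Prop} (h : p) : ind p = 1 := by rw [ind, if_pos h]

theorem ind_neg {p : Prop} (h : ¬ p) : ind p = 0 := by rw [ind, if_neg h]

theorem ind_congr {p q : Prop} (h : p ↔ q) : ind p = ind q := by rw [propext h]

section tors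

variable {A : Type*} [AddCommGroup A]

theorem tors_coprime {c y : ℤ} (h : IsCoprime c y) {l : A} (hc : c • l = 0) (hy : y • l = 0) :
    l = 0 := by
  obtain ⟨u, v, huv⟩ := h
  calc l = (u * c + v * y) • l := by rw [huv, one_smul]
    _ = 0 := by rw [add_smul, mul_smul, mul_smul, hc, hy, smul_zero, smul_zero, add_zero]

theorem tors_prime {c : ℕ} (hc : c.Prime) {y : ℤ} (hy : ¬ (c : ℤ) ∣ y) {l : A} (hl : c • l = 0)
    (hyl : y • l = 0) : l = 0 := by
  refine tors_coprime (c := c) (y := y) ?_ (by rw [natCast_zsmul]; exact hl) hyl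
  exact (Prime.coprime_iff_not_dvd (Nat.prime_iff_prime_int.1 hc)).2 hy

/-- linear dependence mod `c` by indicator functions -/
theorem dep_count {c : ℕ} (hc : c.Prime) {k l : A} (hk : c • k = 0) (hl : c • l = 0) :
    ind (∃ x y : ℤ, ¬ ((c : ℤ) ∣ x ∧ (c : ℤ) ∣ y) ∧ x • k + y • l = 0) =
      (∑ j ∈ Finset.range c, ind (k + j • l = 0)) + ind (l = 0) - c * ind (k = 0 ∧ l = 0) := by
  by_cases h0 : l = 0
  · subst h0
    have h1 : ∃ x y : ℤ, ¬ ((c : ℤ) ∣ x ∧ (c : ℤ) ∣ y) ∧ x • k + y • (0 : A) = 0 := by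
      refine ⟨0, 1, ?_, by simp⟩
      rintro ⟨-, h⟩
      have := Int.natCast_dvd_natCast.1 (by simpa using h : (c : ℤ) ∣ ((1 : ℕ) : ℤ))
      exact hc.one_lt.ne' (Nat.dvd_one.1 this)
    rw [ind_pos h1]
    by_cases hk0 : k = 0
    · simp [hk0, ind_pos]
    · simp [hk0, ind_pos, ind_neg]
  · have h0' : ¬ (k = 0 ∧ l = 0) := fun h => h0 h.2
    rw [ind_neg h0, ind_neg h0']
    have key : (∃ x y : ℤ, ¬ ((c : ℤ) ∣ x ∧ (c : ℤ) ∣ y) ∧ x • k + y • l = 0) ↔
        ∃ j ∈ Finset.range c, k + j • l = 0 := by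
      constructor
      · rintro ⟨x, y, hxy, he⟩
        have hx : ¬ (c : ℤ) ∣ x := by
          intro hx
          obtain ⟨w, rfl⟩ := hx
          have h2 : y • l = 0 := by
            have h3 : ((c : ℤ) * w) • k = 0 := by
              rw [mul_comm, mul_smul, natCast_zsmul, hk, smul_zero]
            rwa [h3, zero_add] at he
          by_cases hy : (c : ℤ) ∣ y
          · exact hxy ⟨Dvd.intro _ rfl, hy⟩
          · exact h0 (tors_prime hc hy hl h2)
        have hcop : IsCoprime (c : ℤ) x :=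
          (Prime.coprime_iff_not_dvd (Nat.prime_iff_prime_int.1 hc)).2 hx
        obtain ⟨u, v, huv⟩ := hcop
        have h4 : k + (v * y) • l = 0 := by
          have h5 : k = (v * x) • k := by
            have : (u * c + v * x) • k = k := by rw [huv, one_smul]
            rw [add_smul, mul_smul u, natCast_zsmul, hk, smul_zero, zero_add] at this
            exact this.symm
          calc k + (v * y) • l = (v * x) • k + (v * y) • l := by rw [← h5]
            _ = v • (x • k + y • l) := by rw [smul_add, mul_smul, mul_smul]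
            _ = 0 := by rw [he, smul_zero]
        have hcpos : (0 : ℤ) < c := by exact_mod_cast hc.pos
        refine ⟨((v * y) % c).toNat, ?_, ?_⟩
        · rw [Finset.mem_range]
          have := Int.emod_lt_of_pos (v * y) hcpos
          have h6 := Int.emod_nonneg (v * y) hcpos.ne'
          omega
        · have h6 := Int.emod_nonneg (v * y) hcpos.ne'
          have h7 : (((v * y) % c).toNat) • l = (v * y) • l := by
            rw [← natCast_zsmul, Int.toNat_of_nonneg h6]
            conv_rhs => rw [← Int.emod_add_mul_ediv (v * y) c]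
            rw [add_smul, mul_comm (c : ℤ), mul_smul _ (c : ℤ), natCast_zsmul, hl, smul_zero,
              add_zero]
          rw [h7, h4]
      · rintro ⟨j, -, hj⟩
        refine ⟨1, j, ?_, by rw [one_smul, natCast_zsmul]; exact hj⟩
        rintro ⟨h, -⟩
        have := Int.natCast_dvd_natCast.1 (by simpa using h : (c : ℤ) ∣ ((1 : ℕ) : ℤ))
        exact hc.one_lt.ne' (Nat.dvd_one.1 this)
    rw [ind_congr key]
    by_cases hex : ∃ j ∈ Finset.range c, k + j • l = 0
    · rw [ind_pos hex]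
      obtain ⟨j, hj, hje⟩ := hex
      rw [Finset.sum_eq_single j]
      · rw [ind_pos hje]; ring
      · intro i hi hij
        rw [ind_neg]
        intro hie
        have h8 : ((i : ℤ) - j) • l = 0 := by
          rw [sub_smul, natCast_zsmul, natCast_zsmul]
          have := hie.trans hje.symm
          rw [sub_eq_zero]
          exact add_left_cancel this
        refine h0 (tors_prime hc ?_ hl h8)
        intro hd
        rw [Finset.mem_range] at hi hj
        have h9 : ((i : ℤ) - j).natAbs < c := by omega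
        have h10 := Int.natCast_dvd.1 hd
        have h11 := Nat.eq_zero_of_dvd_of_lt h10 h9
        omega
      · intro h; exact absurd hj h
    · rw [ind_neg hex]
      have : ∑ j ∈ Finset.range c, ind (k + j • l = 0) = 0 :=
        Finset.sum_eq_zero fun j hj => ind_neg fun h => hex ⟨j, hj, h⟩
      rw [this]; ring

end tors

theorem HH_ind (c : ℕ) (k l : G N) : HH c k l = ind (c • k = 0 ∧ c • l = 0) *
    (1 - c * ind (∃ x y : ℤ, ¬ ((c : ℤ) ∣ x ∧ (c : ℤ) ∣ y) ∧ x • k + y • l = 0)
      + ((c : ℤ) ^ 3 - (c : ℤ) ^ 2) * ind (k = 0 ∧ l = 0)) := by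
  simp only [HH, ind, mul_ite, ite_mul, mul_one, mul_zero, one_mul, zero_mul]

theorem HH_supp (c : ℕ) {k l : G N} (h : HH c k l ≠ 0) : c • k = 0 ∧ c • l = 0 := by
  by_contra hc
  exact h (by rw [HH_ind, ind_neg hc, zero_mul])

theorem HH_eq {c : ℕ} (hc : c.Prime) {k l : G N} (hk : c • k = 0) (hl : c • l = 0) :
    HH c k l = 1 - c * ((∑ j ∈ Finset.range c, ind (k + j • l = 0)) + ind (l = 0))
      + (c : ℤ) ^ 3 * ind (k = 0 ∧ l = 0) := by
  rw [HH_ind, ind_pos ⟨hk, hl⟩, dep_count hc hk hl]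
  ring

/-- `H` depends only on the truth values of its three conditions -/
theorem HH_congr {c : ℕ} {k l k' l' : G N} (h1 : (c • k = 0 ∧ c • l = 0) ↔ (c • k' = 0 ∧ c • l' = 0))
    (h2 : (∃ x y : ℤ, ¬ ((c : ℤ) ∣ x ∧ (c : ℤ) ∣ y) ∧ x • k + y • l = 0) ↔
      (∃ x y : ℤ, ¬ ((c : ℤ) ∣ x ∧ (c : ℤ) ∣ y) ∧ x • k' + y • l' = 0))
    (h3 : (k = 0 ∧ l = 0) ↔ (k' = 0 ∧ l' = 0)) : HH c k l = HH c k' l' := by
  rw [HH_ind, HH_ind, ind_congr h1, ind_congr h2, ind_congr h3]

theorem HH_symm (c : ℕ) (k l : G N) : HH c k l = HH c l k := by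
  refine HH_congr and_comm ?_ and_comm
  constructor
  · rintro ⟨x, y, h, he⟩
    exact ⟨y, x, fun h' => h h'.symm, by rw [add_comm]; exact he⟩
  · rintro ⟨x, y, h, he⟩
    exact ⟨y, x, fun h' => h h'.symm, by rw [add_comm]; exact he⟩

theorem HH_neg (c : ℕ) (k l : G N) : HH c (-k) l = HH c k l := by
  refine HH_congr (by rw [smul_neg, neg_eq_zero]) ?_ (by rw [neg_eq_zero])
  constructor
  · rintro ⟨x, y, h, he⟩
    exact ⟨-x, y, by simpa using h, by simpa using he⟩
  · rintro ⟨x, y, h, he⟩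
    exact ⟨-x, y, by simpa using h, by simpa using he⟩

theorem HH_neg_right (c : ℕ) (k l : G N) : HH c k (-l) = HH c k l := by
  rw [HH_symm, HH_neg, HH_symm]

theorem HH_add (c : ℕ) (k l : G N) : HH c k (k + l) = HH c k l := by
  refine HH_congr ?_ ?_ ?_
  · constructor
    · rintro ⟨h1, h2⟩
      rw [smul_add, h1, zero_add] at h2
      exact ⟨h1, h2⟩
    · rintro ⟨h1, h2⟩
      exact ⟨h1, by rw [smul_add, h1, h2, add_zero]⟩
  · constructor
    · rintro ⟨x, y, h, he⟩
      refine ⟨x + y, y, fun h' => h ⟨?_, h'.2⟩, ?_⟩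
      · have := dvd_sub h'.1 h'.2
        rwa [add_sub_cancel_right] at this
      · rw [← he, smul_add, add_smul, add_assoc]
    · rintro ⟨x, y, h, he⟩
      refine ⟨x - y, y, fun h' => h ⟨?_, h'.2⟩, ?_⟩
      · have := dvd_add h'.1 h'.2
        rwa [sub_add_cancel] at this
      · rw [← he, smul_add, sub_smul]; abel
  · constructor
    · rintro ⟨h1, h2⟩
      rw [h1, zero_add] at h2
      exact ⟨h1, h2⟩
    · rintro ⟨h1, h2⟩
      exact ⟨h1, by rw [h1, h2, add_zero]⟩

end UNL
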