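import Pool.Agent.UNL.WBas
import Pool.Agent.UNL.WMat

/-!
# UNL part (W): the Fourier transform of the weight `H` on the `c`-torsion
-/

namespace UNL

open ZMod

/-! ### the embedding of the `c`-torsion -/

/-- the embedding `ZMod c → ZMod N`, `1 ↦ N / c` -/
def em (c M : ℕ) : ZMod c →+ ZMod (c * M) :=
  ZMod.lift c ⟨zmultiplesHom (ZMod (c * M)) (M : ZMod (c * M)), by
    rw [zmultiplesHom_apply, natCast_zsmul, nsmul_eq_mul, ← Nat.cast_mul, ZMod.natCast_self]⟩

theorem em_int (c M : ℕ) (j : ℤ) : em c M (j : ZMod c) = ((j * M : ℤ) : ZMod (c * M)) := by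
  rw [em, ZMod.lift_coe]
  simp

theorem em_inj (c M : ℕ) (hM : M ≠ 0) : Function.Injective (em c M) := by
  rw [injective_iff_map_eq_zero]
  intro x hx
  obtain ⟨j, rfl⟩ := ZMod.intCast_surjective x
  rw [em_int, ZMod.intCast_zmod_eq_zero_iff_dvd] at hx
  rw [ZMod.intCast_zmod_eq_zero_iff_dvd]
  push_cast at hx
  exact Int.dvd_of_mul_dvd_mul_right (by exact_mod_cast hM) hx

theorem em_range (c M : ℕ) (hc : c ≠ 0) (z : ZMod (c * M)) (hz : c • z = 0) :
    z ∈ Set.range (em c M) := by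
  obtain ⟨w, rfl⟩ := ZMod.intCast_surjective z
  have h1 : ((c * w : ℤ) : ZMod (c * M)) = 0 := by
    rw [nsmul_eq_mul] at hz
    push_cast
    exact hz
  rw [ZMod.intCast_zmod_eq_zero_iff_dvd] at h1
  push_cast at h1
  have h2 := Int.dvd_of_mul_dvd_mul_left (by exact_mod_cast hc) h1
  obtain ⟨u, rfl⟩ := h2
  exact ⟨(u : ZMod c), by rw [em_int, mul_comm u (M : ℤ)]⟩

theorem em_tors (c M : ℕ) (x : ZMod c) : c • em c M x = 0 := by
  rw [← map_nsmul, nsmul_eq_mul, ZMod.natCast_self, zero_mul, map_zero]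

/-- the embedding for pairs -/
def em2 (c M : ℕ) : ZMod c × ZMod c →+ ZMod (c * M) × ZMod (c * M) :=
  AddMonoidHom.prodMap (em c M) (em c M)

theorem em2_apply (c M : ℕ) (k : ZMod c × ZMod c) : em2 c M k = (em c M k.1, em c M k.2) := rfl

theorem em2_inj (c M : ℕ) (hM : M ≠ 0) : Function.Injective (em2 c M) :=
  Function.Injective.prodMap (em_inj c M hM) (em_inj c M hM)

theorem em2_range (c M : ℕ) (hc : c ≠ 0) (z : ZMod (c * M) × ZMod (c * M)) (hz : c • z = 0) :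
    z ∈ Set.range (em2 c M) := by
  obtain ⟨x, hx⟩ := em_range c M hc z.1 (congrArg Prod.fst hz)
  obtain ⟨y, hy⟩ := em_range c M hc z.2 (congrArg Prod.snd hz)
  exact ⟨(x, y), Prod.ext hx hy⟩

theorem em2_tors (c M : ℕ) (k : ZMod c × ZMod c) : c • em2 c M k = 0 :=
  Prod.ext (em_tors c M k.1) (em_tors c M k.2)

/-- sums over the `c`-torsion -/
theorem sum_tors {c M : ℕ} [NeZero c] [NeZero (c * M)] {B : Type*} [AddCommMonoid B]
    (F : ZMod (c * M) × ZMod (c * M) → B) (hF : ∀ k, c • k ≠ 0 → F k = 0) :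
    ∑ k, F k = ∑ k : ZMod c × ZMod c, F (em2 c M k) := by
  have hM : M ≠ 0 := by
    rintro rfl
    exact NeZero.ne (c * 0) (mul_zero c)
  symm
  refine Fintype.sum_of_injective (em2 c M) (em2_inj c M hM) _ _ (fun k hk => hF k ?_)
    (fun k => rfl)
  intro h
  exact hk (em2_range c M (NeZero.ne c) k h)

theorem std_em {c M : ℕ} [NeZero c] [NeZero (c * M)] (v : ℤ) (x : ZMod c) :
    stdAddChar ((v : ZMod (c * M)) * em c M x) = stdAddChar ((v : ZMod c) * x) := by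
  have hM : M ≠ 0 := by
    rintro rfl
    exact NeZero.ne (c * 0) (mul_zero c)
  obtain ⟨j, rfl⟩ := ZMod.intCast_surjective x
  rw [em_int, ← Int.cast_mul, ← Int.cast_mul, stdAddChar_coe, stdAddChar_coe]
  congr 1
  have h1 : (c : ℂ) ≠ 0 := by exact_mod_cast NeZero.ne c
  have h2 : (M : ℂ) ≠ 0 := by exact_mod_cast hM
  push_cast
  field_simp

/-! ### orthogonality -/

theorem sum_std {c : ℕ} [NeZero c] (v : ZMod c) :
    ∑ x : ZMod c, stdAddChar (v * x) = ((c * ind (v = 0) : ℤ) : ℂ) := by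
  have h := AddChar.sum_mulShift (R' := ℂ) v (ZMod.isPrimitive_stdAddChar c)
  simp only [mul_comm v]
  rw [h]
  by_cases hv : v = 0
  · rw [if_pos hv, ind_pos hv, ZMod.card]; simp
  · rw [if_neg hv, ind_neg hv]; simp

/-- the pairing of two vectors mod `c` -/
def pz {c : ℕ} (v k : ZMod c × ZMod c) : ZMod c := v.1 * k.2 + v.2 * k.1

theorem sum_pz {c : ℕ} [NeZero c] (v : ZMod c × ZMod c) :
    ∑ k : ZMod c × ZMod c, stdAddChar (pz v k) = (((c : ℤ) ^ 2 * ind (v = 0) : ℤ) : ℂ) := by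
  have h1 : ∀ k : ZMod c × ZMod c, stdAddChar (pz v k) =
      stdAddChar (v.2 * k.1) * stdAddChar (v.1 * k.2) := by
    intro k
    rw [pz, AddChar.map_add_eq_mul, mul_comm]
  simp only [h1]
  rw [Fintype.sum_prod_type]
  simp only [← Finset.mul_sum, ← Finset.sum_mul]
  rw [sum_std, sum_std, ← Int.cast_mul]
  congr 1
  by_cases hv1 : v.1 = 0
  · by_cases hv2 : v.2 = 0
    · rw [ind_pos hv1, ind_pos hv2, ind_pos (Prod.ext hv1 hv2)]; ring
    · have hv : ¬ v = 0 := fun h => hv2 (by rw [h]; rfl)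
      rw [ind_neg hv2, ind_neg hv]; ring
  · have hv : ¬ v = 0 := fun h => hv1 (by rw [h]; rfl)
    rw [ind_neg hv1, ind_neg hv]; ring

/-- linear dependence mod `c` of two integral vectors -/
theorem dep_iff {c : ℕ} (hc : c.Prime) (r s : ℤ × ℤ) :
    (∃ x y : ℤ, ¬ ((c : ℤ) ∣ x ∧ (c : ℤ) ∣ y) ∧
      x • (-(M2.rd c s)) + y • (M2.rd c r) = 0) ↔ (c : ℤ) ∣ dt r s := by
  have hp := Nat.prime_iff_prime_int.1 hc
  have key : ∀ x y : ℤ, x • (-(M2.rd c s)) + y • (M2.rd c r) = 0 ↔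
      ((c : ℤ) ∣ y * r.1 - x * s.1 ∧ (c : ℤ) ∣ y * r.2 - x * s.2) := by
    intro x y
    rw [← ZMod.intCast_zmod_eq_zero_iff_dvd, ← ZMod.intCast_zmod_eq_zero_iff_dvd, Prod.ext_iff]
    have e1 : (x • (-(M2.rd c s)) + y • (M2.rd c r)).1 = ((y * r.1 - x * s.1 : ℤ) : ZMod c) := by
      simp [M2.rd]; ring
    have e2 : (x • (-(M2.rd c s)) + y • (M2.rd c r)).2 = ((y * r.2 - x * s.2 : ℤ) : ZMod c) := by
      simp [M2.rd]; ring
    rw [e1, e2]
    rfl
  constructor
  · rintro ⟨x, y, hxy, he⟩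
    obtain ⟨h1, h2⟩ := (key x y).1 he
    have e1 : (c : ℤ) ∣ x * dt r s := by
      have : x * dt r s = r.2 * (y * r.1 - x * s.1) - r.1 * (y * r.2 - x * s.2) := by
        simp only [dt]; ring
      rw [this]
      exact dvd_sub (Dvd.dvd.mul_left h1 _) (Dvd.dvd.mul_left h2 _)
    have e2 : (c : ℤ) ∣ y * dt r s := by
      have : y * dt r s = s.2 * (y * r.1 - x * s.1) - s.1 * (y * r.2 - x * s.2) := by
        simp only [dt]; ring
      rw [this]
      exact dvd_sub (Dvd.dvd.mul_left h1 _) (Dvd.dvd.mul_left h2 _)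
    by_contra hd
    exact hxy ⟨(hp.dvd_or_dvd e1).resolve_right hd, (hp.dvd_or_dvd e2).resolve_right hd⟩
  · intro hd
    by_cases h1 : (c : ℤ) ∣ r.1
    · by_cases h2 : (c : ℤ) ∣ r.2
      · refine ⟨0, 1, fun h => hp.not_isUnit (isUnit_of_dvd_one h.2), (key _ _).2 ?_⟩
        simpa using ⟨h1, h2⟩
      · refine ⟨r.2, s.2, fun h => h2 h.1, (key _ _).2 ⟨?_, ?_⟩⟩
        · have : s.2 * r.1 - r.2 * s.1 = dt r s := by simp only [dt]; ring
          rwa [this]
        · have : s.2 * r.2 - r.2 * s.2 = 0 := by ring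
          rw [this]; exact dvd_zero _
    · refine ⟨r.1, s.1, fun h => h1 h.1, (key _ _).2 ⟨?_, ?_⟩⟩
      · have : s.1 * r.1 - r.1 * s.1 = 0 := by ring
        rw [this]; exact dvd_zero _
      · have : s.1 * r.2 - r.1 * s.2 = -dt r s := by simp only [dt]; ring
        rw [this]; exact (dvd_neg).2 hd

/-- the transform of the weight on `(ℤ / c)²` -/
theorem sum_c {c : ℕ} (hc : c.Prime) [NeZero c] (r s : ℤ × ℤ) :
    ∑ k : ZMod c × ZMod c, ∑ l : ZMod c × ZMod c,
      ((1 - c * ((∑ j ∈ Finset.range c, ind (k + j • l = 0)) + ind (l = 0))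
        + (c : ℤ) ^ 3 * ind (k = 0 ∧ l = 0) : ℤ) : ℂ) *
        (stdAddChar (pz (M2.rd c r) k) * stdAddChar (pz (M2.rd c s) l)) =
      (((c : ℤ) ^ 3 * (1 - ind ((c : ℤ) ∣ dt r s)) : ℤ) : ℂ) := by
  set R := M2.rd c r with hR
  set S := M2.rd c s with hS
  have a1 : ∑ k : ZMod c × ZMod c, (stdAddChar (pz R k) *
      ∑ l : ZMod c × ZMod c, stdAddChar (pz S l)) =
      (((c : ℤ) ^ 2 * ind (R = 0) * ((c : ℤ) ^ 2 * ind (S = 0)) : ℤ) : ℂ) := by
    simp only [← Finset.sum_mul]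
    rw [sum_pz, sum_pz, ← Int.cast_mul]
  have a2 : ∀ j : ℕ, ∑ k : ZMod c × ZMod c, ∑ l : ZMod c × ZMod c,
      ((ind (k + j • l = 0) : ℤ) : ℂ) * (stdAddChar (pz R k) * stdAddChar (pz S l)) =
      (((c : ℤ) ^ 2 * ind (-S + j • R = 0) : ℤ) : ℂ) := by
    intro j
    rw [Finset.sum_comm]
    have h1 : ∀ l : ZMod c × ZMod c, ∑ k : ZMod c × ZMod c,
        ((ind (k + j • l = 0) : ℤ) : ℂ) * (stdAddChar (pz R k) * stdAddChar (pz S l)) =
        stdAddChar (pz (S - j • R) l) := by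
      intro l
      rw [Finset.sum_eq_single (-(j • l))]
      · rw [ind_pos (by rw [neg_add_cancel]), Int.cast_one, one_mul, ← AddChar.map_add_eq_mul]
        congr 1
        simp only [pz, Prod.fst_neg, Prod.snd_neg, Prod.fst_sub, Prod.snd_sub, Prod.smul_fst,
          Prod.smul_snd]
        simp only [nsmul_eq_mul]
        ring
      · intro k _ hk
        rw [ind_neg (fun h => hk (eq_neg_of_add_eq_zero_left h))]
        simp
      · intro h; exact absurd (Finset.mem_univ _) h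
    simp only [h1]
    rw [sum_pz]
    have h2 : (S - j • R = 0) ↔ (-S + j • R = 0) := by
      rw [← neg_eq_zero, neg_sub, sub_eq_add_neg, add_comm]
    rw [ind_congr h2]
  have a3 : ∑ k : ZMod c × ZMod c, ∑ l : ZMod c × ZMod c,
      ((ind (l = 0) : ℤ) : ℂ) * (stdAddChar (pz R k) * stdAddChar (pz S l)) =
      (((c : ℤ) ^ 2 * ind (R = 0) : ℤ) : ℂ) := by
    rw [← sum_pz]
    refine Finset.sum_congr rfl fun k _ => ?_
    rw [Finset.sum_eq_single 0]
    · rw [ind_pos rfl]; simp [pz]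
    · intro l _ hl
      rw [ind_neg hl]; simp
    · intro h; exact absurd (Finset.mem_univ _) h
  have a4 : ∑ k : ZMod c × ZMod c, ∑ l : ZMod c × ZMod c,
      ((ind (k = 0 ∧ l = 0) : ℤ) : ℂ) * (stdAddChar (pz R k) * stdAddChar (pz S l)) = 1 := by
    rw [Finset.sum_eq_single 0]
    · rw [Finset.sum_eq_single 0]
      · rw [ind_pos ⟨rfl, rfl⟩]; simp [pz]
      · intro l _ hl
        rw [ind_neg (fun h => hl h.2)]; simp
      · intro h; exact absurd (Finset.mem_univ _) h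
    · intro k _ hk
      refine Finset.sum_eq_zero fun l _ => ?_
      rw [ind_neg (fun h => hk h.1)]; simp
    · intro h; exact absurd (Finset.mem_univ _) h
  have hd := dep_count hc (k := -S) (l := R)
    (by rw [smul_neg, ← natCast_zsmul]; simp [hS, M2.rd])
    (by rw [← natCast_zsmul]; simp [hR, M2.rd])
  rw [hS, hR, ind_congr (dep_iff hc r s), ← hS, ← hR] at hd
  have hz : ind (-S = 0 ∧ R = 0) = ind (R = 0) * ind (S = 0) := by
    by_cases h1 : R = 0
    · by_cases h2 : S = 0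
      · rw [ind_pos ⟨by rw [h2, neg_zero], h1⟩, ind_pos h1, ind_pos h2]; ring
      · rw [ind_neg (fun h => h2 (neg_eq_zero.1 h.1)), ind_neg h2]; ring
    · rw [ind_neg (fun h => h1 h.2), ind_neg h1]; ring
  rw [hz] at hd
  have e : ∀ k l : ZMod c × ZMod c,
      ((1 - c * ((∑ j ∈ Finset.range c, ind (k + j • l = 0)) + ind (l = 0))
        + (c : ℤ) ^ 3 * ind (k = 0 ∧ l = 0) : ℤ) : ℂ) *
        (stdAddChar (pz R k) * stdAddChar (pz S l)) =
      stdAddChar (pz R k) * stdAddChar (pz S l)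
      - c * ((∑ j ∈ Finset.range c, ((ind (k + j • l = 0) : ℤ) : ℂ) *
          (stdAddChar (pz R k) * stdAddChar (pz S l)))
        + ((ind (l = 0) : ℤ) : ℂ) * (stdAddChar (pz R k) * stdAddChar (pz S l)))
      + (c : ℂ) ^ 3 * (((ind (k = 0 ∧ l = 0) : ℤ) : ℂ) *
        (stdAddChar (pz R k) * stdAddChar (pz S l))) := by
    intro k l
    rw [← Finset.sum_mul]
    push_cast
    ring
  simp only [e]
  simp only [Finset.sum_add_distrib, Finset.sum_sub_distrib, ← Finset.mul_sum]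
  rw [a1, a3, a4]
  have a5 : ∑ k : ZMod c × ZMod c, ∑ l : ZMod c × ZMod c, ∑ j ∈ Finset.range c,
      ((ind (k + j • l = 0) : ℤ) : ℂ) * (stdAddChar (pz R k) * stdAddChar (pz S l)) =
      ∑ j ∈ Finset.range c, (((c : ℤ) ^ 2 * ind (-S + j • R = 0) : ℤ) : ℂ) := by
    have : ∀ k : ZMod c × ZMod c, ∑ l : ZMod c × ZMod c, ∑ j ∈ Finset.range c,
        ((ind (k + j • l = 0) : ℤ) : ℂ) * (stdAddChar (pz R k) * stdAddChar (pz S l)) =
        ∑ j ∈ Finset.range c, ∑ l : ZMod c × ZMod c,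
        ((ind (k + j • l = 0) : ℤ) : ℂ) * (stdAddChar (pz R k) * stdAddChar (pz S l)) :=
      fun k => Finset.sum_comm
    simp only [this]
    rw [Finset.sum_comm]
    exact Finset.sum_congr rfl fun j _ => a2 j
  rw [a5]
  have hd' := congrArg (fun x : ℤ => (x : ℂ)) hd
  push_cast at hd' ⊢
  rw [← Finset.mul_sum]
  linear_combination (c : ℂ) ^ 3 * hd'

end UNL
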