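import Pool.Agent.UNL.WDft
import Pool.Agent.UNL.CBas

/-!
# UNL part (W): the Fourier transform of `(k, l) ↦ H (m₁ k, m₂ l)` and the lattice sums
-/

namespace UNL

open ZMod

theorem std_pr_em {c M : ℕ} [NeZero c] [NeZero (c * M)] (r : ℤ × ℤ) (k : ZMod c × ZMod c) :
    stdAddChar (M2.pr (c * M) r (em2 c M k)) = stdAddChar (pz (M2.rd c r) k) := by
  rw [M2.pr, em2_apply, AddChar.map_add_eq_mul]
  simp only [std_em]
  rw [← AddChar.map_add_eq_mul]
  rfl

theorem HH_em {c M : ℕ} (hc : c.Prime) [NeZero (c * M)] (k l : ZMod c × ZMod c) :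
    HH c (em2 c M k) (em2 c M l) = 1 - c * ((∑ j ∈ Finset.range c, ind (k + j • l = 0)) + ind (l = 0))
      + (c : ℤ) ^ 3 * ind (k = 0 ∧ l = 0) := by
  have hM : M ≠ 0 := by
    rintro rfl
    exact NeZero.ne (c * 0) (mul_zero c)
  have hi : ∀ z, em2 c M z = 0 ↔ z = 0 := fun z =>
    ⟨fun h => em2_inj c M hM (h.trans (map_zero _).symm), fun h => by rw [h, map_zero]⟩
  rw [HH_eq hc (em2_tors c M k) (em2_tors c M l), ind_congr (hi l),
    ind_congr (and_congr (hi k) (hi l))]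
  congr 3
  congr 1
  refine Finset.sum_congr rfl fun j _ => ind_congr ?_
  rw [← map_nsmul, ← map_add, hi]

theorem HH_zero_of_left {c N : ℕ} {k : G N} (l : G N) (h : c • k ≠ 0) : HH c k l = 0 := by
  by_contra hn
  exact h (HH_supp c hn).1

theorem HH_zero_of_right {c N : ℕ} (k : G N) {l : G N} (h : c • l ≠ 0) : HH c k l = 0 := by
  by_contra hn
  exact h (HH_supp c hn).2

theorem HH_dft0 {c : ℕ} (hc : c.Prime) {N : ℕ} [NeZero N] (hN : c ∣ N) (r s : ℤ × ℤ) :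
    ∑ k : G N, ∑ l : G N, (HH c k l : ℂ) *
      (stdAddChar (M2.pr N r k) * stdAddChar (M2.pr N s l)) =
      (((c : ℤ) ^ 3 * (1 - ind ((c : ℤ) ∣ dt r s)) : ℤ) : ℂ) := by
  obtain ⟨M, rfl⟩ := hN
  have : NeZero c := ⟨hc.ne_zero⟩
  rw [← sum_c hc r s, sum_tors]
  · refine Finset.sum_congr rfl fun k _ => ?_
    rw [sum_tors]
    · refine Finset.sum_congr rfl fun l _ => ?_
      rw [HH_em hc, std_pr_em, std_pr_em]
    · intro l hl
      rw [HH_zero_of_right _ hl]; simp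
  · intro k hk
    refine Finset.sum_eq_zero fun l _ => ?_
    rw [HH_zero_of_left _ hk]; simp

/-- row sums of `H` -/
theorem HH_row (c : ℕ) (hc : c.Prime) (N : ℕ) [NeZero N] (hN : c ∣ N) (k : G N) :
    ∑ l : G N, HH c k l = 0 := by
  have : NeZero c := ⟨hc.ne_zero⟩
  by_cases hk : c • k = 0
  · obtain ⟨M, rfl⟩ := hN
    have hM : M ≠ 0 := by
      rintro rfl
      exact NeZero.ne (c * 0) (mul_zero c)
    obtain ⟨k', rfl⟩ := em2_range c M hc.ne_zero k hk
    rw [sum_tors _ (fun l hl => HH_zero_of_right _ hl)]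
    have h1 : ∀ l : ZMod c × ZMod c, HH c (em2 c M k') (em2 c M l) =
        1 - c * ((∑ j ∈ Finset.range c, ind (l + j • k' = 0)) + ind (k' = 0))
          + (c : ℤ) ^ 3 * ind (l = 0 ∧ k' = 0) := fun l => by rw [HH_symm, HH_em hc]
    simp only [h1]
    have h2 : ∑ l : ZMod c × ZMod c, ind (l = 0 ∧ k' = 0) = ind (k' = 0) := by
      rw [Finset.sum_eq_single 0]
      · exact ind_congr (by simp)
      · intro l _ hl
        exact ind_neg fun h => hl h.1
      · intro h; exact absurd (Finset.mem_univ _) h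
    have h3 : ∑ l : ZMod c × ZMod c, ∑ j ∈ Finset.range c, ind (l + j • k' = 0) = c := by
      rw [Finset.sum_comm]
      have : ∀ j : ℕ, ∑ l : ZMod c × ZMod c, ind (l + j • k' = 0) = 1 := by
        intro j
        rw [Finset.sum_eq_single (-(j • k'))]
        · exact ind_pos (neg_add_cancel _)
        · intro l _ hl
          exact ind_neg fun h => hl (eq_neg_of_add_eq_zero_left h)
        · intro h; exact absurd (Finset.mem_univ _) h
      rw [Finset.sum_congr rfl (fun j _ => this j)]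
      simp
    rw [Finset.sum_add_distrib, Finset.sum_sub_distrib, ← Finset.mul_sum, ← Finset.mul_sum,
      Finset.sum_add_distrib, h2, h3]
    simp only [Finset.sum_const, Finset.card_univ, Fintype.card_prod, ZMod.card, nsmul_eq_mul]
    push_cast
    ring
  · exact Finset.sum_eq_zero fun l _ => HH_zero_of_left _ hk

/-- the transform of `(k, l) ↦ H (m₁ k, m₂ l)` -/
noncomputable def TF (c : ℕ) (N : ℕ) [NeZero N] (m1 m2 : M2) (x y : ℤ × ℤ) : ℂ :=
  ∑ k : G N, ∑ l : G N, (HH c (m1.az k) (m2.az l) : ℂ) *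
    (stdAddChar (M2.pr N x k) * stdAddChar (M2.pr N y l))

theorem TF_du {c : ℕ} (hc : c.Prime) {N : ℕ} [NeZero N] {m1 m2 : M2} (h1 : 0 < m1.det)
    (h2 : 0 < m2.det) (d1 : (c : ℤ) * m1.det ∣ N) (d2 : (c : ℤ) * m2.det ∣ N) (r s : ℤ × ℤ) :
    TF c N m1 m2 (m1.du r) (m2.du s) =
      m1.det * (m2.det * (((c : ℤ) ^ 3 * (1 - ind ((c : ℤ) ∣ dt r s)) : ℤ) : ℂ)) := by
  have hN : c ∣ N := by
    have : (c : ℤ) ∣ (N : ℤ) := (Dvd.intro _ rfl).trans d1
    exact_mod_cast this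
  rw [← HH_dft0 hc hN r s, TF]
  simp only [M2.pr_du]
  have a1 : ∀ k : G N, ∑ l : G N, (HH c (m1.az k) (m2.az l) : ℂ) *
      (stdAddChar (M2.pr N r (m1.az k)) * stdAddChar (M2.pr N s (m2.az l))) =
      m2.det * ∑ l : G N, (HH c (m1.az k) l : ℂ) *
      (stdAddChar (M2.pr N r (m1.az k)) * stdAddChar (M2.pr N s l)) := fun k =>
    m2.sum_az h2 d2 (F := fun l => (HH c (m1.az k) l : ℂ) *
      (stdAddChar (M2.pr N r (m1.az k)) * stdAddChar (M2.pr N s l)))
      (fun l hl => by rw [HH_zero_of_right _ hl]; simp)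
  simp only [a1]
  rw [m1.sum_az h1 d1 (F := fun k => m2.det * ∑ l : G N, (HH c k l : ℂ) *
      (stdAddChar (M2.pr N r k) * stdAddChar (M2.pr N s l)))]
  · rw [← Finset.mul_sum]
  · intro k hk
    rw [Finset.sum_eq_zero (fun l _ => by rw [HH_zero_of_left _ hk]; simp), mul_zero]

theorem sum_trans {N : ℕ} [NeZero N] {m : M2} (h : 0 < m.det) (hd : m.det ∣ N) {x : ℤ × ℤ}
    (hx : ¬ ∃ r, x = m.du r) (f : G N → ℂ) :
    ∑ k : G N, f (m.az k) * stdAddChar (M2.pr N x k) = 0 := by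
  obtain ⟨k0, hk0, hp⟩ := m.exists_ker h hd hx
  have h1 : ∑ k : G N, f (m.az k) * stdAddChar (M2.pr N x k) =
      ∑ k : G N, f (m.az (k + k0)) * stdAddChar (M2.pr N x (k + k0)) :=
    (Equiv.sum_comp (Equiv.addRight k0) _).symm
  have h2 : ∀ k : G N, f (m.az (k + k0)) * stdAddChar (M2.pr N x (k + k0)) =
      stdAddChar (M2.pr N x k0) * (f (m.az k) * stdAddChar (M2.pr N x k)) := by
    intro k
    have e1 : m.az (k + k0) = m.az k := by
      have := (m.azh N).map_add k k0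
      simp only [M2.azh_apply] at this
      rw [this, hk0, add_zero]
    have e2 : M2.pr N x (k + k0) = M2.pr N x k + M2.pr N x k0 := by
      simp only [M2.pr, Prod.fst_add, Prod.snd_add]; ring
    rw [e1, e2, AddChar.map_add_eq_mul]
    ring
  simp only [h2] at h1
  rw [← Finset.mul_sum] at h1
  have h3 : stdAddChar (M2.pr N x k0) ≠ (1 : ℂ) := by
    intro h4
    refine hp (ZMod.injective_stdAddChar ?_)
    rw [h4, AddChar.map_zero_eq_one]
  have h5 : (stdAddChar (M2.pr N x k0) - 1) *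
      ∑ k : G N, f (m.az k) * stdAddChar (M2.pr N x k) = 0 := by
    linear_combination -h1
  exact (mul_eq_zero.1 h5).resolve_left (sub_ne_zero.2 h3)

theorem TF_zero {c : ℕ} {N : ℕ} [NeZero N] {m1 m2 : M2} (h1 : 0 < m1.det)
    (h2 : 0 < m2.det) (d1 : m1.det ∣ N) (d2 : m2.det ∣ N) {x y : ℤ × ℤ}
    (hxy : ¬ ∃ q : (ℤ × ℤ) × (ℤ × ℤ), (x, y) = (m1.du q.1, m2.du q.2)) :
    TF c N m1 m2 x y = 0 := by
  by_cases hx : ∃ r, x = m1.du r
  · have hy : ¬ ∃ s, y = m2.du s := by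
      rintro ⟨s, rfl⟩
      obtain ⟨r, rfl⟩ := hx
      exact hxy ⟨(r, s), rfl⟩
    rw [TF]
    refine Finset.sum_eq_zero fun k _ => ?_
    have := sum_trans h2 d2 hy (fun l => (HH c (m1.az k) l : ℂ) * stdAddChar (M2.pr N x k))
    rw [← this]
    exact Finset.sum_congr rfl fun l _ => by ring
  · have := sum_trans h1 d1 hx (fun k => ∑ l : G N, (HH c k (m2.az l) : ℂ) *
      stdAddChar (M2.pr N y l))
    rw [TF, ← this]
    refine Finset.sum_congr rfl fun k _ => ?_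
    rw [Finset.sum_mul]
    exact Finset.sum_congr rfl fun l _ => by ring

theorem TF_bound (c N : ℕ) [NeZero N] (m1 m2 : M2) : ∃ K : ℝ, ∀ x y, ‖TF c N m1 m2 x y‖ ≤ K := by
  refine ⟨∑ k : G N, ∑ l : G N, ‖(HH c (m1.az k) (m2.az l) : ℂ)‖, fun x y => ?_⟩
  refine (norm_sum_le _ _).trans (Finset.sum_le_sum fun k _ => ?_)
  refine (norm_sum_le _ _).trans (Finset.sum_le_sum fun l _ => ?_)
  rw [norm_mul, norm_mul, AddChar.norm_apply, AddChar.norm_apply, mul_one, mul_one]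

theorem M2.du_inj {m : M2} (h : m.det ≠ 0) : Function.Injective m.du := by
  intro x y hxy
  have h1 := congrArg m.adj.du hxy
  rw [M2.adj_du, M2.adj_du] at h1
  exact smul_right_injective _ h h1

theorem TF_summable (a : Par) (c N : ℕ) [NeZero N] (m1 m2 : M2) :
    Summable fun x : (ℤ × ℤ) × (ℤ × ℤ) =>
      TF c N m1 m2 x.1 x.2 * KK (mm a x.1) (mm a x.2) := by
  obtain ⟨K, hK⟩ := TF_bound c N m1 m2
  have hs : Summable fun x : (ℤ × ℤ) × (ℤ × ℤ) => ‖KK (mm a x.1) (mm a x.2)‖ := by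
    simp only [KK_ker, ← LDa_xx]
    exact (LDa a).summable_kerC
  refine Summable.of_norm_bounded (hs.mul_left K) fun x => ?_
  rw [norm_mul]
  exact mul_le_mul_of_nonneg_right (hK _ _) (norm_nonneg _)

theorem TF_tsum (a : Par) {c : ℕ} (hc : c.Prime) {N : ℕ} [NeZero N] {m1 m2 : M2} (h1 : 0 < m1.det)
    (h2 : 0 < m2.det) (d1 : (c : ℤ) * m1.det ∣ N) (d2 : (c : ℤ) * m2.det ∣ N) :
    ∑' x : (ℤ × ℤ) × (ℤ × ℤ), TF c N m1 m2 x.1 x.2 * KK (mm a x.1) (mm a x.2) =
      m1.det * (m2.det * ((c : ℂ) ^ 3 * ∑' q : (ℤ × ℤ) × (ℤ × ℤ),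
        (if (c : ℤ) ∣ dt q.1 q.2 then 0 else 1) *
          KK (mm a (m1.du q.1)) (mm a (m2.du q.2)))) := by
  have hinj : Function.Injective fun q : (ℤ × ℤ) × (ℤ × ℤ) => (m1.du q.1, m2.du q.2) :=
    Function.Injective.prodMap (M2.du_inj h1.ne') (M2.du_inj h2.ne')
  rw [← hinj.tsum_eq]
  · rw [← tsum_mul_left, ← tsum_mul_left, ← tsum_mul_left]
    refine tsum_congr fun q => ?_
    simp only
    rw [TF_du hc h1 h2 d1 d2]
    by_cases hd : (c : ℤ) ∣ dt q.1 q.2
    · rw [ind_pos hd, if_pos hd]; simp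
    · rw [ind_neg hd, if_neg hd]; push_cast; ring
  · intro x hx
    by_contra hn
    refine hx ?_
    simp only
    rw [TF_zero h1 h2 ((Dvd.intro_left _ rfl).trans d1) ((Dvd.intro_left _ rfl).trans d2), zero_mul]
    rintro ⟨q, hq⟩
    exact hn ⟨q, hq.symm⟩

end UNL
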